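import Pool.Agent.H635.RG.Th

/-!
# The first uncountable cardinal of the model
-/

set_option autoImplicit false
set_option linter.unreachableTactic false
set_option linter.unusedTactic false
set_option linter.unusedSectionVars false
set_option linter.unusedVariables false

namespace Pool.Agent.H635.RG

open Pool.Agent.W868 Pool.Agent.W868.GM Pool.Agent.Y588
open Pool.Agent.H635.RB (Fi dfn_fi fin_mem nat_mem_iff mem_nat nat_sub)
open ZFSet (pair)
open Pool.Agent.H635.RF (fnc stc cyl)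

theorem aleph1_ext {M : Set ZFSet.{0}} (hL : IsLA ∅ M) {κ G : ZFSet.{0}} (hκM : κ ∈ M)
    (hκ : κ.IsOrdinal) (hG : IsGeneric M (PP M yp κ) (LL M yp κ) G) {o : ZFSet.{0}}
    (ho : IsAleph1 M o) : IsAleph1 (ext M G) o := by
  have hM := hL.zf
  have hπ := pOk_yp hM
  have hg := hL.gc
  have hN := zf_G hM hπ hg hκM hκ hG
  have hMN := M_sub_G hM hπ hκM hκ hG
  have h0 : (∅ : ZFSet.{0}) ∈ o := zero_lt hM hg ho
  refine ⟨hMN ho.1, ho.2.1, ?_, ?_⟩
  · rintro ⟨j, hjN, hj⟩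
    set H : ZFSet.{0} → ZFSet.{0} := fun x =>
      ZFSet.sUnion (ZFSet.sep (fun ξ => pair ξ x ∈ j) o) with hH
    have hHd : DfnF (ext M G) (ext M G) fun w : Fin 1 → ZFSet.{0} => H (w 0) := by
      refine hN.base.sUnion' (hN.sep' (Q := fun ξ w => pair ξ (w 0) ∈ j)
        (DfnF.const (hMN ho.1)) ?_)
      exact Dfn.mem (hN.base.pair' (DfnF.proj 0) (DfnF.proj 1)) (DfnF.const hjN)
    have hHv : ∀ ξ ∈ o, ∀ x, pair ξ x ∈ j → H x = ξ := by
      intro ξ hξ x hx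
      have h1 : ZFSet.sep (fun ξ => pair ξ x ∈ j) o = {ξ} := by
        ext η
        rw [ZFSet.mem_sep, ZFSet.mem_singleton]
        constructor
        · rintro ⟨-, h2⟩
          exact hj.2 _ _ _ h2 hx
        · rintro rfl
          exact ⟨hξ, hx⟩
      rw [hH]
      simp only
      rw [h1, ZFSet.sUnion_singleton]
    have hHo : ∀ x, H x ∈ o := by
      intro x
      by_cases h1 : ∃ ξ ∈ o, pair ξ x ∈ j
      · obtain ⟨ξ, hξ, h2⟩ := h1
        rw [hHv ξ hξ x h2]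
        exact hξ
      · have h2 : ZFSet.sep (fun ξ => pair ξ x ∈ j) o = ∅ := by
          refine (ZFSet.eq_empty _).2 fun ξ hξ => h1 ?_
          exact ⟨ξ, (ZFSet.mem_sep.1 hξ).1, (ZFSet.mem_sep.1 hξ).2⟩
        rw [hH]
        simp only
        rw [h2, ZFSet.sUnion_empty]
        exact h0
    obtain ⟨δ, hδ, h1⟩ := reg_aleph1 hM hπ (ct_yp hM) hg pAx_yp hκM hκ hG ho hHd
      fun n => hHo _
    obtain ⟨b, hb, h2⟩ := fun_exists hj.1 hδ
    obtain ⟨n, rfl⟩ := mem_omega_iff.1 hb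
    have h3 := h1 n
    rw [hHv δ hδ _ h2] at h3
    exact ZFSet.mem_irrefl _ h3
  · intro ξ hξ
    obtain ⟨j, hjM, hj⟩ := ho.2.2.2 ξ hξ
    exact ⟨j, hMN hjM, hj⟩

/-- A model of `ℵ₁ = minadd < add(I_id)`. -/
theorem exists_model' : ∃ N : Set ZFSet.{0}, N.Countable ∧ IsZFC N ∧ ∃ K, IsAleph1 N K ∧
    (∃ f : ℕ → ℕ, StrictMono f ∧ fnc f ∈ N ∧ AddLe N f K) ∧ ¬ AddLe N id K := by
  obtain ⟨M, hc, hL⟩ := Pool.Agent.R597.exists_ctm_L
  have hM := hL.zf
  have hg := hL.gc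
  obtain ⟨o, ho⟩ := RF.exists_aleph1 hM
  have ho' : IsAleph1 M o := ho
  obtain ⟨κ, hκM, hκ, hb⟩ := exists_aleph2 hM hg ho'
  have hπ := pOk_yp hM
  have hP := isForcing_PP hM hπ hκM hκ
  obtain ⟨G, hG, -⟩ := exists_gen hc hP (empty_mem_PP hM κ)
  have hN := zf_G hM hπ hg hκM hκ hG
  refine ⟨ext M G, hc.image _, zfc_ext hL hP hG, o, aleph1_ext hL hκM hκ hG ho',
    ⟨ff, strictMono_ff, ?_, addLe_ff hL hκM hκ hG ho'⟩, not_addLe_id hL hκM hκ hG ho' hb⟩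
  exact fnc_mem hN (NF.ff hN (NF.tn hN (DfnF.proj 0)))

end Pool.Agent.H635.RG
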