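import Pool.Agent.H635.RG.Sx

/-!
# the arithmetic of the parameters
-/

set_option autoImplicit false
set_option linter.unreachableTactic false
set_option linter.unusedTactic false
set_option linter.unusedSectionVars false
set_option linter.unusedVariables false

namespace Pool.Agent.H635.RG

open Pool.Agent.W868 Pool.Agent.W868.GM Pool.Agent.Y588
open Pool.Agent.H635.RB (Fi dfn_fi fin_mem nat_mem_iff mem_nat nat_sub)
open ZFSet (pair)
open Pool.Agent.H635.RF (fnc stc cyl ap_fnc fnc_mem_of mem_stc nat_mem_stc)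

theorem ar_av_succ (n : ℕ) : av (n + 1) = av n + dv n + Mv n := rfl

theorem ar_Mv_pos (n : ℕ) : 0 < Mv n := by
  unfold Mv Mf; exact Nat.succ_pos _

theorem av_lt (n : ℕ) : av n + dv n < av (n + 1) := by
  rw [ar_av_succ]; have := ar_Mv_pos n; omega

theorem ar_av_lt_succ (n : ℕ) : av n < av (n + 1) := by
  have := av_lt n; omega

theorem ar_av_strictMono : StrictMono av := strictMono_nat_of_lt_succ ar_av_lt_succ

theorem av_mono {m n : ℕ} (h : m ≤ n) : av m ≤ av n := ar_av_strictMono.monotone h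

theorem adv_mono {m n : ℕ} (h : m ≤ n) : av m + dv m ≤ av n + dv n := by
  rcases Nat.lt_or_ge m n with h1 | h1
  · have h2 := av_lt m
    have h3 : av (m + 1) ≤ av n := av_mono h1
    omega
  · have : m = n := le_antisymm h h1
    subst this; exact le_rfl

theorem ar_Mv_mono {m n : ℕ} (h : m ≤ n) : Mv m ≤ Mv n := by
  unfold Mv Mf
  have h1 : (av m + 1) * m ≤ (av n + 1) * n := Nat.mul_le_mul (Nat.succ_le_succ (av_mono h)) h
  exact Nat.succ_le_succ (Nat.pow_le_pow_right (by norm_num) h1)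

theorem ar_lt_Mv (n : ℕ) : n < Mv n := by
  unfold Mv Mf
  have h1 : n ≤ (av n + 1) * n := Nat.le_mul_of_pos_left n (Nat.succ_pos _)
  have h2 : n < 2 ^ n := Nat.lt_two_pow_self
  have h3 : 2 ^ n ≤ 2 ^ ((av n + 1) * n) := Nat.pow_le_pow_right (by norm_num) h1
  omega

theorem ix_spec (m : ℕ) : m < Mv (ix m) := by
  have : (sInf {n | m < Mv n}) ∈ {n | m < Mv n} := Nat.sInf_mem ⟨m, ar_lt_Mv m⟩
  exact this

theorem ix_le {m n : ℕ} (h : m < Mv n) : ix m ≤ n := Nat.sInf_le h

theorem ix_mono {m n : ℕ} (h : m ≤ n) : ix m ≤ ix n := ix_le (lt_of_le_of_lt h (ix_spec n))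

theorem strictMono_ff : StrictMono ff := by
  intro m n h
  have h1 := adv_mono (ix_mono h.le)
  unfold ff
  omega

theorem ar_le_dv (n : ℕ) : n * wv n n + Mv n + 1 = dv n := rfl

theorem Mv_lt_Dv (n : ℕ) : Mv n < Dv n := by
  have h1 : Mv n < dv n := by rw [← ar_le_dv]; omega
  have h2 : dv n < 2 ^ dv n := Nat.lt_two_pow_self
  unfold Dv
  omega

theorem wv_succ (k n : ℕ) : wv (k + 1) n =
    wv k n * ((n + 1) ^ n * 2 ^ sb ((wv k n + 1) * n)) + wv k n := rfl

theorem wv_mono {k l : ℕ} (h : k ≤ l) (n : ℕ) : wv k n ≤ wv l n := by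
  induction h with
  | refl => exact le_rfl
  | step _ ih => rw [wv_succ]; exact ih.trans (Nat.le_add_left _ _)

theorem mul_wv_lt (n : ℕ) : n * wv n n < Dv n := by
  have h1 : n * wv n n < dv n := by rw [← ar_le_dv]; omega
  have h2 : dv n < 2 ^ dv n := Nat.lt_two_pow_self
  unfold Dv
  omega

theorem ar_iy_spec (i : ℕ) : i < 2 ^ (av (iy i) + 1) := by
  have hne : i ∈ {n | i < 2 ^ (av n + 1)} := by
    have h1 : i ≤ av i := ar_av_strictMono.le_apply
    have h2 : i < 2 ^ i := Nat.lt_two_pow_self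
    have h3 : 2 ^ i ≤ 2 ^ (av i + 1) := Nat.pow_le_pow_right (by norm_num) (by omega)
    exact lt_of_lt_of_le h2 h3
  have : (sInf {n | i < 2 ^ (av n + 1)}) ∈ {n | i < 2 ^ (av n + 1)} := Nat.sInf_mem ⟨i, hne⟩
  exact this

/-- for all but finitely many `i`, `ff (i ^ k)` is at most the length of the string number `i` -/
theorem Ll_sgx (x : ℕ → ℕ) : Ll ff fun m => (sgx x m).1 := by
  intro k
  refine ⟨2 ^ (av k + 1) + k + 1, fun i hi => ?_⟩
  show ff (i ^ k) ≤ (sgx x i).1
  unfold sgx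
  by_cases h : 2 ^ av (iy i) ≤ i
  · rw [if_pos h]
    have h1 := ar_iy_spec i
    show ff (i ^ k) ≤ av (iy i + 1)
    have hk : k ≤ iy i := by
      by_contra hc
      have h2 : av (iy i) ≤ av k := av_mono (by omega)
      have h3 : 2 ^ (av (iy i) + 1) ≤ 2 ^ (av k + 1) := Nat.pow_le_pow_right (by norm_num) (by omega)
      omega
    have h4 : i ^ k < Mv (iy i) := by
      unfold Mv Mf
      have e1 : i ^ k ≤ (2 ^ (av (iy i) + 1)) ^ k := Nat.pow_le_pow_left h1.le k
      rw [← pow_mul] at e1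
      have e2 : 2 ^ ((av (iy i) + 1) * k) ≤ 2 ^ ((av (iy i) + 1) * iy i) :=
        Nat.pow_le_pow_right (by norm_num) (Nat.mul_le_mul_left _ hk)
      omega
    have h5 := adv_mono (ix_le h4)
    rw [ar_av_succ]
    unfold ff
    omega
  · rw [if_neg h]
    have hp : 0 < 2 ^ (av k + 1) := Nat.two_pow_pos _
    have hi1 : 0 < i := by omega
    have hik : k ≤ i := by omega
    have h2 : i ^ k ≤ i ^ i := Nat.pow_le_pow_right hi1 hik
    exact strictMono_ff.monotone h2

/-- there are at most `w` digits -/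
theorem card_digits {w D s : ℕ} (V : Finset ℕ) (hV : ∀ y ∈ V, inS w D s y) : V.card ≤ w := by
  classical
  have : V ⊆ (Finset.range w).image fun c => s / D ^ c % D := by
    intro y hy
    obtain ⟨c, hc, he⟩ := hV y hy
    exact Finset.mem_image.mpr ⟨c, Finset.mem_range.mpr hc, he⟩
  calc V.card ≤ ((Finset.range w).image fun c => s / D ^ c % D).card := Finset.card_le_card this
    _ ≤ (Finset.range w).card := Finset.card_image_le
    _ = w := Finset.card_range w

/-- every set with at most `w` elements is a set of digits -/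
theorem exists_digits {w D : ℕ} (V : Finset ℕ) (hV : ∀ y ∈ V, y < D) (hc : V.card ≤ w) :
    ∃ s, ∀ y ∈ V, inS w D s y := by
  classical
  suffices H : ∀ V : Finset ℕ, (∀ y ∈ V, y < D) → ∃ s, ∀ y ∈ V, inS V.card D s y by
    obtain ⟨s, hs⟩ := H V hV
    refine ⟨s, fun y hy => ?_⟩
    obtain ⟨c, h1, h2⟩ := hs y hy
    exact ⟨c, lt_of_lt_of_le h1 hc, h2⟩
  intro V
  induction V using Finset.induction_on with
  | empty => intro _; exact ⟨0, fun y hy => absurd hy (Finset.notMem_empty y)⟩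
  | insert a t ha ih =>
    intro h
    have hD : a < D := h a (Finset.mem_insert_self a t)
    have hD0 : 0 < D := by omega
    obtain ⟨s, hs⟩ := ih (fun y hy => h y (Finset.mem_insert_of_mem hy))
    refine ⟨a + D * s, fun y hy => ?_⟩
    rw [Finset.card_insert_of_notMem ha]
    rcases Finset.mem_insert.mp hy with rfl | hy
    · refine ⟨0, Nat.succ_pos _, ?_⟩
      rw [pow_zero, Nat.div_one, Nat.add_mul_mod_self_left, Nat.mod_eq_of_lt hD]
    · obtain ⟨c, h1, h2⟩ := hs y hy
      refine ⟨c + 1, Nat.succ_lt_succ h1, ?_⟩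
      rw [pow_succ', ← Nat.div_div_eq_div_mul, Nat.add_mul_div_left _ _ hD0, Nat.div_eq_of_lt hD, Nat.zero_add]
      exact h2

end Pool.Agent.H635.RG
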