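import Pool.Agent.H635.RG.Cc

/-!
# Bounds for names
-/

set_option autoImplicit false
set_option linter.unreachableTactic false
set_option linter.unusedTactic false
set_option linter.unusedSectionVars false
set_option linter.unusedVariables false

namespace Pool.Agent.H635.RG

open Pool.Agent.W868 Pool.Agent.W868.GM Pool.Agent.Y588
open Pool.Agent.H635.RB (Fi dfn_fi fin_mem nat_mem_iff mem_nat)
open ZFSet (pair)
open Pool.Agent.H635.RF (fnc stc sqc)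

section

variable {M : Set ZFSet.{0}} (hM : IsZF M) {e : ZFSet.{0} → ZFSet.{0}} (hg : GC M e)
  {κ : ZFSet.{0}} (hk : IsAleph1 M κ)

include hM hg hk

theorem ct_below {γ : ZFSet.{0}} (h : γ ∈ κ) : Ct M γ := hk.2.2.2 γ h

theorem sc_lt {γ : ZFSet.{0}} (h : γ ∈ κ) : sc γ ∈ κ := by
  have hγM : γ ∈ M := hM.trans _ hk.1 _ h
  have hγ := hk.2.1.mem h
  rcases (isOrdinal_sc hγ).mem_trichotomous hk.2.1 with h1 | h1 | h1
  · exact h1
  · exfalso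
    have h2 : Ct M (sc γ) := Inj.insert hM hg hM.infinity isOrdinal_omega (fun _ h => h) hγM hγM
      (ct_below hM hg hk h)
    rw [h1] at h2
    exact hk.2.2.1 h2
  · exfalso
    rcases ZFSet.mem_insert_iff.1 h1 with h2 | h2
    · rw [h2] at h
      exact ZFSet.mem_irrefl _ h
    · exact ZFSet.mem_asymm h h2

theorem kappa_ne : ∃ γ, γ ∈ κ := by
  by_contra hc
  push Not at hc
  have : κ = ∅ := (ZFSet.eq_empty κ).2 hc
  refine hk.2.2.1 ?_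
  rw [this]
  exact ct_nat hM 0

theorem zero_lt : (∅ : ZFSet.{0}) ∈ κ := by
  obtain ⟨γ, hγ⟩ := kappa_ne hM hg hk
  rcases ZFSet.isOrdinal_empty.mem_trichotomous hk.2.1 with h | h | h
  · exact h
  · rw [← h] at hγ
    exact absurd hγ (ZFSet.notMem_empty _)
  · exact absurd h (ZFSet.notMem_empty _)

theorem bdd_of_ct {B : ZFSet.{0}} (hBM : B ∈ M) (hB : B ⊆ κ) (h : Ct M B) :
    ∃ γ ∈ κ, B ⊆ γ := by
  by_contra hc
  push Not at hc
  refine hk.2.2.1 ?_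
  refine ct_cover hM hg hk.1 hBM h (F := fun u => u) (DfnF.proj 0)
    (fun u hu => ct_below hM hg hk (hB hu)) fun γ hγ => ?_
  have h1 := hc _ (sc_lt hM hg hk hγ)
  have h2 : ∃ b ∈ B, b ∉ sc γ := by
    by_contra h3
    push Not at h3
    exact h1 fun b hb => h3 b hb
  obtain ⟨b, hb, h3⟩ := h2
  have hbo := hk.2.1.mem (hB hb)
  have hγo := hk.2.1.mem hγ
  refine ⟨b, hb, ?_⟩
  rcases hγo.mem_trichotomous hbo with h4 | h4 | h4
  · exact h4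
  · exact absurd (ZFSet.mem_insert_iff.2 (Or.inl h4.symm)) h3
  · exact absurd (ZFSet.mem_insert_iff.2 (Or.inr h4)) h3

variable {π : Par} (hπ : POk M π) (hE : Ct M π.E) (hx : PAx π)

include hπ hE hx

theorem exists_low {p : ZFSet.{0}} (hp : p ∈ PP M π κ) : ∃ δ ∈ κ, p ∈ PP M π δ := by
  have hp' := mem_PP.1 hp
  by_cases hne : ∃ z, z ∈ p
  · obtain ⟨β, hβ, h1⟩ := max_blk hM hπ hx hk.2.1 hp'.ats hp'.fin hne
    refine ⟨sc β, sc_lt hM hg hk hβ, mem_PP.2 ⟨hp'.mem, hp'.fin, fun z hz => ?_, hp'.fn, hp'.seg,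
      hp'.vl, hp'.cn, hp'.sz⟩⟩
    obtain ⟨γ, h2, h3⟩ := hp'.atom z hz
    refine ⟨γ, ?_, h3⟩
    rw [← isAt_blk h3]
    rcases h1 z hz with h4 | h4
    · exact ZFSet.mem_insert_iff.2 (Or.inr h4)
    · exact ZFSet.mem_insert_iff.2 (Or.inl h4)
  · refine ⟨∅, zero_lt hM hg hk, mem_PP.2 ⟨hp'.mem, hp'.fin, fun z hz => ?_, hp'.fn, hp'.seg,
      hp'.vl, hp'.cn, hp'.sz⟩⟩
    exact absurd ⟨z, hz⟩ hne

/-- The least block in which the value of the name `s` at `m` is decided below `r` is `β`. -/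
def Pin (M : Set ZFSet.{0}) (π : Par) (κ s r m β : ZFSet.{0}) : Prop :=
  (∃ r' ∈ PP M π β, ∃ v ∈ ZFSet.omega, Db M π κ s r' m v ∧ pair r r' ∈ LL M π κ) ∧
  ∀ γ ∈ β, ∀ r' ∈ PP M π γ, ∀ v ∈ ZFSet.omega, Db M π κ s r' m v → ∀ q ∈ PP M π κ,
    ¬ (pair q r ∈ LL M π κ ∧ pair q r' ∈ LL M π κ)

omit hg hx hE in
theorem dfn_Pin {s : ZFSet.{0}} (hs : s ∈ M) {n : ℕ} {r m β : (Fin n → ZFSet.{0}) → ZFSet.{0}}
    (hr : DfnF M M r) (hm : DfnF M M m) (hβ : DfnF M M β) :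
    Dfn M M fun w => Pin M π κ s (r w) (m w) (β w) := by
  have hB := hM.base
  have hPM := PP_mem hM hπ hk.1
  have hLM := LL_mem hM hπ hk.1
  refine Dfn.comp3 (Q := Pin M π κ s) ?_ hr hm hβ
  unfold Pin
  have ho : ∀ {k : ℕ}, DfnF M M fun _ : Fin k → ZFSet.{0} => ZFSet.omega := omega_dfn hM
  (repeat' first
      | assumption
      | exact DfnF.proj _
      | exact ho
      | exact DfnF.const (by assumption)
      | exact dfn_Db hM hπ hk.1 hk.2.1 hk.1 (DfnF.const (by assumption)) (DfnF.proj _)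
          (DfnF.proj _) (DfnF.proj _)
      | apply Dfn.and | apply Dfn.not | apply Dfn.imp | apply hB.ball | apply hB.bex
      | apply Dfn.mem | apply Dfn.eq | apply hB.pair' | apply dfn_PP hM hπ
      | apply hM.fs' | apply hM.sn')

/-- The names of functions are bounded. -/
theorem bounded_name {G : ZFSet.{0}} (hG : IsGeneric M (PP M π κ) (LL M π κ) G) {s : ZFSet.{0}}
    (hs : s ∈ Nm M π κ) : ∃ γ ∈ κ, ∀ n : ℕ, ∃ r ∈ G, r ∈ PP M π γ ∧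
      Db M π κ s r (nat n) (nat (fv M π G κ s n)) := by
  classical
  have hB := hM.base
  have ho := hM.infinity
  have hκM := hk.1
  have hκ := hk.2.1
  have hPM := PP_mem hM hπ hκM
  have hLM := LL_mem hM hπ hκM
  have hsM := (mem_Nm.1 hs).1
  set B : ZFSet.{0} → ZFSet.{0} := fun m => ZFSet.sep (fun β => ∃ r ∈ PP M π κ,
    Pin M π κ s r m β) κ with hBd
  have hBdf : DfnF M M fun w : Fin 1 → ZFSet.{0} => B (w 0) := by
    refine hM.sep' (Q := fun β w => ∃ r ∈ PP M π κ, Pin M π κ s r (w 0) β) (DfnF.const hκM) ?_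
    refine hB.bex (Q := fun r w => Pin M π κ s r (w 1) (w 0)) (DfnF.const hPM) ?_
    exact dfn_Pin hM hk hπ hsM (DfnF.proj 0) (DfnF.proj 2) (DfnF.proj 1)
  have hBc : ∀ m ∈ ZFSet.omega, Ct M (B m) := by
    intro m hm
    have hmM := hM.trans _ ho _ hm
    have hBM : B m ∈ M := hBdf.1 (fun _ => m) fun _ => hmM
    by_contra hc
    set F : ZFSet.{0} → ZFSet.{0} := fun β => chs M e fun r => r ∈ PP M π κ ∧
      Pin M π κ s r m β with hF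
    have hFs : ∀ β ∈ B m, F β ∈ PP M π κ ∧ Pin M π κ s (F β) m β := by
      intro β hβ
      obtain ⟨r, hr, h1⟩ := (ZFSet.mem_sep.1 hβ).2
      exact (chs_spec (C := M) (e := e) (P := fun r => r ∈ PP M π κ ∧ Pin M π κ s r m β)
        ⟨r, hM.trans _ hPM _ hr, hr, h1⟩).2
    have hFd : DfnF M M fun w : Fin 1 → ZFSet.{0} => F (w 0) := by
      refine hM.chs' hg (Q := fun r w => r ∈ PP M π κ ∧ Pin M π κ s r m (w 0)) ?_
      exact (Dfn.mem (DfnF.proj 0) (DfnF.const hPM)).and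
        (dfn_Pin hM hk hπ hsM (DfnF.proj 0) (DfnF.const hmM) (DfnF.proj 1))
    obtain ⟨β, hβ, β', hβ', hne, q, hq, h1, h2⟩ := ccc hM hπ hE hg hx hκM hκ hBM hc hFd
      fun β hβ => (hFs β hβ).1
    -- the two blocks are comparable
    have key : ∀ β ∈ B m, ∀ β' ∈ B m, Le M π q (F β) → Le M π q (F β') → β ∈ β' → False := by
      intro β hβ β' hβ' h1 h2 h3
      obtain ⟨h4, ⟨r', hr', v, hv, h5, h6⟩, -⟩ := hFs β hβ
      obtain ⟨h7, -, h8⟩ := hFs β' hβ'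
      refine h8 β h3 r' hr' v hv h5 q hq ⟨mem_LL.2 ⟨hq, h7, h2⟩, ?_⟩
      obtain ⟨-, h9, h10⟩ := mem_LL.1 h6
      exact mem_LL.2 ⟨hq, h9, le_trans hM hκ _ h9 _ h4 _ hq h1 h10⟩
    have hβo := hκ.mem (ZFSet.mem_sep.1 hβ).1
    have hβo' := hκ.mem (ZFSet.mem_sep.1 hβ').1
    rcases hβo.mem_trichotomous hβo' with h3 | h3 | h3
    · exact key β hβ β' hβ' h1 h2 h3
    · exact hne h3
    · exact key β' hβ' β hβ h2 h1 h3
  have hU : ZFSet.sUnion (im B ZFSet.omega) ∈ M := hM.union _ (hM.im_mem ho hBdf)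
  obtain ⟨γ, hγ, h1⟩ := bdd_of_ct hM hg hk hU (by
    intro β hβ
    obtain ⟨y, hy, h1⟩ := ZFSet.mem_sUnion.1 hβ
    obtain ⟨m, hm, rfl⟩ := mem_im.1 hy
    exact (ZFSet.mem_sep.1 h1).1) (ct_iUnion hM hg ho (ct_omega hM) hBdf hBc)
  refine ⟨γ, hγ, fun n => ?_⟩
  have hd : Dfn M M fun w : Fin 1 → ZFSet.{0} => ∃ β ∈ κ, Pin M π κ s (w 0) (nat n) β := by
    refine hB.bex (Q := fun β w => Pin M π κ s (w 0) (nat n) β) (DfnF.const hκM) ?_
    exact dfn_Pin hM hk hπ hsM (DfnF.proj 1) (DfnF.const (hM.nat_mem n)) (DfnF.proj 0)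
  obtain ⟨r, hrG, β, hβ, h2⟩ := dense_gen hM hπ hκM hκ hG
    (Q := fun r => ∃ β ∈ κ, Pin M π κ s r (nat n) β) hd (by
    intro q hq
    obtain ⟨r₁, h2, h3, v, hv, h4⟩ := exists_dec hs hq (nat_mem_omega n)
    obtain ⟨δ, hδ, h5⟩ := exists_low hM hg hk hπ hE hx h2
    -- the least block
    set S : Set ZFSet.{0} := {β | β ∈ κ ∧ ∃ r' ∈ PP M π β, (∃ v ∈ ZFSet.omega,
      Db M π κ s r' (nat n) v) ∧ ∃ q' ∈ PP M π κ, Le M π q' r₁ ∧ Le M π q' r'} with hS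
    have hSne : S.Nonempty := ⟨δ, hδ, r₁, h5, ⟨v, hv, h4⟩, r₁, h2, le_refl _, le_refl _⟩
    set β := ZFSet.mem_wf.min S hSne with hβd
    obtain ⟨hβ, r', hr', ⟨v', hv', h6⟩, q', hq', h7, h8⟩ : β ∈ S :=
      ZFSet.mem_wf.min_mem S hSne
    refine ⟨q', hq', le_trans hM hκ _ hq _ h2 _ hq' h7 h3, β, hβ, ⟨r', hr', v', hv', h6, ?_⟩, ?_⟩
    · exact mem_LL.2 ⟨hq', PP_mono (hκ.subset_of_mem hβ) hr', h8⟩
    · rintro γ' hγ' r'' hr'' v'' hv'' h9 q'' hq'' ⟨h10, h11⟩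
      refine ZFSet.mem_wf.not_lt_min S (x := γ') ⟨hκ.mem_trans hγ' hβ, r'', hr'',
        ⟨v'', hv'', h9⟩, q'', hq'', ?_, (mem_LL.1 h11).2.2⟩ hγ'
      exact le_trans hM hκ _ h2 _ hq' _ hq'' (mem_LL.1 h10).2.2 h7)
  obtain ⟨⟨r', hr', v, hv, h3, h4⟩, h5⟩ := h2
  have h6 : β ∈ γ := h1 (ZFSet.mem_sUnion.2 ⟨_, mem_im.2 ⟨nat n, nat_mem_omega n, rfl⟩,
    ZFSet.mem_sep.2 ⟨hβ, r, hG.sub hrG, ⟨r', hr', v, hv, h3, h4⟩, h5⟩⟩)
  have hr'G : r' ∈ G := gen_up hM hπ hκM hκ hG hrG (mem_LL.1 h4).2.1 (mem_LL.1 h4).2.2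
  obtain ⟨k, rfl⟩ := mem_omega_iff.1 hv
  have h7 := fv_eq hM hπ hκM hκ hG hκM hκ (fun _ h => h) hs (mem_Gb.2 ⟨hr'G, hG.sub hr'G⟩) h3
  refine ⟨r', hr'G, PP_mono ((hκ.mem hγ).subset_of_mem h6) hr', ?_⟩
  rwa [h7]

end

end Pool.Agent.H635.RG
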