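import Pool.Agent.H635.RG.Sx

/-!
# binary codes
-/

set_option autoImplicit false
set_option linter.unreachableTactic false
set_option linter.unusedTactic false
set_option linter.unusedSectionVars false
set_option linter.unusedVariables false

namespace Pool.Agent.H635.RG

open Pool.Agent.W868 Pool.Agent.W868.GM Pool.Agent.Y588
open Pool.Agent.H635.RB (Fi dfn_fi fin_mem nat_mem_iff mem_nat nat_sub)
open ZFSet (pair)
open Pool.Agent.H635.RF (fnc stc cyl ap_fnc fnc_mem_of mem_stc nat_mem_stc)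

theorem mem_bts {c j : ℕ} : j ∈ bts c ↔ c / 2 ^ j % 2 = 1 := by
  unfold bts
  rw [Finset.mem_filter, Finset.mem_range]
  constructor
  · exact fun h => h.2
  · intro h
    refine ⟨?_, h⟩
    by_contra h1
    have h2 : c < 2 ^ j := lt_of_le_of_lt (not_lt.1 h1) Nat.lt_two_pow_self
    rw [Nat.div_eq_of_lt h2] at h
    omega

theorem bts_eq (c : ℕ) : bts c = c.bitIndices.toFinset := by
  ext j
  rw [mem_bts, List.mem_toFinset, Nat.mem_bitIndices, Nat.testBit_eq_decide_div_mod_eq,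
    decide_eq_true_iff]

theorem bts_bc (t : Finset ℕ) : bts (bc t) = t := by
  rw [bts_eq]
  unfold bc
  exact Finset.toFinset_bitIndices_sum_two_pow t

theorem bc_bts (c : ℕ) : bc (bts c) = c := by
  rw [bts_eq]
  unfold bc
  exact Finset.sum_toFinset_bitIndices_two_pow c

theorem mem_sgc {σ : ℕ → ℕ × Finset ℕ} {z : ZFSet.{0}} :
    z ∈ sgc σ ↔ ∃ m : ℕ, z = pair (nat m) (pair (nat (σ m).1) (stc {i | i ∈ (σ m).2})) := by
  unfold sgc
  rw [ZFSet.mem_range]
  constructor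
  · rintro ⟨m, rfl⟩
    exact ⟨m, rfl⟩
  · rintro ⟨m, rfl⟩
    exact ⟨m, rfl⟩

/-- A sequence of strings is in the model if and only if its numerical version is. -/
theorem sgc_iff {W : Set ZFSet.{0}} (hW : IsZF W) (σ : ℕ → ℕ × Finset ℕ) :
    sgc σ ∈ W ↔ fnc (cs σ) ∈ W := by
  have hB := hW.base
  constructor
  · intro hs
    refine fnc_mem_of hW (Q := fun a b => ∃ z ∈ sgc σ, fs z = a ∧
      (Nat.unpair (tn b)).1 = tn (fs (sn z)) ∧
      ∀ i : ℕ, (nat i ∈ sn (sn z) ↔ (Nat.unpair (tn b)).2 / 2 ^ i % 2 = 1)) ?_ ?_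
    · refine hB.bex (Q := fun z w => fs z = w 0 ∧
        (Nat.unpair (tn (w 1))).1 = tn (fs (sn z)) ∧
        ∀ i : ℕ, (nat i ∈ sn (sn z) ↔ (Nat.unpair (tn (w 1))).2 / 2 ^ i % 2 = 1))
        (DfnF.const hs) ?_
      refine Dfn.and (Dfn.eq (hW.fs' (DfnF.proj 0)) (DfnF.proj 1)) (Dfn.and ?_ ?_)
      · exact Dfn.eqn (NF.fst hW (NF.tn hW (DfnF.proj 2)))
          (NF.tn hW (hW.fs' (hW.sn' (DfnF.proj 0))))
      · refine Dfn.alln hW (Q := fun i w => (nat i ∈ sn (sn (w 0)) ↔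
          (Nat.unpair (tn (w 2))).2 / 2 ^ i % 2 = 1)) ?_
        refine Dfn.iff (Dfn.mem (NF.tn hW (DfnF.proj 0)) (hW.sn' (hW.sn' (DfnF.proj 1)))) ?_
        exact Dfn.eqn (NF.mod hW (NF.div hW (NF.snd hW (NF.tn hW (DfnF.proj 3)))
          (NF.pow hW (NF.const hW 2) (NF.tn hW (DfnF.proj 0)))) (NF.const hW 2)) (NF.const hW 1)
    · intro i j
      constructor
      · rintro ⟨z, hz, h1, h2, h3⟩
        obtain ⟨m, rfl⟩ := mem_sgc.1 hz
        rw [fs_pair] at h1
        have h4 := nat_injective h1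
        subst h4
        rw [sn_pair, fs_pair, tn_nat, tn_nat] at h2
        have h5 : bts (Nat.unpair j).2 = (σ m).2 := by
          ext i
          have h6 := h3 i
          rw [sn_pair, sn_pair, nat_mem_stc, tn_nat] at h6
          rw [mem_bts, ← h6]
          exact Iff.rfl
        unfold cs
        rw [← h5, bc_bts, ← h2, Nat.pair_unpair]
      · rintro rfl
        refine ⟨_, mem_sgc.2 ⟨i, rfl⟩, fs_pair _ _, ?_, ?_⟩
        · rw [sn_pair, fs_pair, tn_nat, tn_nat]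
          unfold cs
          rw [Nat.unpair_pair]
        · intro k
          rw [sn_pair, sn_pair, nat_mem_stc, tn_nat]
          unfold cs
          rw [Nat.unpair_pair]
          show k ∈ (σ i).2 ↔ bc (σ i).2 / 2 ^ k % 2 = 1
          rw [← mem_bts, bts_bc]
  · intro hf
    have h1 : sgc σ = ZFSet.sep (fun z => tn (fs (sn z)) = (Nat.unpair (cs σ (tn (fs z)))).1 ∧
        ∀ i : ℕ, (nat i ∈ sn (sn z) ↔ (Nat.unpair (cs σ (tn (fs z)))).2 / 2 ^ i % 2 = 1))
        (ZFSet.prod ZFSet.omega (ZFSet.prod ZFSet.omega (RF.Fw W))) := by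
      ext z
      rw [ZFSet.mem_sep, mem_sgc]
      constructor
      · rintro ⟨m, rfl⟩
        refine ⟨ZFSet.pair_mem_prod.2 ⟨nat_mem_omega _, ZFSet.pair_mem_prod.2 ⟨nat_mem_omega _,
          (RF.mem_Fw hW).2 ⟨(σ m).2.sup id + 1, ?_⟩⟩⟩, ?_, ?_⟩
        · intro z hz
          obtain ⟨i, hi, rfl⟩ := mem_stc.1 hz
          rw [nat_mem_iff]
          exact Nat.lt_succ_of_le (Finset.le_sup (f := id) hi)
        · rw [sn_pair, fs_pair, fs_pair, tn_nat, tn_nat]
          unfold cs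
          rw [Nat.unpair_pair]
        · intro k
          rw [sn_pair, sn_pair, fs_pair, nat_mem_stc, tn_nat]
          unfold cs
          rw [Nat.unpair_pair]
          show k ∈ (σ m).2 ↔ bc (σ m).2 / 2 ^ k % 2 = 1
          rw [← mem_bts, bts_bc]
      · rintro ⟨h2, h3, h4⟩
        obtain ⟨a, ha, y, hy, rfl⟩ := ZFSet.mem_prod.1 h2
        obtain ⟨b, hb, u, hu, rfl⟩ := ZFSet.mem_prod.1 hy
        obtain ⟨m, rfl⟩ := mem_omega_iff.1 ha
        obtain ⟨l, rfl⟩ := mem_omega_iff.1 hb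
        obtain ⟨n, hn⟩ := (RF.mem_Fw hW).1 hu
        rw [sn_pair, fs_pair, fs_pair, tn_nat, tn_nat] at h3
        have h5 : l = (σ m).1 := by
          rw [h3]
          unfold cs
          rw [Nat.unpair_pair]
        have h6 : RF.ust u = {i | i ∈ (σ m).2} := by
          ext i
          have h7 := h4 i
          rw [sn_pair, sn_pair, fs_pair, tn_nat] at h7
          unfold cs at h7
          rw [Nat.unpair_pair] at h7
          show nat i ∈ u ↔ i ∈ (σ m).2
          rw [h7]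
          show bc (σ m).2 / 2 ^ i % 2 = 1 ↔ i ∈ (σ m).2
          rw [← mem_bts, bts_bc]
        refine ⟨m, ?_⟩
        rw [← h6, RF.stc_ust (fun z hz => nat_subset_omega (hn hz)), h5]
    rw [h1]
    refine hW.sep_mem (Q := fun z => tn (fs (sn z)) = (Nat.unpair (cs σ (tn (fs z)))).1 ∧
        ∀ i : ℕ, (nat i ∈ sn (sn z) ↔ (Nat.unpair (cs σ (tn (fs z)))).2 / 2 ^ i % 2 = 1)) ?_
      (hW.prod_mem hW.infinity (hW.prod_mem hW.infinity (RF.Fw_mem hW)))
    refine Dfn.and ?_ ?_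
    · exact Dfn.eqn (NF.tn hW (hW.fs' (hW.sn' (DfnF.proj 0))))
        (NF.fst hW (NF.app hW hf (NF.tn hW (hW.fs' (DfnF.proj 0)))))
    · refine Dfn.alln hW (Q := fun i w => (nat i ∈ sn (sn (w 0)) ↔
        (Nat.unpair (cs σ (tn (fs (w 0))))).2 / 2 ^ i % 2 = 1)) ?_
      refine Dfn.iff (Dfn.mem (NF.tn hW (DfnF.proj 0)) (hW.sn' (hW.sn' (DfnF.proj 1)))) ?_
      exact Dfn.eqn (NF.mod hW (NF.div hW (NF.snd hW (NF.app hW hf (NF.tn hW (hW.fs' (DfnF.proj 1)))))
          (NF.pow hW (NF.const hW 2) (NF.tn hW (DfnF.proj 0)))) (NF.const hW 2)) (NF.const hW 1)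

end Pool.Agent.H635.RG
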