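import Pool.Agent.H635.RF.Gdf

/-!
# Yorioka ideals in a transitive model: the definitions

`N` is a transitive class of sets and `nat n` is the natural number `n` as a set. The points of
`2^ω` are the sets `x : Set ℕ` with `stc x ∈ N`, where `stc x` is `x` as a set. A finite sequence
of zeros and ones is given by its length `l` and a finite set `t` of natural numbers, it is `1` at
`i < l` if and only if `i ∈ t`. It is an initial segment of `x` if and only if `x ∈ cyl (l, t)`.
-/

set_option autoImplicit false

namespace Pool.Agent.H635.RG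

open Pool.Agent.W868
open Pool.Agent.H635.RF (fnc stc cyl)
open ZFSet (pair)

/-- The sequence `σ` of finite sequences of zeros and ones as a set, the set of the
pairs `(m, (l, t))` with `σ m = (l, t)`. -/
noncomputable def sgc (σ : ℕ → ℕ × Finset ℕ) : ZFSet.{0} :=
  ZFSet.range fun m : ℕ => pair (nat m) (pair (nat (σ m).1) (stc {i | i ∈ (σ m).2}))

/-- The relation `x ≪ y`: for every `k`, `x (i ^ k) ≤ y i` for all but finitely many `i`. -/
def Ll (x y : ℕ → ℕ) : Prop := ∀ k : ℕ, ∃ m : ℕ, ∀ i ≥ m, x (i ^ k) ≤ y i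

/-- The set of the points `x` such that infinitely many terms of `σ` are initial segments
of `x`. -/
def lims (σ : ℕ → ℕ × Finset ℕ) : Set (Set ℕ) := {x | ∀ m₀ : ℕ, ∃ m ≥ m₀, x ∈ cyl (σ m)}

/-- In `N`, the set `A` of points belongs to the Yorioka ideal of `f`: there is a sequence `σ`
in `N` whose lengths satisfy `f ≪ ht_σ` and `A` is contained in `[σ]_∞`. -/
def InY (N : Set ZFSet.{0}) (f : ℕ → ℕ) (A : Set (Set ℕ)) : Prop :=
  ∃ σ : ℕ → ℕ × Finset ℕ, sgc σ ∈ N ∧ Ll f (fun m => (σ m).1) ∧ A ⊆ lims σ

/-- The member with index `k` of the family of sets of points given by the set `F` of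
pairs `(k, x)`. -/
def sct (F k : ZFSet.{0}) : Set (Set ℕ) := {x | pair k (stc x) ∈ F}

/-- In `N`, the additivity of the Yorioka ideal of `f` is at most the cardinality of `K`: there
is a family in `N`, indexed by `K`, of members of the ideal whose union is not in the ideal. -/
def AddLe (N : Set ZFSet.{0}) (f : ℕ → ℕ) (K : ZFSet.{0}) : Prop :=
  ∃ F ∈ N, (∀ k ∈ K, InY N f (sct F k)) ∧ ¬ InY N f (⋃ k ∈ K, sct F k)

end Pool.Agent.H635.RG
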