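import Pool.Agent.H635.RG.Bt
import Pool.Agent.H635.RF.Sc

/-!
# codes for a family
-/

set_option autoImplicit false
set_option linter.unreachableTactic false
set_option linter.unusedTactic false
set_option linter.unusedSectionVars false
set_option linter.unusedVariables false

namespace Pool.Agent.H635.RG

open Pool.Agent.W868 Pool.Agent.W868.GM Pool.Agent.Y588
open Pool.Agent.H635.RB (Fi dfn_fi fin_mem nat_mem_iff mem_nat nat_sub)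
open ZFSet (pair)
open Pool.Agent.H635.RF (fnc stc cyl ap_fnc fnc_mem_of mem_stc nat_mem_stc)

/-- The string number `m` of the code `s`. -/
noncomputable def sgs (s : ZFSet.{0}) (m : ℕ) : ℕ × Finset ℕ :=
  ((Nat.unpair (tn (ap s (nat m)))).1, bts (Nat.unpair (tn (ap s (nat m)))).2)

/-- The code `s` is good for the section `k` of `F`. -/
def Gdc (N : Set ZFSet.{0}) (f : ℕ → ℕ) (F k s : ZFSet.{0}) : Prop :=
  Ll f (fun m => (sgs s m).1) ∧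
  ∀ u ∈ pwM N ZFSet.omega, pair k u ∈ F → {i | nat i ∈ u} ∈ lims (sgs s)

theorem dfn_lims_sgs {W : Set ZFSet.{0}} (hW : IsZF W) :
    Dfn W W fun w : Fin 2 → ZFSet.{0} => {i | nat i ∈ w 0} ∈ lims (sgs (w 1)) := by
  have h1 : Dfn W W fun w : Fin 2 → ZFSet.{0} => ∀ m₀ : ℕ, ∃ m : ℕ, m₀ ≤ m ∧
      ∀ i : ℕ, i < (Nat.unpair (tn (ap (w 1) (nat m)))).1 →
        (nat i ∈ w 0 ↔ (Nat.unpair (tn (ap (w 1) (nat m)))).2 / 2 ^ i % 2 = 1) := by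
    refine Dfn.alln hW (Q := fun m₀ w => ∃ m : ℕ, m₀ ≤ m ∧
      ∀ i : ℕ, i < (Nat.unpair (tn (ap (w 1) (nat m)))).1 →
        (nat i ∈ w 0 ↔ (Nat.unpair (tn (ap (w 1) (nat m)))).2 / 2 ^ i % 2 = 1)) ?_
    refine Dfn.exn hW (Q := fun m w => tn (w 0) ≤ m ∧
      ∀ i : ℕ, i < (Nat.unpair (tn (ap (w 2) (nat m)))).1 →
        (nat i ∈ w 1 ↔ (Nat.unpair (tn (ap (w 2) (nat m)))).2 / 2 ^ i % 2 = 1)) ?_
    refine Dfn.and (Dfn.len (NF.tn hW (DfnF.proj 1)) (NF.tn hW (DfnF.proj 0))) ?_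
    refine Dfn.alln hW (Q := fun i w => i < (Nat.unpair (tn (ap (w 3) (nat (tn (w 0)))))).1 →
        (nat i ∈ w 2 ↔ (Nat.unpair (tn (ap (w 3) (nat (tn (w 0)))))).2 / 2 ^ i % 2 = 1)) ?_
    have ha : NF W fun w : Fin 5 → ZFSet.{0} => tn (ap (w 4) (nat (tn (w 1)))) :=
      NF.ap hW (DfnF.proj 4) (NF.tn hW (DfnF.proj 1))
    have hi : NF W fun w : Fin 5 → ZFSet.{0} => tn (w 0) := NF.tn hW (DfnF.proj 0)
    refine Dfn.imp (Dfn.ltn hi (NF.fst hW ha)) (Dfn.iff (Dfn.mem hi (DfnF.proj 3)) ?_)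
    exact Dfn.eqn (NF.mod hW (NF.div hW (NF.snd hW ha) (NF.pow hW (NF.const hW 2) hi))
      (NF.const hW 2)) (NF.const hW 1)
  refine h1.congr fun w _ => ?_
  unfold lims cyl sgs
  constructor
  · intro h m₀
    obtain ⟨m, hm, h2⟩ := h m₀
    refine ⟨m, hm, fun i hi => ?_⟩
    rw [mem_bts]
    exact h2 i hi
  · intro h m₀
    obtain ⟨m, hm, h2⟩ := h m₀
    refine ⟨m, hm, fun i hi => ?_⟩
    rw [← mem_bts]
    exact h2 i hi

theorem dfn_Gdc {W : Set ZFSet.{0}} (hW : IsZF W) {f : ℕ → ℕ} (hf : fnc f ∈ W)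
    {F : ZFSet.{0}} (hF : F ∈ W) :
    Dfn W W fun w : Fin 2 → ZFSet.{0} => Gdc W f F (w 0) (w 1) := by
  have hB := hW.base
  refine Dfn.and ?_ ?_
  · refine Dfn.alln hW (Q := fun k w => ∃ m : ℕ, ∀ i : ℕ, i ≥ m →
      f (i ^ k) ≤ (Nat.unpair (tn (ap (w 1) (nat i)))).1) ?_
    refine Dfn.exn hW (Q := fun m w => ∀ i : ℕ, i ≥ m →
      f (i ^ tn (w 0)) ≤ (Nat.unpair (tn (ap (w 2) (nat i)))).1) ?_
    refine Dfn.alln hW (Q := fun i w => i ≥ tn (w 0) →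
      f (i ^ tn (w 1)) ≤ (Nat.unpair (tn (ap (w 3) (nat i)))).1) ?_
    have hi : NF W fun w : Fin 5 → ZFSet.{0} => tn (w 0) := NF.tn hW (DfnF.proj 0)
    refine Dfn.imp (Dfn.len (NF.tn hW (DfnF.proj 1)) hi) ?_
    exact Dfn.len (NF.app hW hf (NF.pow hW hi (NF.tn hW (DfnF.proj 2))))
      (NF.fst hW (NF.ap hW (DfnF.proj 4) hi))
  · refine hB.ball (Q := fun u w => pair (w 0) u ∈ F → {i | nat i ∈ u} ∈ lims (sgs (w 1)))
      (DfnF.const (pwM_mem hW hW.infinity)) ?_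
    refine Dfn.imp (Dfn.mem (hB.pair' (DfnF.proj 1) (DfnF.proj 0)) (DfnF.const hF)) ?_
    exact Dfn.comp2 (Q := fun a b => {i | nat i ∈ a} ∈ lims (sgs b)) (dfn_lims_sgs hW)
      (DfnF.proj 0) (DfnF.proj 2)

theorem tn_ap_fnc (x : ℕ → ℕ) (m : ℕ) : tn (ap (fnc x) (nat m)) = x m := by
  rw [ap_fnc, tn_nat]

theorem sgs_cs (σ : ℕ → ℕ × Finset ℕ) : sgs (fnc (cs σ)) = σ := by
  funext m
  unfold sgs
  rw [tn_ap_fnc]
  unfold cs
  rw [Nat.unpair_pair]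
  show ((σ m).1, bts (bc (σ m).2)) = σ m
  rw [bts_bc]

theorem cs_sgs (x : ℕ → ℕ) (i : ℕ) : cs (sgs (fnc x)) i = x i := by
  unfold cs sgs
  rw [tn_ap_fnc]
  show Nat.pair (Nat.unpair (x i)).1 (bc (bts (Nat.unpair (x i)).2)) = x i
  rw [bc_bts, Nat.pair_unpair]

theorem exists_Gdc {N : Set ZFSet.{0}} (hN : IsZF N) {f : ℕ → ℕ} {F k : ZFSet.{0}}
    (h : InY N f (sct F k)) : ∃ s ∈ fnX N ZFSet.omega, Gdc N f F k s := by
  obtain ⟨σ, h1, h2, h3⟩ := h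
  refine ⟨fnc (cs σ), Pool.Agent.H635.RF.fnc_fnX ((sgc_iff hN σ).1 h1), ?_, ?_⟩
  · rw [sgs_cs]
    exact h2
  · intro u hu hku
    rw [sgs_cs]
    apply h3
    show pair k (stc {i | nat i ∈ u}) ∈ F
    have h4 : stc {i | nat i ∈ u} = u := by
      ext z
      rw [mem_stc]
      constructor
      · rintro ⟨i, hi, rfl⟩
        exact hi
      · intro hz
        obtain ⟨i, rfl⟩ := mem_omega_iff.1 ((mem_pwM.1 hu).2 hz)
        exact ⟨i, hz, rfl⟩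
    rwa [h4]

theorem exists_codes {N : Set ZFSet.{0}} (hN : IsZFC N) {f : ℕ → ℕ} (hf : fnc f ∈ N)
    {K F : ZFSet.{0}} (hK : K ∈ N) (hF : F ∈ N) (h : ∀ k ∈ K, InY N f (sct F k)) :
    ∃ X ∈ N, ∃ σ : ZFSet.{0} → ℕ → ℕ × Finset ℕ,
      (∀ k ∈ K, Ll f (fun m => (σ k m).1) ∧ sct F k ⊆ lims (σ k)) ∧
      X ⊆ ZFSet.prod (ZFSet.prod K ZFSet.omega) ZFSet.omega ∧
      ∀ k ∈ K, ∀ i v : ℕ, pair (pair k (nat i)) (nat v) ∈ X ↔ v = cs (σ k) i := by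
  have hM : IsZF N := hN.toIsZF
  have hB := hM.base
  have ho := hM.infinity
  have hX := fnX_mem hM ho
  set T : ZFSet.{0} → ZFSet.{0} := fun k =>
    im (fun s => pair k s) (ZFSet.sep (fun s => Gdc N f F k s) (fnX N ZFSet.omega)) with hT
  have hTd : DfnF N N fun w : Fin 1 → ZFSet.{0} => T (w 0) := by
    refine hM.im' (F := fun w : Fin 1 → ZFSet.{0} =>
      ZFSet.sep (fun s => Gdc N f F (w 0) s) (fnX N ZFSet.omega))
      (h := fun s w => pair (w 0) s) ?_ ?_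
    · refine hM.sep' (Q := fun s w => Gdc N f F (w 0) s) (DfnF.const hX) ?_
      exact Dfn.comp2 (Q := Gdc N f F) (dfn_Gdc hM hf hF) (DfnF.proj 1) (DfnF.proj 0)
    · exact hB.pair' (DfnF.proj 1) (DfnF.proj 0)
  have memT : ∀ k z, z ∈ T k ↔ ∃ s ∈ fnX N ZFSet.omega, Gdc N f F k s ∧ z = pair k s := by
    intro k z
    rw [hT]
    simp only [mem_im, ZFSet.mem_sep]
    constructor
    · rintro ⟨s, ⟨h1, h2⟩, h3⟩
      exact ⟨s, h1, h2, h3⟩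
    · rintro ⟨s, h1, h2, h3⟩
      exact ⟨s, ⟨h1, h2⟩, h3⟩
  have hxM : im T K ∈ N := hM.im_mem hK hTd
  obtain ⟨c, hc, hc1⟩ := hN.choice (im T K) hxM (by
    intro y hy
    obtain ⟨k, hk, rfl⟩ := mem_im.1 hy
    obtain ⟨s, h1, h2⟩ := exists_Gdc hM (h k hk)
    exact ⟨pair k s, (memT _ _).2 ⟨s, h1, h2, rfl⟩⟩) (by
    intro y hy y' hy' z hz hz'
    obtain ⟨k, hk, rfl⟩ := mem_im.1 hy
    obtain ⟨k', hk', rfl⟩ := mem_im.1 hy'
    obtain ⟨s, -, -, h1⟩ := (memT _ _).1 hz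
    obtain ⟨s', -, -, h2⟩ := (memT _ _).1 hz'
    rw [(ZFSet.pair_inj.1 (h1.symm.trans h2)).1])
  have key : ∀ k ∈ K, ∃ x : ℕ → ℕ, Gdc N f F k (fnc x) ∧ fnc x ∈ fnX N ZFSet.omega ∧
      pair k (fnc x) ∈ c ∧
      ∀ s ∈ fnX N ZFSet.omega, Gdc N f F k s → pair k s ∈ c → s = fnc x := by
    intro k hk
    obtain ⟨z, ⟨h1, h2⟩, h3⟩ := hc1 (T k) (mem_im.2 ⟨k, hk, rfl⟩)
    obtain ⟨s, h4, h5, rfl⟩ := (memT _ _).1 h1
    obtain ⟨x, rfl⟩ := Pool.Agent.H635.RF.fnX_fnc h4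
    refine ⟨x, h5, h4, h2, fun s hs h6 h7 => ?_⟩
    exact (ZFSet.pair_inj.1 (h3 (pair k s) ⟨(memT _ _).2 ⟨s, hs, h6, rfl⟩, h7⟩)).2
  choose! x hx1 hx2 hx3 hx4 using key
  set X : ZFSet.{0} := ZFSet.sep (fun z => ∃ s ∈ fnX N ZFSet.omega,
    Gdc N f F (fs (fs z)) s ∧ pair (fs (fs z)) s ∈ c ∧ pair (sn (fs z)) (sn z) ∈ s)
    (ZFSet.prod (ZFSet.prod K ZFSet.omega) ZFSet.omega) with hXd
  refine ⟨X, ?_, fun k => sgs (fnc (x k)), ?_, ?_, ?_⟩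
  · refine hM.sep_mem (Q := fun z => ∃ s ∈ fnX N ZFSet.omega,
      Gdc N f F (fs (fs z)) s ∧ pair (fs (fs z)) s ∈ c ∧ pair (sn (fs z)) (sn z) ∈ s) ?_
      (hM.prod_mem (hM.prod_mem hK ho) ho)
    refine hB.bex (Q := fun s w => Gdc N f F (fs (fs (w 0))) s ∧ pair (fs (fs (w 0))) s ∈ c ∧
      pair (sn (fs (w 0))) (sn (w 0)) ∈ s) (DfnF.const hX) ?_
    have hff : DfnF N N fun w : Fin 2 → ZFSet.{0} => fs (fs (w 1)) :=
      hM.fs' (hM.fs' (DfnF.proj 1))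
    refine Dfn.and ?_ (Dfn.and ?_ ?_)
    · exact Dfn.comp2 (Q := Gdc N f F) (dfn_Gdc hM hf hF) hff (DfnF.proj 0)
    · exact Dfn.mem (hB.pair' hff (DfnF.proj 0)) (DfnF.const hc)
    · exact Dfn.mem (hB.pair' (hM.sn' (hM.fs' (DfnF.proj 1))) (hM.sn' (DfnF.proj 1)))
        (DfnF.proj 0)
  · intro k hk
    refine ⟨(hx1 k hk).1, fun y hy => ?_⟩
    have h1 : pair k (stc y) ∈ F := hy
    have h2 : stc y ∈ N := (hM.of_pair_mem (hM.trans _ hF _ h1)).2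
    have h3 : stc y ∈ pwM N ZFSet.omega := by
      refine mem_pwM.2 ⟨h2, fun z hz => ?_⟩
      obtain ⟨i, -, rfl⟩ := mem_stc.1 hz
      exact nat_mem_omega i
    have h4 := (hx1 k hk).2 (stc y) h3 h1
    have h5 : {i | nat i ∈ stc y} = y := by
      ext i
      exact nat_mem_stc
    rwa [h5] at h4
  · intro z hz
    exact (ZFSet.mem_sep.1 hz).1
  · intro k hk i v
    rw [cs_sgs, hXd, ZFSet.mem_sep]
    simp only [fs_pair, sn_pair, ZFSet.pair_mem_prod]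
    constructor
    · rintro ⟨-, s, hs, h1, h2, h3⟩
      rw [hx4 k hk s hs h1 h2] at h3
      exact Pool.Agent.H635.RF.pair_mem_fnc.1 h3
    · intro h1
      exact ⟨⟨⟨hk, nat_mem_omega i⟩, nat_mem_omega v⟩, fnc (x k), hx2 k hk, hx1 k hk, hx3 k hk,
        Pool.Agent.H635.RF.pair_mem_fnc.2 h1⟩

end Pool.Agent.H635.RG
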