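import Pool.Agent.H635.RG.Bt
import Pool.Agent.H635.RG.Ar

/-!
# the sets of the family
-/

set_option autoImplicit false
set_option linter.unreachableTactic false
set_option linter.unusedTactic false
set_option linter.unusedSectionVars false
set_option linter.unusedVariables false

namespace Pool.Agent.H635.RG

open Pool.Agent.W868 Pool.Agent.W868.GM Pool.Agent.Y588
open Pool.Agent.H635.RB (Fi dfn_fi fin_mem nat_mem_iff mem_nat nat_sub)
open ZFSet (pair)
open Pool.Agent.H635.RF (fnc stc cyl ap_fnc fnc_mem_of mem_stc nat_mem_stc)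

/-- The point of the function `x`. -/
def ptx (x : ℕ → ℕ) : Set ℕ := {i | ∃ n, av n ≤ i ∧ i < av n + dv n ∧ i ∈ bts (2 ^ av n * x n)}

/-- A definable set of natural numbers is in the model. -/
theorem stc_mem_of {W : Set ZFSet.{0}} (hW : IsZF W) {Q : ℕ → Prop}
    (hQ : Dfn W W fun w : Fin 1 → ZFSet.{0} => Q (tn (w 0))) : stc {i | Q i} ∈ W := by
  have h1 : stc {i | Q i} = ZFSet.sep (fun z => Q (tn z)) ZFSet.omega := by
    ext z
    rw [mem_stc, ZFSet.mem_sep]
    constructor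
    · rintro ⟨i, hi, rfl⟩
      exact ⟨nat_mem_omega i, by rw [tn_nat]; exact hi⟩
    · rintro ⟨h2, h3⟩
      obtain ⟨i, rfl⟩ := mem_omega_iff.1 h2
      rw [tn_nat] at h3
      exact ⟨i, h3, rfl⟩
  rw [h1]
  exact hW.sep_mem (Q := fun z => Q (tn z)) hQ hW.infinity

theorem stc_ptx {W : Set ZFSet.{0}} (hW : IsZF W) {x : ℕ → ℕ} (hx : fnc x ∈ W) :
    stc (ptx x) ∈ W := by
  refine stc_mem_of hW (Q := fun i => ∃ n, av n ≤ i ∧ i < av n + dv n ∧
    i ∈ bts (2 ^ av n * x n)) ?_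
  refine Dfn.exn hW (Q := fun n w => av n ≤ tn (w 0) ∧ tn (w 0) < av n + dv n ∧
    tn (w 0) ∈ bts (2 ^ av n * x n)) ?_
  have h0 : NF W fun w : Fin 2 → ZFSet.{0} => tn (w 0) := NF.tn hW (DfnF.proj 0)
  have h1 : NF W fun w : Fin 2 → ZFSet.{0} => tn (w 1) := NF.tn hW (DfnF.proj 1)
  refine Dfn.and (Dfn.len (NF.av hW h0) h1) (Dfn.and
    (Dfn.ltn h1 (NF.add hW (NF.av hW h0) (NF.dv hW h0))) ?_)
  refine (Dfn.eqn (f := fun w : Fin 2 → ZFSet.{0} =>
    2 ^ av (tn (w 0)) * x (tn (w 0)) / 2 ^ tn (w 1) % 2) (g := fun _ => 1) ?_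
    (NF.const hW 1)).congr fun v _ => mem_bts.symm
  exact NF.mod hW (NF.div hW (NF.mul hW (NF.pow hW (NF.const hW 2) (NF.av hW h0))
    (NF.app hW hx h0)) (NF.pow hW (NF.const hW 2) h1)) (NF.const hW 2)

/-! ### The bits -/

/-- The number with the digits `z j` at the levels `av j` for `j < n`. -/
def uz (z : ℕ → ℕ) : ℕ → ℕ
  | 0 => 0
  | n + 1 => uz z n + 2 ^ av n * z n

theorem uz_lt {z : ℕ → ℕ} (hz : ∀ n, z n < Dv n) (n : ℕ) : uz z n < 2 ^ av n := by
  induction n with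
  | zero => exact Nat.two_pow_pos _
  | succ n ih =>
    have h1 : z n + 1 ≤ 2 ^ dv n := hz n
    have h2 : 2 ^ av n * (z n + 1) ≤ 2 ^ av n * 2 ^ dv n := Nat.mul_le_mul_left _ h1
    have h3 : 2 ^ (av n + dv n) ≤ 2 ^ av (n + 1) :=
      Nat.pow_le_pow_right (by norm_num) (av_lt n).le
    rw [← pow_add] at h2
    change uz z n + 2 ^ av n * z n < _
    rw [Nat.mul_succ] at h2
    omega

theorem mem_bts' {c j : ℕ} : j ∈ bts c ↔ c.testBit j = true := by
  rw [mem_bts, Nat.testBit_eq_decide_div_mod_eq, decide_eq_true_iff]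

theorem mem_ptx {z : ℕ → ℕ} (hz : ∀ n, z n < Dv n) (n : ℕ) :
    ∀ j < av n, (j ∈ ptx z ↔ (uz z n).testBit j = true) := by
  induction n with
  | zero => intro j hj; exact absurd hj (Nat.not_lt_zero j)
  | succ n ih =>
    intro j hj
    have h1 : uz z (n + 1) = 2 ^ av n * z n + uz z n := Nat.add_comm _ _
    rw [h1, Nat.testBit_two_pow_mul_add _ (uz_lt hz n)]
    by_cases h2 : j < av n
    · rw [if_pos h2]
      exact ih j h2
    · rw [if_neg h2]
      have h3 : av n ≤ j := not_lt.1 h2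
      constructor
      · rintro ⟨m, h4, h5, h6⟩
        have h7 : m = n := by
          rcases lt_trichotomy m n with h | h | h
          · have h8 := av_lt m
            have h9 := av_mono (show m + 1 ≤ n from h)
            omega
          · exact h
          · have h9 := av_mono (show n + 1 ≤ m from h)
            omega
        subst h7
        rw [mem_bts', Nat.testBit_two_pow_mul] at h6
        exact (Bool.and_eq_true _ _ ▸ h6).2
      · intro h4
        refine ⟨n, h3, ?_, ?_⟩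
        · by_contra h5
          have h6 : z n < 2 ^ (j - av n) :=
            (hz n).trans_le (Nat.pow_le_pow_right (by norm_num) (by omega))
          rw [Nat.testBit_lt_two_pow h6] at h4
          exact Bool.noConfusion h4
        · rw [mem_bts', Nat.testBit_two_pow_mul, h4, decide_eq_true h3]
          rfl

theorem le_av (n : ℕ) : n ≤ av n := by
  induction n with
  | zero => exact Nat.zero_le _
  | succ n ih =>
    have := av_lt n
    omega

theorem iy_eq {n i : ℕ} (h1 : 2 ^ av n ≤ i) (h2 : i < 2 ^ (av n + 1)) : iy i = n := by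
  refine le_antisymm (Nat.sInf_le h2) ?_
  have h3 : i < 2 ^ (av (iy i) + 1) := Nat.sInf_mem (s := {n | i < 2 ^ (av n + 1)}) ⟨n, h2⟩
  by_contra h4
  have h5 := av_lt (iy i)
  have h6 := av_mono (show iy i + 1 ≤ n by omega)
  have h7 : 2 ^ (av (iy i) + 1) ≤ 2 ^ av n := Nat.pow_le_pow_right (by norm_num) (by omega)
  omega

/-- If `z` agrees with `x` at infinitely many places, then the point of `z` is in the set
of `x`. -/
theorem ptx_mem {x z : ℕ → ℕ} (hx : ∀ n, x n < Dv n) (hz : ∀ n, z n < Dv n)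
    (h : ∀ n₀, ∃ n ≥ n₀, z n = x n) : ptx z ∈ lims (sgx x) := by
  intro m₀
  obtain ⟨n, hn, hzx⟩ := h m₀
  have hu := uz_lt hz n
  have hi : iy (2 ^ av n + uz z n) = n := by
    refine iy_eq (Nat.le_add_right _ _) ?_
    rw [pow_succ]
    omega
  refine ⟨2 ^ av n + uz z n, ?_, ?_⟩
  · have h1 := le_av n
    have h2 : av n < 2 ^ av n := Nat.lt_two_pow_self
    omega
  · have h3 : sgx x (2 ^ av n + uz z n) = (av (n + 1), bts (uz z (n + 1))) := by
      unfold sgx
      rw [hi, if_pos (Nat.le_add_right _ _), Nat.add_sub_cancel_left, ← hzx]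
      rfl
    rw [h3]
    intro j hj
    rw [mem_ptx hz (n + 1) j hj]
    exact mem_bts'.symm

/-! ### Definability -/

section

variable {W : Set ZFSet.{0}} (hW : IsZF W) {k : ℕ} {f : (Fin k → ZFSet.{0}) → ℕ}

include hW

theorem NF.iy (hf : NF W f) : NF W fun v => iy (f v) := by
  refine NF.inf hW (Q := fun n v => f v < 2 ^ (Pool.Agent.H635.RG.av n + 1)) ?_
  exact Dfn.ltn (NF.tail hW hf) (NF.pow hW (NF.const hW 2)
    (NF.succ hW (NF.av hW (NF.tn hW (DfnF.proj 0)))))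

theorem NF.csx (hf : NF W f) {X : (Fin k → ZFSet.{0}) → ℕ → ℕ}
    (hX : NF W fun v => X v (Pool.Agent.H635.RG.iy (f v))) :
    NF W fun v => cs (sgx (X v)) (f v) := by
  have h1 := NF.iy hW hf
  have h2 : NF W fun v => 2 ^ Pool.Agent.H635.RG.av (Pool.Agent.H635.RG.iy (f v)) :=
    NF.pow hW (NF.const hW 2) (NF.av hW h1)
  have h3 : NF W fun v => Nat.pair
      (Pool.Agent.H635.RG.av (Pool.Agent.H635.RG.iy (f v) + 1))
      (f v - 2 ^ Pool.Agent.H635.RG.av (Pool.Agent.H635.RG.iy (f v)) +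
        2 ^ Pool.Agent.H635.RG.av (Pool.Agent.H635.RG.iy (f v)) *
          X v (Pool.Agent.H635.RG.iy (f v))) :=
    NF.pair hW (NF.av hW (NF.succ hW h1)) (NF.add hW (NF.sub hW hf h2) (NF.mul hW h2 hX))
  have h4 : NF W fun v => Nat.pair (Pool.Agent.H635.RG.ff (f v ^ f v)) 0 :=
    NF.pair hW (NF.ff hW (NF.pow hW hf hf)) (NF.const hW 0)
  refine NF.congr hW (NF.ite hW (Dfn.len h2 hf) h3 h4) fun v _ => ?_
  unfold cs sgx
  by_cases h : 2 ^ Pool.Agent.H635.RG.av (Pool.Agent.H635.RG.iy (f v)) ≤ f v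
  · rw [if_pos h, if_pos h, bc_bts]
  · rw [if_neg h, if_neg h]
    rfl

end

theorem sgx_mem {W : Set ZFSet.{0}} (hW : IsZF W) {x : ℕ → ℕ} (hx : fnc x ∈ W) :
    sgc (sgx x) ∈ W := by
  rw [sgc_iff hW]
  have h0 : NF W fun w : Fin 1 → ZFSet.{0} => tn (w 0) := NF.tn hW (DfnF.proj 0)
  exact fnc_mem hW (NF.csx hW h0 (X := fun _ => x) (NF.app hW hx (NF.iy hW h0)))

/-- The relation between the code of a function and the code of a point. -/
theorem dfn_lims {W : Set ZFSet.{0}} (hW : IsZF W) {k : ℕ}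
    {F U : (Fin k → ZFSet.{0}) → ZFSet.{0}} (hF : DfnF W W F) (hU : DfnF W W U) :
    Dfn W W fun v => {i | nat i ∈ U v} ∈ lims (sgx fun n => tn (ap (F v) (nat n))) := by
  have h1 : Dfn W W fun v : Fin k → ZFSet.{0} => ∀ m₀ : ℕ, ∃ m : ℕ, m₀ ≤ m ∧ ∀ i : ℕ,
      i < (Nat.unpair (cs (sgx fun n => tn (ap (F v) (nat n))) m)).1 →
      (nat i ∈ U v ↔
        (Nat.unpair (cs (sgx fun n => tn (ap (F v) (nat n))) m)).2 / 2 ^ i % 2 = 1) := by
    refine Dfn.alln hW (Q := fun m₀ v => ∃ m : ℕ, m₀ ≤ m ∧ ∀ i : ℕ,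
      i < (Nat.unpair (cs (sgx fun n => tn (ap (F v) (nat n))) m)).1 →
      (nat i ∈ U v ↔
        (Nat.unpair (cs (sgx fun n => tn (ap (F v) (nat n))) m)).2 / 2 ^ i % 2 = 1)) ?_
    refine Dfn.exn hW (Q := fun m w => tn (w 0) ≤ m ∧ ∀ i : ℕ,
      i < (Nat.unpair (cs (sgx fun n => tn (ap (F (Fin.tail w)) (nat n))) m)).1 →
      (nat i ∈ U (Fin.tail w) ↔
        (Nat.unpair (cs (sgx fun n => tn (ap (F (Fin.tail w)) (nat n))) m)).2 /
          2 ^ i % 2 = 1)) ?_
    refine Dfn.and (Dfn.len (NF.tn hW (DfnF.proj 1)) (NF.tn hW (DfnF.proj 0))) ?_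
    refine Dfn.alln hW (Q := fun i w =>
      i < (Nat.unpair (cs (sgx fun n => tn (ap (F (Fin.tail (Fin.tail w))) (nat n)))
        (tn (w 0)))).1 →
      (nat i ∈ U (Fin.tail (Fin.tail w)) ↔
        (Nat.unpair (cs (sgx fun n => tn (ap (F (Fin.tail (Fin.tail w))) (nat n)))
          (tn (w 0)))).2 / 2 ^ i % 2 = 1)) ?_
    have h0 : NF W fun w : Fin (k + 3) → ZFSet.{0} => tn (w 0) := NF.tn hW (DfnF.proj 0)
    have h2 : NF W fun w : Fin (k + 3) → ZFSet.{0} => tn (w 1) := NF.tn hW (DfnF.proj 1)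
    have h3 : NF W fun w : Fin (k + 3) → ZFSet.{0} =>
        cs (sgx fun n => tn (ap (F (Fin.tail (Fin.tail (Fin.tail w)))) (nat n))) (tn (w 1)) :=
      NF.csx hW h2 (X := fun w n => tn (ap (F (Fin.tail (Fin.tail (Fin.tail w)))) (nat n)))
        (NF.ap hW hF.tail.tail.tail (NF.iy hW h2))
    refine Dfn.imp (Dfn.ltn h0 (NF.fst hW h3)) (Dfn.iff ?_ (Dfn.eqn (NF.mod hW (NF.div hW
      (NF.snd hW h3) (NF.pow hW (NF.const hW 2) h0)) (NF.const hW 2)) (NF.const hW 1)))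
    exact Dfn.mem h0 hU.tail.tail.tail
  refine h1.congr fun v _ => ?_
  have h2 : ∀ m, Nat.unpair (cs (sgx fun n => tn (ap (F v) (nat n))) m) =
      ((sgx (fun n => tn (ap (F v) (nat n))) m).1,
        bc (sgx (fun n => tn (ap (F v) (nat n))) m).2) := fun m => Nat.unpair_pair _ _
  constructor
  · intro h m₀
    obtain ⟨m, h3, h4⟩ := h m₀
    rw [h2] at h4
    refine ⟨m, h3, fun i hi => ?_⟩
    refine (h4 i hi).trans ?_
    rw [← mem_bts, bts_bc]
  · intro h m₀
    obtain ⟨m, h3, h4⟩ := h m₀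
    refine ⟨m, h3, fun i hi => ?_⟩
    rw [h2] at hi ⊢
    refine (h4 i hi).trans ?_
    rw [← mem_bts, bts_bc]

end Pool.Agent.H635.RG
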