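import Pool.Agent.H635.RG.St

/-!
# The iteration: generic filters
-/

set_option autoImplicit false
set_option linter.unreachableTactic false
set_option linter.unusedTactic false
set_option linter.unusedSectionVars false
set_option linter.unusedVariables false

namespace Pool.Agent.H635.RG

open Pool.Agent.W868 Pool.Agent.W868.GM Pool.Agent.Y588
open Pool.Agent.H635.RB (Fi dfn_fi fin_mem nat_mem_iff mem_nat)
open ZFSet (pair)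

variable {M : Set ZFSet.{0}} {π : Par}

theorem le_self_rs (p β : ZFSet.{0}) : Le M π p (rs p β) := by
  refine ⟨rs_sub, fun γ t s m e h1 h2 h3 => ?_⟩
  exact absurd (sa_mem_rs.2 ⟨h2, (pa_mem_rs.1 h1).2⟩) h3

/-- The part of a filter in the iteration of length `β`. -/
noncomputable def Gb (M : Set ZFSet.{0}) (π : Par) (G β : ZFSet.{0}) : ZFSet.{0} :=
  ZFSet.sep (fun p => p ∈ PP M π β) G

theorem mem_Gb {G β p : ZFSet.{0}} : p ∈ Gb M π G β ↔ p ∈ G ∧ p ∈ PP M π β := ZFSet.mem_sep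

section

variable (hM : IsZF M) (hπ : POk M π) {κ G : ZFSet.{0}} (hκM : κ ∈ M) (hκ : κ.IsOrdinal)
  (hG : IsGeneric M (PP M π κ) (LL M π κ) G)

include hM hπ hκM hκ hG

theorem gen_up {p q : ZFSet.{0}} (hq : q ∈ G) (hp : p ∈ PP M π κ) (h : Le M π q p) : p ∈ G :=
  hG.up q hq p hp (mem_LL.2 ⟨hG.sub hq, hp, h⟩)

theorem gen_dir {p q : ZFSet.{0}} (hp : p ∈ G) (hq : q ∈ G) :
    ∃ r ∈ G, Le M π r p ∧ Le M π r q := by
  obtain ⟨r, h1, h2, h3⟩ := hG.dir p hp q hq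
  exact ⟨r, h1, (mem_LL.1 h2).2.2, (mem_LL.1 h3).2.2⟩

theorem empty_gen : (∅ : ZFSet.{0}) ∈ G := by
  obtain ⟨p, hp⟩ := hG.nonempty
  exact gen_up hM hπ hκM hκ hG hp (empty_mem_PP hM κ) (le_empty p)

theorem rs_gen {β p : ZFSet.{0}} (hβ : β.IsOrdinal) (hβκ : β ⊆ κ) (hp : p ∈ G) :
    rs p β ∈ Gb M π G β := by
  have h1 := rs_mem (π := π) hM hβ (hG.sub hp)
  exact mem_Gb.2 ⟨gen_up hM hπ hκM hκ hG hp (PP_mono hβκ h1) (le_self_rs p β), h1⟩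

/-- Density, in terms of the order. -/
theorem dense_gen {Q : ZFSet.{0} → Prop} (hQ : Dfn M M fun w : Fin 1 → ZFSet.{0} => Q (w 0))
    (h : ∀ q ∈ PP M π κ, ∃ r ∈ PP M π κ, Le M π r q ∧ Q r) : ∃ r ∈ G, Q r := by
  refine gen_dense hM (isForcing_PP hM hπ hκM hκ) hG hQ fun q hq => ?_
  obtain ⟨r, h1, h2, h3⟩ := h q hq
  exact ⟨r, h1, mem_LL.2 ⟨h1, hq, h2⟩, h3⟩

theorem below_gen {Q : ZFSet.{0} → Prop} (hQ : Dfn M M fun w : Fin 1 → ZFSet.{0} => Q (w 0))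
    {p : ZFSet.{0}} (hp : p ∈ G)
    (h : ∀ q ∈ PP M π κ, Le M π q p → ∃ r ∈ PP M π κ, Le M π r q ∧ Q r) :
    ∃ r ∈ G, Le M π r p ∧ Q r := by
  obtain ⟨r, h1, h2, h3⟩ := gen_below hM (isForcing_PP hM hπ hκM hκ) hG hQ hp fun q hq hqp => by
    obtain ⟨r, h1, h2, h3⟩ := h q hq (mem_LL.1 hqp).2.2
    exact ⟨r, h1, mem_LL.2 ⟨h1, hq, h2⟩, h3⟩
  exact ⟨r, h1, (mem_LL.1 h2).2.2, h3⟩

theorem isGeneric_Gb {β : ZFSet.{0}} (hβM : β ∈ M) (hβ : β.IsOrdinal) (hβκ : β ⊆ κ) :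
    IsGeneric M (PP M π β) (LL M π β) (Gb M π G β) where
  sub p hp := (mem_Gb.1 hp).2
  nonempty := ⟨∅, mem_Gb.2 ⟨empty_gen hM hπ hκM hκ hG, empty_mem_PP hM β⟩⟩
  up q hq p hp h := mem_Gb.2 ⟨gen_up hM hπ hκM hκ hG (mem_Gb.1 hq).1 (PP_mono hβκ hp)
    (mem_LL.1 h).2.2, hp⟩
  dir p hp q hq := by
    obtain ⟨h1, h2⟩ := mem_Gb.1 hp
    obtain ⟨h3, h4⟩ := mem_Gb.1 hq
    obtain ⟨r, h5, h6, h7⟩ := gen_dir hM hπ hκM hκ hG h1 h3
    have h8 := rs_gen hM hπ hκM hκ hG hβ hβκ h5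
    have h9 := (mem_Gb.1 h8).2
    refine ⟨_, h8, mem_LL.2 ⟨h9, h2, ?_⟩, mem_LL.2 ⟨h9, h4, ?_⟩⟩
    · have := le_rs hβ h6
      rwa [(mem_PP.1 h2).ats.rs_eq] at this
    · have := le_rs hβ h7
      rwa [(mem_PP.1 h4).ats.rs_eq] at this
  meet D hD hDs hDd := by
    have hB := hM.base
    have hL := LL_mem hM hπ hκM
    have hd : Dfn M M fun w : Fin 1 → ZFSet.{0} => ∃ d ∈ D, pair (w 0) d ∈ LL M π κ := by
      refine hB.bex (Q := fun d w => pair (w 0) d ∈ LL M π κ) (DfnF.const hD) ?_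
      exact Dfn.mem (hB.pair' (DfnF.proj 1) (DfnF.proj 0)) (DfnF.const hL)
    obtain ⟨r, h1, d, h2, h3⟩ := dense_gen hM hπ hκM hκ hG
      (Q := fun p => ∃ d ∈ D, pair p d ∈ LL M π κ) hd (by
      intro q hq
      obtain ⟨d, h1, h2⟩ := hDd _ (rs_mem hM hβ hq)
      obtain ⟨h3, h4, h5⟩ := glue hM hκ hβ hβκ hq (hDs h1) (mem_LL.1 h2).2.2
      refine ⟨_, h3, h4, d, h1, mem_LL.2 ⟨h3, PP_mono hβκ (hDs h1), ?_⟩⟩
      have := le_self_rs (M := M) (π := π) (q ∪ d) β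
      rwa [h5] at this)
    exact ⟨d, h2, mem_Gb.2 ⟨gen_up hM hπ hκM hκ hG h1 (PP_mono hβκ (hDs h2)) (mem_LL.1 h3).2.2,
      hDs h2⟩⟩

omit hG in
theorem dfn_Db {β : ZFSet.{0}} (hβM : β ∈ M) {n : ℕ} {s r m v : (Fin n → ZFSet.{0}) → ZFSet.{0}}
    (hs : DfnF M M s) (hr : DfnF M M r) (hm : DfnF M M m) (hv : DfnF M M v) :
    Dfn M M fun w => Db M π β (s w) (r w) (m w) (v w) :=
  dfn_Dc hM (DfnF.const (PP_mem hM hπ hβM)) (DfnF.const (LL_mem hM hπ hβM)) hs hr hm hv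

theorem exists_val {β s : ZFSet.{0}} (hβM : β ∈ M) (hβ : β.IsOrdinal) (hβκ : β ⊆ κ)
    (hs : s ∈ Nm M π β) (n : ℕ) : ∃ v : ℕ, ∃ r ∈ Gb M π G β, Db M π β s r (nat n) (nat v) := by
  have hB := hM.base
  have hsM := (mem_Nm.1 hs).1
  have hd : Dfn M M fun w : Fin 1 → ZFSet.{0} => ∃ v ∈ ZFSet.omega,
      Db M π β s (w 0) (nat n) v := by
    refine hB.bex (Q := fun v w => Db M π β s (w 0) (nat n) v) (omega_dfn hM) ?_
    exact dfn_Db hM hπ hκM hκ hβM (DfnF.const hsM) (DfnF.proj 1) (DfnF.const (hM.nat_mem n))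
      (DfnF.proj 0)
  obtain ⟨r, h1, v, h2, h3⟩ := dense_gen hM hπ hβM hβ
    (isGeneric_Gb hM hπ hκM hκ hG hβM hβ hβκ) (Q := fun r => ∃ v ∈ ZFSet.omega,
      Db M π β s r (nat n) v) hd fun q hq => exists_dec hs hq (nat_mem_omega n)
  obtain ⟨k, rfl⟩ := mem_omega_iff.1 h2
  exact ⟨k, r, h1, h3⟩

omit hG in
open Classical in
/-- The value of the name `s` at `n`. -/
noncomputable def fv (M : Set ZFSet.{0}) (π : Par) (G β s : ZFSet.{0}) (n : ℕ) : ℕ :=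
  if h : ∃ v : ℕ, ∃ r ∈ Gb M π G β, Db M π β s r (nat n) (nat v) then h.choose else 0

theorem fv_spec {β s : ZFSet.{0}} (hβM : β ∈ M) (hβ : β.IsOrdinal) (hβκ : β ⊆ κ)
    (hs : s ∈ Nm M π β) (n : ℕ) :
    ∃ r ∈ Gb M π G β, Db M π β s r (nat n) (nat (fv M π G β s n)) := by
  have h := exists_val hM hπ hκM hκ hG hβM hβ hβκ hs n
  rw [fv, dif_pos h]
  exact h.choose_spec

theorem fv_eq {β s r : ZFSet.{0}} (hβM : β ∈ M) (hβ : β.IsOrdinal) (hβκ : β ⊆ κ)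
    (hs : s ∈ Nm M π β) {n v : ℕ} (hr : r ∈ Gb M π G β) (h : Db M π β s r (nat n) (nat v)) :
    fv M π G β s n = v := by
  obtain ⟨r', h1, h2⟩ := fv_spec hM hπ hκM hκ hG hβM hβ hβκ hs n
  have hg := isGeneric_Gb hM hπ hκM hκ hG hβM hβ hβκ
  obtain ⟨q, h3, h4, h5⟩ := gen_dir hM hπ hβM hβ hg h1 hr
  have h6 := Db.mono hM hβ (hg.sub h1) (hg.sub h3) h4 h2
  have h7 := Db.mono hM hβ (hg.sub hr) (hg.sub h3) h5 h
  exact nat_injective (Db.uniq hs (hg.sub h3) (nat_mem_omega n) (nat_mem_omega _)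
    (nat_mem_omega _) h6 h7)

/-- Deciding a value by a condition in the filter below a given one. -/
theorem fv_below {β s r : ZFSet.{0}} (hβM : β ∈ M) (hβ : β.IsOrdinal) (hβκ : β ⊆ κ)
    (hs : s ∈ Nm M π β) (n : ℕ) (hr : r ∈ Gb M π G β) :
    ∃ r' ∈ Gb M π G β, Le M π r' r ∧ Db M π β s r' (nat n) (nat (fv M π G β s n)) := by
  obtain ⟨r', h1, h2⟩ := fv_spec hM hπ hκM hκ hG hβM hβ hβκ hs n
  have hg := isGeneric_Gb hM hπ hκM hκ hG hβM hβ hβκ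
  obtain ⟨q, h3, h4, h5⟩ := gen_dir hM hπ hβM hβ hg h1 hr
  exact ⟨q, h3, h5, Db.mono hM hβ (hg.sub h1) (hg.sub h3) h4 h2⟩

theorem fv_of_Fb {β s r C e : ZFSet.{0}} (hβM : β ∈ M) (hβ : β.IsOrdinal) (hβκ : β ⊆ κ)
    (hs : s ∈ Nm M π β) {n : ℕ} (hr : r ∈ Gb M π G β) (h : Fb M π β C r s (nat n) e) :
    pair e (nat (fv M π G β s n)) ∈ C := by
  obtain ⟨q, h1, h2, h3⟩ := fv_below hM hπ hκM hκ hG hβM hβ hβκ hs n hr
  have hg := isGeneric_Gb hM hπ hκM hκ hG hβM hβ hβκ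
  exact Fb.dec hM hβ hs (hg.sub h1) (nat_mem_omega n) (nat_mem_omega _)
    (Fb.mono hM hβ (hg.sub hr) (hg.sub h1) h2 h) h3

variable (hx : PAx π)

include hx

/-- The generic stems are total. -/
theorem exists_ge {β t : ZFSet.{0}} (hβκ : β ∈ κ) (ht : t ∈ Tb M π β) (n : ℕ) :
    ∃ e, ∃ p ∈ G, sa β t (nat n) e ∈ p := by
  have hB := hM.base
  have hβM : β ∈ M := hM.trans _ hκM _ hβκ
  have htM := (Tb_mem hM ht).1
  have hd : Dfn M M fun w : Fin 1 → ZFSet.{0} => ∃ e ∈ π.E, sa β t (nat n) e ∈ w 0 := by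
    refine hB.bex (Q := fun e w => sa β t (nat n) e ∈ w 0) (DfnF.const hπ.E) ?_
    refine Dfn.mem ?_ (DfnF.proj 1)
    exact hB.pair' (hB.pair' (DfnF.const hβM) (DfnF.const htM))
      (hB.pair' (DfnF.const hM.empty_mem) (hB.pair' (DfnF.const (hM.nat_mem n)) (DfnF.proj 0)))
  obtain ⟨p, h1, e, h2, h3⟩ := dense_gen hM hπ hκM hκ hG
    (Q := fun p => ∃ e ∈ π.E, sa β t (nat n) e ∈ p) hd (by
    intro q hq
    obtain ⟨r, h1, h2, h3, -⟩ := ext_room hM hπ hx hκM hκ hβκ ht (n + 1) q hq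
    obtain ⟨e, he⟩ := (len_iff (mem_PP.1 h1) (β := β) (t := t) (m := nat n)).2
      (nat_mem_iff.2 (by omega))
    exact ⟨r, h1, h2, e, ((mem_PP.1 h1).ats.sa he).2.2.2, he⟩)
  exact ⟨e, p, h1, h3⟩

omit hG hx hκM hκ hM hπ in
open Classical in
/-- The generic object at the coordinate `(β, t)`. -/
noncomputable def ge (G β t : ZFSet.{0}) (n : ℕ) : ZFSet.{0} :=
  if h : ∃ e, ∃ p ∈ G, sa β t (nat n) e ∈ p then h.choose else ∅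

theorem ge_spec {β t : ZFSet.{0}} (hβκ : β ∈ κ) (ht : t ∈ Tb M π β) (n : ℕ) :
    ∃ p ∈ G, sa β t (nat n) (ge G β t n) ∈ p := by
  have h := exists_ge hM hπ hκM hκ hG hx hβκ ht n
  rw [ge, dif_pos h]
  exact h.choose_spec

theorem ge_eq {β t e p : ZFSet.{0}} (hβκ : β ∈ κ) (ht : t ∈ Tb M π β) {n : ℕ} (hp : p ∈ G)
    (h : sa β t (nat n) e ∈ p) : ge G β t n = e := by
  obtain ⟨q, h1, h2⟩ := ge_spec hM hπ hκM hκ hG hx hβκ ht n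
  obtain ⟨r, h3, h4, h5⟩ := gen_dir hM hπ hκM hκ hG h1 hp
  exact (mem_PP.1 (hG.sub h3)).fn _ _ _ _ _ (h4.1 h2) (h5.1 h)

theorem ge_E {β t : ZFSet.{0}} (hβκ : β ∈ κ) (ht : t ∈ Tb M π β) (n : ℕ) :
    ge G β t n ∈ π.E := by
  obtain ⟨q, h1, h2⟩ := ge_spec hM hπ hκM hκ hG hx hβκ ht n
  exact ((mem_PP.1 (hG.sub h1)).ats.sa h2).2.2.2

theorem ge_Vl {β t : ZFSet.{0}} (hβκ : β ∈ κ) (ht : t ∈ Tb M π β) (n : ℕ) :
    pair (nat n) (ge G β t n) ∈ π.Vl := by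
  obtain ⟨q, h1, h2⟩ := ge_spec hM hπ hκM hκ hG hx hβκ ht n
  exact (mem_PP.1 (hG.sub h1)).vl _ _ _ _ h2

theorem ge_Cn {β t : ZFSet.{0}} (hβκ : β ∈ κ) (ht : t ∈ Tb M π β) (hc : π.c) (n : ℕ) :
    pair (ge G β t n) (nat (fv M π G β t n)) ∈ π.Cn := by
  obtain ⟨q, h1, h2⟩ := ge_spec hM hπ hκM hκ hG hx hβκ ht n
  have h3 := (mem_PP.1 (hG.sub h1)).cn hc _ _ _ _ h2
  have hβM : β ∈ M := hM.trans _ hκM _ hβκ
  have hβ := hκ.mem hβκ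
  exact fv_of_Fb hM hπ hκM hκ hG hβM hβ (hκ.subset_of_mem hβκ) ((Tb_mem hM ht).2 hc)
    (rs_gen hM hπ hκM hκ hG hβ (hκ.subset_of_mem hβκ) h1) h3

/-- The generic object captures the values of the names. -/
theorem ge_Al {β t s : ZFSet.{0}} (hβκ : β ∈ κ) (ht : t ∈ Tb M π β) (hs : s ∈ Nm M π β) :
    ∃ n₀ : ℕ, ∀ n ≥ n₀, pair (ge G β t n) (nat (fv M π G β s n)) ∈ π.Al := by
  have hB := hM.base
  have hβM : β ∈ M := hM.trans _ hκM _ hβκ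
  have hβ := hκ.mem hβκ
  have hsub := hκ.subset_of_mem hβκ
  have htM := (Tb_mem hM ht).1
  have hsM := (mem_Nm.1 hs).1
  have hd : Dfn M M fun w : Fin 1 → ZFSet.{0} => pa β t s ∈ w 0 :=
    Dfn.mem (DfnF.const (pa_mem_M hM hβM htM hsM)) (DfnF.proj 0)
  obtain ⟨p, h1, h2⟩ := dense_gen hM hπ hκM hκ hG (Q := fun p => pa β t s ∈ p) hd (by
    intro q hq
    obtain ⟨r, h1, h2, h3, h4⟩ := ext_room hM hπ hx hκM hκ hβκ ht (nF q β t + 1) q hq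
    obtain ⟨h5, h6⟩ := add_pa hM hπ hκM hκ hβκ h1 ht hs (by
      intro _
      refine le_trans' h3 (Nat.add_le_add_right (Set.ncard_le_ncard ?_
        (fin_prom (mem_PP.1 hq).fin _ _)) 1)
      intro s' hs'
      exact h4.pa hs' (ZFSet.mem_irrefl β))
    exact ⟨_, h5, le_trans hM hκ _ hq _ h1 _ h5 h6 h2, ZFSet.mem_insert_iff.2 (Or.inl rfl)⟩)
  have hp' := mem_PP.1 (hG.sub h1)
  refine ⟨Len p β t, fun n hn => ?_⟩
  obtain ⟨q, h3, h4⟩ := ge_spec hM hπ hκM hκ hG hx hβκ ht n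
  obtain ⟨r, h5, h6, h7⟩ := gen_dir hM hπ hκM hκ hG h1 h3
  have h8 : sa β t (nat n) (ge G β t n) ∉ p := by
    intro h
    have := (len_iff hp').1 ⟨_, h⟩
    rw [nat_mem_iff] at this
    omega
  have h9 := h6.2 _ _ _ _ _ h2 (h7.1 h4) h8
  exact fv_of_Fb hM hπ hκM hκ hG hβM hβ hsub hs (rs_gen hM hπ hκM hκ hG hβ hsub h5) h9

end

end Pool.Agent.H635.RG
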