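import Pool.Agent.H635.RG.Ar
import Pool.Agent.H635.RG.In
import Pool.Agent.H635.RF.Sc

/-!
# the Luzin family
-/

set_option autoImplicit false
set_option linter.unreachableTactic false
set_option linter.unusedTactic false
set_option linter.unusedSectionVars false
set_option linter.unusedVariables false

namespace Pool.Agent.H635.RG

open Pool.Agent.W868 Pool.Agent.W868.GM Pool.Agent.Y588
open Pool.Agent.H635.RB (Fi dfn_fi fin_mem nat_mem_iff mem_nat nat_sub)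
open ZFSet (pair)
open Pool.Agent.H635.RF (fnc stc cyl ap_fnc fnc_mem_of mem_stc nat_mem_stc)
open Pool.Agent.H635.RF (fnX_fnc fnc_fnX)

/-- The value of a function of the model, given as a set, at `n`. -/
noncomputable def vl (g : ZFSet.{0}) (n : ℕ) : ℕ := tn (ap g (Pool.Agent.W868.nat n))

theorem vl_fnc (x : ℕ → ℕ) (n : ℕ) : vl (fnc x) n = x n := by
  unfold vl
  rw [ap_fnc, tn_nat]

theorem NF.vl {M : Set ZFSet.{0}} (hM : IsZF M) {k : ℕ} {F : (Fin k → ZFSet.{0}) → ZFSet.{0}}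
    {f : (Fin k → ZFSet.{0}) → ℕ} (hF : DfnF M M F) (hf : NF M f) :
    NF M fun v => vl (F v) (f v) := NF.ap hM hF hf

theorem inS_mono {w w' D s y : ℕ} (h : w ≤ w') (h1 : inS w D s y) : inS w' D s y := by
  obtain ⟨c, hc, h2⟩ := h1
  exact ⟨c, lt_of_lt_of_le hc h, h2⟩

/-- A countable set of functions is evaded by one function. -/
theorem exists_evade {M : Set ZFSet.{0}} (hM : IsZF M) {D : ZFSet.{0}} (hD : D ∈ M)
    (hDf : ∀ g ∈ D, g ∈ fnX M ZFSet.omega) (hc : Ct M D) :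
    ∃ x : ℕ → ℕ, fnc x ∈ M ∧ (∀ n, x n < Dv n) ∧ ∀ g ∈ D, ∃ n₀ : ℕ, ∀ n : ℕ, n₀ ≤ n →
      ¬ inS (wv n n) (Dv n) (vl g n) (x n) := by
  classical
  have hB := hM.base
  have ho := hM.infinity
  obtain ⟨j, hjM, hj⟩ := hc
  have hjn : ∀ g ∈ D, ap j g ∈ ZFSet.omega ∧ pair g (ap j g) ∈ j := by
    intro g hg
    obtain ⟨b, hb, h⟩ := fun_exists hj.1 hg
    rw [ap_func hj.1 h]
    exact ⟨hb, h⟩
  set c : ZFSet.{0} → ℕ := fun g => tn (ap j g) with hcdef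
  have hcinj : ∀ g ∈ D, ∀ g' ∈ D, c g = c g' → g = g' := by
    intro g hg g' hg' h
    have h1 := hjn g hg
    have h2 := hjn g' hg'
    have h3 : ap j g = ap j g' := by
      rw [← nat_tn h1.1, ← nat_tn h2.1]
      exact congrArg _ h
    rw [← h3] at h2
    exact hj.2 _ _ _ h1.2 h2.2
  set Q : ℕ → ℕ → Prop := fun y n => y < Dv n ∧ ∀ g ∈ D, c g < n →
    ¬ inS (wv n n) (Dv n) (vl g n) y with hQ
  have hex : ∀ n, ∃ y, Q y n := by
    intro n
    set V : ℕ → Finset ℕ := fun i => (Finset.range (Dv n)).filter fun y =>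
      ∃ g ∈ D, c g = i ∧ inS (wv n n) (Dv n) (vl g n) y with hV
    have hVc : ∀ i, (V i).card ≤ wv n n := by
      intro i
      rcases (V i).eq_empty_or_nonempty with h | ⟨y₀, h⟩
      · rw [h, Finset.card_empty]
        exact Nat.zero_le _
      · obtain ⟨-, g₀, hg₀, h1, h2⟩ := Finset.mem_filter.1 h
        refine card_digits (D := Dv n) (s := vl g₀ n) (V i) fun y hy => ?_
        obtain ⟨-, g, hg, h3, h4⟩ := Finset.mem_filter.1 hy
        rw [hcinj g hg g₀ hg₀ (h3.trans h1.symm)] at h4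
        exact h4
    have h1 : ((Finset.range n).biUnion V).card < (Finset.range (Dv n)).card := by
      rw [Finset.card_range]
      refine lt_of_le_of_lt (Finset.card_biUnion_le_card_mul _ _ (wv n n) fun i _ => hVc i) ?_
      rw [Finset.card_range]
      exact mul_wv_lt n
    obtain ⟨y, hy, hy'⟩ := Finset.exists_mem_notMem_of_card_lt_card h1
    refine ⟨y, Finset.mem_range.1 hy, fun g hg hgn hin => hy' ?_⟩
    exact Finset.mem_biUnion.2 ⟨c g, Finset.mem_range.2 hgn,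
      Finset.mem_filter.2 ⟨hy, g, hg, rfl, hin⟩⟩
  refine ⟨fun n => sInf {y | Q y n}, ?_, fun n => ?_, fun g hg => ?_⟩
  · refine fnc_mem hM ?_
    refine NF.inf hM (Q := fun y w => Q y (tn (w 0))) ?_
    have hy : ∀ {m : ℕ} (i : Fin m), NF M fun w : Fin m → ZFSet.{0} => tn (w i) :=
      fun i => NF.tn hM (DfnF.proj i)
    refine Dfn.and ?_ ?_
    · exact Dfn.ltn (hy 0) (NF.Dv hM (hy 1))
    · refine hB.ball (Q := fun g w => c g < tn (w 1) →
        ¬ inS (wv (tn (w 1)) (tn (w 1))) (Dv (tn (w 1))) (vl g (tn (w 1))) (tn (w 0)))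
        (DfnF.const hD) ?_
      refine Dfn.imp ?_ (Dfn.not ?_)
      · exact Dfn.ltn (NF.tn hM (hM.ap' (DfnF.const hjM) (DfnF.proj 0))) (hy 2)
      · exact dfn_inS hM (NF.wv hM (hy 2) (hy 2)) (NF.Dv hM (hy 2))
          (NF.vl hM (DfnF.proj 0) (hy 2)) (hy 1)
  · exact (Nat.sInf_mem (hex n)).1
  · refine ⟨c g + 1, fun n hn => ?_⟩
    exact (Nat.sInf_mem (hex n)).2 g hg hn

theorem exists_luzin {M : Set ZFSet.{0}} (hL : IsLA ∅ M) {κ : ZFSet.{0}}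
    (hk : IsAleph1 M κ) : ∃ f : ZFSet.{0} → ZFSet.{0},
    (DfnF M M fun w : Fin 1 → ZFSet.{0} => f (w 0)) ∧
    (∀ ξ ∈ κ, ∃ x : ℕ → ℕ, f ξ = fnc x ∧ ∀ n, x n < Dv n) ∧
    ∀ S : ℕ → ℕ, fnc S ∈ M → ∀ k : ℕ, ∃ δ ∈ κ, ∀ ξ ∈ κ, ∀ x : ℕ → ℕ, f ξ = fnc x →
      Cap k S x → ξ ∈ δ := by
  classical
  have hM := hL.zf
  have hg := hL.gc
  have hB := hM.base
  have ho := hM.infinity
  have hκM := hk.1
  have hκ := hk.2.1
  have hX := fnX_mem hM ho
  obtain ⟨j, hjM, hj⟩ : Ct M (ZFSet.prod ZFSet.omega ZFSet.omega) :=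
    ct_prod hM ho ho (ct_omega hM) (ct_omega hM)
  have hooM : ZFSet.prod ZFSet.omega ZFSet.omega ∈ M := hM.prod_mem ho ho
  -- decoding
  set dc : ZFSet.{0} → ZFSet.{0} := fun y =>
    ZFSet.sep (fun u => ap j u ∈ y) (ZFSet.prod ZFSet.omega ZFSet.omega) with hdc
  have hdcd : ∀ {n : ℕ} {F : (Fin n → ZFSet.{0}) → ZFSet.{0}}, DfnF M M F →
      DfnF M M fun w => dc (F w) := by
    intro n F hF
    refine hM.sep' (Q := fun u w => ap j u ∈ F w) (DfnF.const hooM) ?_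
    exact Dfn.mem (hM.ap' (DfnF.const hjM) (DfnF.proj 0)) hF.tail
  have hLv : ∀ {n : ℕ} {F : (Fin n → ZFSet.{0}) → ZFSet.{0}}, DfnF M M F →
      DfnF M M fun w => Lv ∅ (F w) := fun hF =>
    DfnF.comp1 (f := Lv ∅) (dfn_Lv hM hM.empty_mem) hF
  -- the functions in the level
  set D : ZFSet.{0} → ZFSet.{0} := fun ξ =>
    ZFSet.sep (fun g => g ∈ fnX M ZFSet.omega) (im dc (Lv ∅ ξ)) with hD
  have hDd : ∀ {n : ℕ} {F : (Fin n → ZFSet.{0}) → ZFSet.{0}}, DfnF M M F →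
      DfnF M M fun w => D (F w) := by
    intro n F hF
    refine hM.sep' (Q := fun g w => g ∈ fnX M ZFSet.omega) (hM.im' (h := fun y _ => dc y)
      (hLv hF) (hdcd (DfnF.proj 0))) ?_
    exact Dfn.mem (DfnF.proj 0) (DfnF.const hX)
  have hDM : ∀ ξ ∈ M, D ξ ∈ M := fun ξ hξ =>
    (hDd (DfnF.proj (0 : Fin 1))).1 (fun _ => ξ) fun _ => hξ
  have hDc : ∀ ξ ∈ κ, Ct M (D ξ) := by
    intro ξ hξ
    have hξM := hM.trans _ hκM _ hξ
    have h1 : Inj M (Lv ∅ ξ) ZFSet.omega := Lv_small hL ho isOrdinal_omega (fun _ h => h) hξM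
      (hκ.mem hξ) (hk.2.2.2 ξ hξ)
    have hLM : Lv ∅ ξ ∈ M := Lv_mem_M hM hM.empty_mem hξM
    have h2 : Ct M (im dc (Lv ∅ ξ)) :=
      Inj.image hM hLM ho isOrdinal_omega h1 (hdcd (DfnF.proj 0))
    exact Ct.sub hM (hDM ξ hξM) (hM.im_mem hLM (hdcd (DfnF.proj 0)))
      (fun y hy => (ZFSet.mem_sep.1 hy).1) h2
  set P : ZFSet.{0} → ZFSet.{0} → Prop := fun f ξ => f ∈ fnX M ZFSet.omega ∧
    (∀ n : ℕ, vl f n < Dv n) ∧
    ∀ g ∈ D ξ, ∃ n₀ : ℕ, ∀ n : ℕ, n₀ ≤ n → ¬ inS (wv n n) (Dv n) (vl g n) (vl f n) with hP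
  set f : ZFSet.{0} → ZFSet.{0} := fun ξ => chs M (eo M ∅ hL.zf.trans) fun f => P f ξ with hf
  have hfs : ∀ ξ ∈ κ, P (f ξ) ξ := by
    intro ξ hξ
    have hξM := hM.trans _ hκM _ hξ
    obtain ⟨x, h1, h2, h3⟩ := exists_evade hM (hDM ξ hξM) (fun g hg => (ZFSet.mem_sep.1 hg).2)
      (hDc ξ hξ)
    refine (chs_spec (C := M) (e := eo M ∅ hL.zf.trans) (P := fun f => P f ξ)
      ⟨fnc x, h1, fnc_fnX h1, fun n => ?_, fun g hg => ?_⟩).2
    · rw [vl_fnc]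
      exact h2 n
    · obtain ⟨n₀, h4⟩ := h3 g hg
      refine ⟨n₀, fun n hn => ?_⟩
      rw [vl_fnc]
      exact h4 n hn
  refine ⟨f, ?_, fun ξ hξ => ?_, fun S hS k => ?_⟩
  · refine hM.chs' hg (Q := fun f w => P f (w 0)) ?_
    refine Dfn.and (Dfn.mem (DfnF.proj 0) (DfnF.const hX)) (Dfn.and ?_ ?_)
    · refine Dfn.alln hM (Q := fun n w => vl (w 0) n < Dv n) ?_
      exact Dfn.ltn (NF.vl hM (DfnF.proj 1) (NF.tn hM (DfnF.proj 0)))
        (NF.Dv hM (NF.tn hM (DfnF.proj 0)))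
    · refine hB.ball (Q := fun g w => ∃ n₀ : ℕ, ∀ n : ℕ, n₀ ≤ n →
        ¬ inS (wv n n) (Dv n) (vl g n) (vl (w 0) n)) (hDd (DfnF.proj 1)) ?_
      refine Dfn.exn hM (Q := fun n₀ w => ∀ n : ℕ, n₀ ≤ n →
        ¬ inS (wv n n) (Dv n) (vl (w 0) n) (vl (w 1) n)) ?_
      refine Dfn.alln hM (Q := fun n w => tn (w 0) ≤ n →
        ¬ inS (wv n n) (Dv n) (vl (w 1) n) (vl (w 2) n)) ?_
      have hy : ∀ {m : ℕ} (i : Fin m), NF M fun w : Fin m → ZFSet.{0} => tn (w i) :=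
        fun i => NF.tn hM (DfnF.proj i)
      refine Dfn.imp (Dfn.len (hy 1) (hy 0)) (Dfn.not ?_)
      exact dfn_inS hM (NF.wv hM (hy 0) (hy 0)) (NF.Dv hM (hy 0))
        (NF.vl hM (DfnF.proj 2) (hy 0)) (NF.vl hM (DfnF.proj 3) (hy 0))
  · obtain ⟨h1, h2, -⟩ := hfs ξ hξ
    obtain ⟨x, hx⟩ := fnX_fnc h1
    refine ⟨x, hx, fun n => ?_⟩
    have h3 := h2 n
    rw [hx, vl_fnc] at h3
    exact h3
  · -- the level of the code of `S`
    set y : ZFSet.{0} := im (fun u => ap j u) (fnc S) with hy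
    have hyM : y ∈ M := hM.im_mem hS (hM.ap' (DfnF.const hjM) (DfnF.proj 0))
    have hju : ∀ u ∈ ZFSet.prod ZFSet.omega ZFSet.omega, ap j u ∈ ZFSet.omega ∧
        pair u (ap j u) ∈ j := by
      intro u hu
      obtain ⟨b, hb, h1⟩ := fun_exists hj.1 hu
      rw [ap_func hj.1 h1]
      exact ⟨hb, h1⟩
    have hxs : ∀ u ∈ fnc S, u ∈ ZFSet.prod ZFSet.omega ZFSet.omega := by
      intro u hu
      obtain ⟨i, rfl⟩ := RF.mem_fnc.1 hu
      exact ZFSet.pair_mem_prod.2 ⟨nat_mem_omega _, nat_mem_omega _⟩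
    have hyo : y ⊆ ZFSet.omega := by
      intro z hz
      obtain ⟨u, hu, rfl⟩ := mem_im.1 hz
      exact (hju u (hxs u hu)).1
    have hdcy : dc y = fnc S := by
      ext u
      rw [hdc, ZFSet.mem_sep, mem_im]
      constructor
      · rintro ⟨h1, v, hv, h2⟩
        have h3 := (hju u h1).2
        have h4 := (hju v (hxs v hv)).2
        rw [h2] at h3
        rwa [hj.2 _ _ _ h3 h4]
      · intro h1
        exact ⟨hxs u h1, u, h1, rfl⟩
    obtain ⟨ξ₀, h1, h2, h3, h4⟩ := sub_level hL ho isOrdinal_omega (fun _ h => h) (T := ZFSet.omega)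
      ho (fun x hx y hy => isOrdinal_omega.mem_trans hy hx) (nat_mem_omega 0) (ct_omega hM)
      hyM hyo
    have h5 : ξ₀ ∈ κ := by
      rcases h2.mem_trichotomous hκ with h | h | h
      · exact h
      · exact absurd (h ▸ h3) hk.2.2.1
      · exact absurd (Ct.sub hM hκM h1 (h2.subset_of_mem h) h3) hk.2.2.1
    refine ⟨ξ₀, h5, fun ξ hξ x hx hcap => ?_⟩
    by_contra h8
    have hξo := hκ.mem hξ
    have h9 : ξ₀ ⊆ ξ := (hξo.notMem_iff_subset h2).1 h8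
    have h10 : fnc S ∈ D ξ := by
      refine ZFSet.mem_sep.2 ⟨mem_im.2 ⟨y, Lv_mono h9 h4, hdcy.symm⟩, fnc_fnX hS⟩
    obtain ⟨n₁, h11⟩ := (hfs ξ hξ).2.2 _ h10
    obtain ⟨n₀, h12⟩ := hcap
    have h13 := h11 (max (max n₀ n₁) k) ((le_max_right _ _).trans (le_max_left _ _))
    have h14 := h12 (max (max n₀ n₁) k) ((le_max_left _ _).trans (le_max_left _ _))
    rw [hx, vl_fnc, vl_fnc] at h13
    exact h13 (inS_mono (wv_mono (le_max_right _ _) _) h14)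

end Pool.Agent.H635.RG
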