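import Pool.Agent.H635.RG.Nk
import Pool.Graph.R_seed8.W868.Hart

/-!
# intermediate extensions
-/

set_option autoImplicit false
set_option linter.unreachableTactic false
set_option linter.unusedTactic false
set_option linter.unusedSectionVars false
set_option linter.unusedVariables false

namespace Pool.Agent.H635.RG

open Pool.Agent.W868 Pool.Agent.W868.GM Pool.Agent.Y588
open Pool.Agent.H635.RB (Fi dfn_fi fin_mem nat_mem_iff mem_nat nat_sub)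
open ZFSet (pair)
open Pool.Agent.H635.RF (fnc stc cyl ap_fnc fnc_mem_of mem_stc nat_mem_stc)

/-- In `M`, unions of `C` many countable subsets of `κ` are bounded in `κ`. -/
def Bdd (M : Set ZFSet.{0}) (κ C : ZFSet.{0}) : Prop :=
  ∀ F : ZFSet.{0} → ZFSet.{0}, (DfnF M M fun w : Fin 1 → ZFSet.{0} => F (w 0)) →
    (∀ c ∈ C, F c ⊆ κ ∧ Ct M (F c)) → ∃ γ ∈ κ, ∀ c ∈ C, F c ⊆ γ

section

variable {M : Set ZFSet.{0}} (hM : IsZF M) {κ : ZFSet.{0}} (hκM : κ ∈ M) (hκ : κ.IsOrdinal)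
  {C : ZFSet.{0}} (hCne : ∃ c, c ∈ C) (hb : Bdd M κ C)

include hM hκM hκ hCne hb

theorem Sg.sc_lt {β : ZFSet.{0}} (h : β ∈ κ) : sc β ∈ κ := by
  obtain ⟨c, hc⟩ := hCne
  have hβM : β ∈ M := hM.trans _ hκM _ h
  have hsM : ({β} : ZFSet.{0}) ∈ M := hM.single_mem hβM
  obtain ⟨γ, hγ, h1⟩ := hb (fun _ => {β}) (DfnF.const hsM) fun c _ => by
    refine ⟨fun x hx => ?_, ct_fin hM hsM ?_⟩
    · rw [ZFSet.mem_singleton.1 hx]
      exact h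
    · exact Set.Finite.subset (Set.finite_singleton β) fun x hx => ZFSet.mem_singleton.1 hx
  have h2 : β ∈ γ := h1 c hc (ZFSet.mem_singleton.2 rfl)
  have hγo := hκ.mem hγ
  refine ZFSet.IsOrdinal.mem_of_subset_of_mem (isOrdinal_sc (hκ.mem h)) hκ ?_ hγ
  intro x hx
  rcases ZFSet.mem_insert_iff.1 hx with h3 | h3
  · rw [h3]
    exact h2
  · exact hγo.mem_trans h3 h2

theorem Sg.zero_lt : (∅ : ZFSet.{0}) ∈ κ := by
  obtain ⟨γ, hγ, -⟩ := hb (fun _ => ∅) (DfnF.const hM.empty_mem) fun c _ =>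
    ⟨fun x hx => absurd hx (ZFSet.notMem_empty _), ct_nat hM 0⟩
  rcases ZFSet.isOrdinal_empty.mem_trichotomous hκ with h | h | h
  · exact h
  · rw [← h] at hγ
    exact absurd hγ (ZFSet.notMem_empty _)
  · exact absurd h (ZFSet.notMem_empty _)

variable {π : Par} (hπ : POk M π) (hx : PAx π)

include hπ hx

theorem Sg.exists_low {p : ZFSet.{0}} (hp : p ∈ PP M π κ) : ∃ δ ∈ κ, p ∈ PP M π δ := by
  have hp' := mem_PP.1 hp
  by_cases hne : ∃ z, z ∈ p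
  · obtain ⟨β, hβ, h1⟩ := max_blk hM hπ hx hκ hp'.ats hp'.fin hne
    refine ⟨sc β, Sg.sc_lt hM hκM hκ hCne hb hβ, mem_PP.2 ⟨hp'.mem, hp'.fin, fun z hz => ?_,
      hp'.fn, hp'.seg, hp'.vl, hp'.cn, hp'.sz⟩⟩
    obtain ⟨γ, h2, h3⟩ := hp'.atom z hz
    refine ⟨γ, ?_, h3⟩
    rw [← isAt_blk h3]
    rcases h1 z hz with h4 | h4
    · exact ZFSet.mem_insert_iff.2 (Or.inr h4)
    · exact ZFSet.mem_insert_iff.2 (Or.inl h4)
  · refine ⟨∅, Sg.zero_lt hM hκM hκ hCne hb, mem_PP.2 ⟨hp'.mem, hp'.fin, fun z hz => ?_,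
      hp'.fn, hp'.seg, hp'.vl, hp'.cn, hp'.sz⟩⟩
    exact absurd ⟨z, hz⟩ hne

end

theorem Sg.dfn_Pin {M : Set ZFSet.{0}} (hM : IsZF M) {π : Par} (hπ : POk M π)
    {κ : ZFSet.{0}} (hκM : κ ∈ M) (hκ : κ.IsOrdinal) {s : ZFSet.{0}} (hs : s ∈ M) {n : ℕ}
    {r m β : (Fin n → ZFSet.{0}) → ZFSet.{0}}
    (hr : DfnF M M r) (hm : DfnF M M m) (hβ : DfnF M M β) :
    Dfn M M fun w => Pin M π κ s (r w) (m w) (β w) := by
  have hB := hM.base
  have hPM := PP_mem hM hπ hκM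
  have hLM := LL_mem hM hπ hκM
  refine Dfn.comp3 (Q := Pin M π κ s) ?_ hr hm hβ
  unfold Pin
  have ho : ∀ {k : ℕ}, DfnF M M fun _ : Fin k → ZFSet.{0} => ZFSet.omega := omega_dfn hM
  (repeat' first
      | assumption
      | exact DfnF.proj _
      | exact ho
      | exact DfnF.const (by assumption)
      | exact dfn_Db hM hπ hκM hκ hκM (DfnF.const (by assumption)) (DfnF.proj _)
          (DfnF.proj _) (DfnF.proj _)
      | apply Dfn.and | apply Dfn.not | apply Dfn.imp | apply hB.ball | apply hB.bex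
      | apply Dfn.mem | apply Dfn.eq | apply hB.pair' | apply dfn_PP hM hπ
      | apply hM.fs' | apply hM.sn')

/-- The blocks at which the values of a name for a function on `C` are decided are bounded. -/
theorem Sg.bounded {M : Set ZFSet.{0}} (hM : IsZF M) {π : Par} (hπ : POk M π)
    (hE : Ct M π.E) {e : ZFSet.{0} → ZFSet.{0}} (hg : GC M e) (hx : PAx π)
    {κ G : ZFSet.{0}} (hκM : κ ∈ M) (hκ : κ.IsOrdinal)
    (hG : IsGeneric M (PP M π κ) (LL M π κ) G) {C : ZFSet.{0}} (hC : C ∈ M)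
    (hCne : ∃ c, c ∈ C) (hb : Bdd M κ C) {s : ZFSet.{0}} (hsM : s ∈ M)
    (hs : NmG (PP M π κ) (LL M π κ) C ZFSet.omega s) :
    ∃ γ ∈ κ, ∀ c ∈ C, ∃ r ∈ G, r ∈ PP M π γ ∧ ∃ v ∈ ZFSet.omega, Db M π κ s r c v := by
  classical
  have hB := hM.base
  have ho := hM.infinity
  have hPM := PP_mem hM hπ hκM
  have hLM := LL_mem hM hπ hκM
  set B : ZFSet.{0} → ZFSet.{0} := fun m => ZFSet.sep (fun β => ∃ r ∈ PP M π κ,
    Pin M π κ s r m β) κ with hBd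
  have hBdf : DfnF M M fun w : Fin 1 → ZFSet.{0} => B (w 0) := by
    refine hM.sep' (Q := fun β w => ∃ r ∈ PP M π κ, Pin M π κ s r (w 0) β) (DfnF.const hκM) ?_
    refine hB.bex (Q := fun r w => Pin M π κ s r (w 1) (w 0)) (DfnF.const hPM) ?_
    exact Sg.dfn_Pin hM hπ hκM hκ hsM (DfnF.proj 0) (DfnF.proj 2) (DfnF.proj 1)
  have hBc : ∀ m ∈ C, B m ⊆ κ ∧ Ct M (B m) := by
    intro m hm
    refine ⟨fun β hβ => (ZFSet.mem_sep.1 hβ).1, ?_⟩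
    have hmM := hM.trans _ hC _ hm
    have hBM : B m ∈ M := hBdf.1 (fun _ => m) fun _ => hmM
    by_contra hc
    set F : ZFSet.{0} → ZFSet.{0} := fun β => chs M e fun r => r ∈ PP M π κ ∧
      Pin M π κ s r m β with hF
    have hFs : ∀ β ∈ B m, F β ∈ PP M π κ ∧ Pin M π κ s (F β) m β := by
      intro β hβ
      obtain ⟨r, hr, h1⟩ := (ZFSet.mem_sep.1 hβ).2
      exact (chs_spec (C := M) (e := e) (P := fun r => r ∈ PP M π κ ∧ Pin M π κ s r m β)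
        ⟨r, hM.trans _ hPM _ hr, hr, h1⟩).2
    have hFd : DfnF M M fun w : Fin 1 → ZFSet.{0} => F (w 0) := by
      refine hM.chs' hg (Q := fun r w => r ∈ PP M π κ ∧ Pin M π κ s r m (w 0)) ?_
      exact (Dfn.mem (DfnF.proj 0) (DfnF.const hPM)).and
        (Sg.dfn_Pin hM hπ hκM hκ hsM (DfnF.proj 0) (DfnF.const hmM) (DfnF.proj 1))
    obtain ⟨β, hβ, β', hβ', hne, q, hq, h1, h2⟩ := ccc hM hπ hE hg hx hκM hκ hBM hc hFd
      fun β hβ => (hFs β hβ).1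
    -- the two blocks are comparable
    have key : ∀ β ∈ B m, ∀ β' ∈ B m, Le M π q (F β) → Le M π q (F β') → β ∈ β' → False := by
      intro β hβ β' hβ' h1 h2 h3
      obtain ⟨h4, ⟨r', hr', v, hv, h5, h6⟩, -⟩ := hFs β hβ
      obtain ⟨h7, -, h8⟩ := hFs β' hβ'
      refine h8 β h3 r' hr' v hv h5 q hq ⟨mem_LL.2 ⟨hq, h7, h2⟩, ?_⟩
      obtain ⟨-, h9, h10⟩ := mem_LL.1 h6
      exact mem_LL.2 ⟨hq, h9, le_trans hM hκ _ h9 _ h4 _ hq h1 h10⟩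
    have hβo := hκ.mem (ZFSet.mem_sep.1 hβ).1
    have hβo' := hκ.mem (ZFSet.mem_sep.1 hβ').1
    rcases hβo.mem_trichotomous hβo' with h3 | h3 | h3
    · exact key β hβ β' hβ' h1 h2 h3
    · exact hne h3
    · exact key β' hβ' β hβ h2 h1 h3
  obtain ⟨γ, hγ, h1⟩ := hb B hBdf hBc
  refine ⟨γ, hγ, fun c hc => ?_⟩
  have hcM := hM.trans _ hC _ hc
  have hd : Dfn M M fun w : Fin 1 → ZFSet.{0} => ∃ β ∈ κ, Pin M π κ s (w 0) c β := by
    refine hB.bex (Q := fun β w => Pin M π κ s (w 0) c β) (DfnF.const hκM) ?_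
    exact Sg.dfn_Pin hM hπ hκM hκ hsM (DfnF.proj 1) (DfnF.const hcM) (DfnF.proj 0)
  obtain ⟨r, hrG, β, hβ, h2⟩ := dense_gen hM hπ hκM hκ hG
    (Q := fun r => ∃ β ∈ κ, Pin M π κ s r c β) hd (by
    intro q hq
    obtain ⟨r₁, h2, h3', v, hv, h4⟩ := hs.1 c hc q hq
    have h3 := (mem_LL.1 h3').2.2
    obtain ⟨δ, hδ, h5⟩ := Sg.exists_low hM hκM hκ hCne hb hπ hx h2
    -- the least block
    set S : Set ZFSet.{0} := {β | β ∈ κ ∧ ∃ r' ∈ PP M π β, (∃ v ∈ ZFSet.omega,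
      Db M π κ s r' c v) ∧ ∃ q' ∈ PP M π κ, Le M π q' r₁ ∧ Le M π q' r'} with hS
    have hSne : S.Nonempty := ⟨δ, hδ, r₁, h5, ⟨v, hv, h4⟩, r₁, h2, le_refl _, le_refl _⟩
    set β := ZFSet.mem_wf.min S hSne with hβd
    obtain ⟨hβ, r', hr', ⟨v', hv', h6⟩, q', hq', h7, h8⟩ : β ∈ S :=
      ZFSet.mem_wf.min_mem S hSne
    refine ⟨q', hq', le_trans hM hκ _ hq _ h2 _ hq' h7 h3, β, hβ, ⟨r', hr', v', hv', h6, ?_⟩, ?_⟩
    · exact mem_LL.2 ⟨hq', PP_mono (hκ.subset_of_mem hβ) hr', h8⟩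
    · rintro γ' hγ' r'' hr'' v'' hv'' h9 q'' hq'' ⟨h10, h11⟩
      refine ZFSet.mem_wf.not_lt_min S (x := γ') ⟨hκ.mem_trans hγ' hβ, r'', hr'',
        ⟨v'', hv'', h9⟩, q'', hq'', ?_, (mem_LL.1 h11).2.2⟩ hγ'
      exact le_trans hM hκ _ h2 _ hq' _ hq'' (mem_LL.1 h10).2.2 h7)
  obtain ⟨⟨r', hr', v, hv, h3, h4⟩, h5⟩ := h2
  have h6 : β ∈ γ := h1 c hc (ZFSet.mem_sep.2 ⟨hβ, r, hG.sub hrG, ⟨r', hr', v, hv, h3, h4⟩, h5⟩)
  have hr'G : r' ∈ G := gen_up hM hπ hκM hκ hG hrG (mem_LL.1 h4).2.1 (mem_LL.1 h4).2.2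
  exact ⟨r', hr'G, PP_mono ((hκ.mem hγ).subset_of_mem h6) hr', v, hv, h3⟩

/-- A function in the extension is in an intermediate extension. -/
theorem stage {M : Set ZFSet.{0}} (hM : IsZF M) {π : Par} (hπ : POk M π)
    (hE : Ct M π.E) {e : ZFSet.{0} → ZFSet.{0}} (hg : GC M e) (hx : PAx π)
    {κ G : ZFSet.{0}} (hκM : κ ∈ M) (hκ : κ.IsOrdinal)
    (hG : IsGeneric M (PP M π κ) (LL M π κ) G) {C X : ZFSet.{0}} (hC : C ∈ M)
    (hCne : ∃ c, c ∈ C) (hb : Bdd M κ C) {h : ZFSet.{0} → ZFSet.{0}} (hX : X ∈ ext M G)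
    (hXs : X ⊆ ZFSet.prod C ZFSet.omega) (hh : ∀ c ∈ C, h c ∈ ZFSet.omega)
    (hXh : ∀ c ∈ C, ∀ v ∈ ZFSet.omega, (pair c v ∈ X ↔ v = h c)) :
    ∃ γ ∈ κ, X ∈ ext M (Gb M π G γ) := by
  obtain ⟨σ, hσ, -, hσN, hσh⟩ := exists_nameG hM (isForcing_PP hM hπ hκM hκ) hG hC hM.infinity
    (nat_mem_omega 0) hX hh hXh
  obtain ⟨γ, hγ, h1⟩ := Sg.bounded hM hπ hE hg hx hκM hκ hG hC hCne hb hσ hσN
  refine ⟨γ, hγ, ?_⟩
  have hγM := hM.trans _ hκM _ hγ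
  have hγo := hκ.mem hγ
  have hγκ := hκ.subset_of_mem hγ
  have hW := zf_Gb hM hπ hg hκM hκ hG hγM hγo hγκ
  have hMW := M_sub_Gb hM hπ hκM hκ hG hγM hγo hγκ
  have hGW := Gb_mem_Gb hM hπ hκM hκ hG hγM hγo hγκ
  have hB := hW.base
  have hσW := hMW hσ
  -- the values are unique
  have huniq : ∀ c ∈ C, ∀ v ∈ ZFSet.omega, ∀ r ∈ G, Dc (PP M π κ) (LL M π κ) σ r c v →
      v = h c := by
    intro c hc v hv r hr h2
    obtain ⟨r₀, hr₀, h3⟩ := hσh c hc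
    obtain ⟨q, hq, h4, h5⟩ := gen_dir hM hπ hκM hκ hG hr hr₀
    have h6 := Db.mono hM hκ (hG.sub hr) (hG.sub hq) h4 h2
    have h7 := Db.mono hM hκ (hG.sub hr₀) (hG.sub hq) h5 h3
    exact hσN.2 c hc q (hG.sub hq) v hv _ (hh c hc) h6 h7
  have h3 : X = ZFSet.sep (fun z => ∃ r ∈ Gb M π G γ,
      Dc (PP M π κ) (LL M π κ) σ r (fs z) (sn z)) (ZFSet.prod C ZFSet.omega) := by
    ext z
    rw [ZFSet.mem_sep]
    constructor
    · intro hz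
      refine ⟨hXs hz, ?_⟩
      obtain ⟨c, hc, v, hv, rfl⟩ := ZFSet.mem_prod.1 (hXs hz)
      rw [fs_pair, sn_pair]
      obtain ⟨r, h4, h5, v', hv', h6⟩ := h1 c hc
      have h7 := huniq c hc v' hv' r h4 h6
      have h8 := (hXh c hc v hv).1 hz
      refine ⟨r, mem_Gb.2 ⟨h4, h5⟩, ?_⟩
      rw [h8, ← h7]
      exact h6
    · rintro ⟨h4, r, hr, h5⟩
      obtain ⟨c, hc, v, hv, rfl⟩ := ZFSet.mem_prod.1 h4
      rw [fs_pair, sn_pair] at h5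
      exact (hXh c hc v hv).2 (huniq c hc v hv r (mem_Gb.1 hr).1 h5)
  rw [h3]
  refine hW.sep_mem ?_ (hW.prod_mem (hMW hC) hW.infinity)
  refine hB.bex (Q := fun r w => Dc (PP M π κ) (LL M π κ) σ r (fs (w 0)) (sn (w 0)))
    (DfnF.const hGW) ?_
  exact dfn_Dc hW (DfnF.const (hMW (PP_mem hM hπ hκM))) (DfnF.const (hMW (LL_mem hM hπ hκM)))
    (DfnF.const hσW) (DfnF.proj 0) (hW.fs' (DfnF.proj 1)) (hW.sn' (DfnF.proj 1))

/-- The second uncountable cardinal. -/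
theorem exists_aleph2 {M : Set ZFSet.{0}} (hM : IsZF M) {e : ZFSet.{0} → ZFSet.{0}}
    (hg : GC M e) {o : ZFSet.{0}} (ho : IsAleph1 M o) :
    ∃ κ ∈ M, κ.IsOrdinal ∧ Bdd M κ (ZFSet.prod o ZFSet.omega) := by
  have hB := hM.base
  have hoM := ho.1
  have hoo := ho.2.1
  have hωM := hM.infinity
  have hω : ZFSet.omega ⊆ o := by
    rcases isOrdinal_omega.mem_or_subset hoo with h | h
    · exact hoo.subset_of_mem h
    · exact absurd (Inj.of_subset hM hoM hωM h) ho.2.2.1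
  obtain ⟨κ, hκ, hoκ, hκi⟩ := exists_next hM hoM hoo
  refine ⟨κ, hκ.1, hκ.2.1, ?_⟩
  intro F hF hFc
  have hCM : ZFSet.prod o ZFSet.omega ∈ M := hM.prod_mem hoM hωM
  have hCi : Inj M (ZFSet.prod o ZFSet.omega) o :=
    Inj.trans hM hCM hoM (Inj.of_subset hM hCM (hM.prod_mem hoM hoM) (by
      intro z hz
      obtain ⟨a, ha, b, hb, rfl⟩ := ZFSet.mem_prod.1 hz
      exact ZFSet.pair_mem_prod.2 ⟨ha, hω hb⟩)) (sq_inj hM hoM hoo hω)
  obtain ⟨U, hU⟩ : ∃ U, U = ZFSet.sUnion (im F (ZFSet.prod o ZFSet.omega)) := ⟨_, rfl⟩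
  have hUM : U ∈ M := by
    rw [hU]
    exact hM.union _ (hM.im_mem hCM hF)
  have hFM : ∀ u ∈ ZFSet.prod o ZFSet.omega, F u ∈ M := fun u hu =>
    hF.1 (fun _ => u) fun _ => hM.trans _ hCM _ hu
  have hUi : Inj M U o := by
    rw [hU]
    refine Inj.iUnion hM hg hoM hoo hω hCM hCi hF fun u hu => ?_
    exact Inj.trans hM (hFM u hu) hoM (hFc u hu).2 (Inj.of_subset hM hωM hoM hω)
  have hUκ : U ⊆ κ := by
    intro y hy
    rw [hU] at hy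
    obtain ⟨z, hz, h1⟩ := ZFSet.mem_sUnion.1 hy
    obtain ⟨c, hc, rfl⟩ := mem_im.1 hz
    exact (hFc c hc).1 h1
  have hbd : ∃ γ ∈ κ, U ⊆ γ := by
    by_contra hc
    push Not at hc
    have hscd : DfnF M M fun w : Fin 1 → ZFSet.{0} => sc (w 0) :=
      hB.insert' (DfnF.proj 0) (DfnF.proj 0)
    have hVi : Inj M (ZFSet.sUnion (im sc U)) o := by
      refine Inj.iUnion hM hg hoM hoo hω hUM hUi hscd fun u hu => ?_
      have huM := hM.trans _ hUM _ hu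
      exact Inj.insert hM hg hoM hoo hω huM huM (hκi u (hUκ hu))
    have hVM : ZFSet.sUnion (im sc U) ∈ M := hM.union _ (hM.im_mem hUM hscd)
    have hsub : κ ⊆ ZFSet.sUnion (im sc U) := by
      intro γ hγ
      have h1 := hc γ hγ
      have h2 : ∃ b ∈ U, b ∉ γ := by
        by_contra h3
        push Not at h3
        exact h1 fun b hb => h3 b hb
      obtain ⟨b, hb, h3⟩ := h2
      refine ZFSet.mem_sUnion.2 ⟨_, mem_im.2 ⟨b, hb, rfl⟩, ?_⟩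
      rcases (hκ.2.1.mem hγ).mem_trichotomous (hκ.2.1.mem (hUκ hb)) with h4 | h4 | h4
      · exact ZFSet.mem_insert_iff.2 (Or.inr h4)
      · exact ZFSet.mem_insert_iff.2 (Or.inl h4)
      · exact absurd h4 h3
    exact hκ.2.2 o hoκ (Inj.trans hM hκ.1 hoM (Inj.of_subset hM hκ.1 hVM hsub) hVi)
  obtain ⟨γ, hγ, h1⟩ := hbd
  refine ⟨γ, hγ, fun c hc y hy => h1 ?_⟩
  rw [hU]
  exact ZFSet.mem_sUnion.2 ⟨_, mem_im.2 ⟨c, hc, rfl⟩, hy⟩

end Pool.Agent.H635.RG
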