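import Pool.Agent.H635.RG.Ss
import Pool.Agent.H635.RG.Lz
import Pool.Agent.H635.RG.Sg

/-!
# The limit step
-/

set_option autoImplicit false
set_option linter.unreachableTactic false
set_option linter.unusedTactic false
set_option linter.unusedSectionVars false
set_option linter.unusedVariables false

namespace Pool.Agent.H635.RG

open Pool.Agent.W868 Pool.Agent.W868.GM Pool.Agent.Y588
open Pool.Agent.H635.RB (Fi dfn_fi fin_mem nat_mem_iff mem_nat nat_sub)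
open ZFSet (pair)
open Pool.Agent.H635.RF (fnc stc cyl)

/-- The projection of the slalom to the stage `δ`. -/
noncomputable def Sl (M : Set ZFSet.{0}) (γ s g δ : ZFSet.{0}) (n : ℕ) : ℕ :=
  sInf {v | ∃ q ∈ PP M yp γ, rs q δ ∈ g ∧ Db M yp γ s q (nat n) (nat v)}

section

variable {M : Set ZFSet.{0}} (hM : IsZF M)

include hM

theorem nf_Sl {W : Set ZFSet.{0}} (hW : IsZF W) (hMW : M ⊆ W) {γ : ZFSet.{0}} (hγM : γ ∈ M)
    {s g : ZFSet.{0}} (hs : s ∈ M) (hg : g ∈ W) {j : ℕ}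
    {F : (Fin j → ZFSet.{0}) → ZFSet.{0}} {f : (Fin j → ZFSet.{0}) → ℕ}
    (hF : DfnF W W F) (hf : NF W f) : NF W fun v => Sl M γ s g (F v) (f v) := by
  have hπ := pOk_yp hM
  have hB := hW.base
  have hPM := hMW (PP_mem hM hπ hγM)
  have hLM := hMW (LL_mem hM hπ hγM)
  refine NF.inf hW (Q := fun u v => ∃ q ∈ PP M yp γ, rs q (F v) ∈ g ∧
    Db M yp γ s q (nat (f v)) (nat u)) ?_
  refine hB.bex (Q := fun q w => rs q (F (Fin.tail w)) ∈ g ∧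
    Db M yp γ s q (nat (f (Fin.tail w))) (nat (tn (w 0)))) (DfnF.const hPM) ?_
  refine Dfn.and (Dfn.mem (dfn_rs hW (DfnF.proj 0) hF.tail.tail) (DfnF.const hg)) ?_
  exact dfn_Dc hW (DfnF.const hPM) (DfnF.const hLM) (DfnF.const (hMW hs)) (DfnF.proj 0)
    (NF.tail hW (NF.tail hW hf)) (NF.tn hW (DfnF.proj 1))

theorem dfn_Cap {W : Set ZFSet.{0}} (hW : IsZF W) {j : ℕ} {k : ℕ}
    {F G' : (Fin j → ZFSet.{0}) → ℕ → ℕ}
    (hF : NF W fun w : Fin (j + 1) → ZFSet.{0} => F (Fin.tail w) (tn (w 0)))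
    (hG' : NF W fun w : Fin (j + 1) → ZFSet.{0} => G' (Fin.tail w) (tn (w 0))) :
    Dfn W W fun v => Cap k (F v) (G' v) := by
  refine Dfn.exn hW (Q := fun n₀ v => ∀ n ≥ n₀, inS (wv k n) (Dv n) (F v n) (G' v n)) ?_
  refine Dfn.alln hW (Q := fun n w => n ≥ tn (w 0) → inS (wv k n) (Dv n)
    (F (Fin.tail w) n) (G' (Fin.tail w) n)) ?_
  have h0 : NF W fun w : Fin (j + 2) → ZFSet.{0} => tn (w 0) := NF.tn hW (DfnF.proj 0)
  have h1 : NF W fun w : Fin (j + 2) → ZFSet.{0} => tn (w 1) := NF.tn hW (DfnF.proj 1)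
  have e1 : NF W fun w : Fin (j + 2) → ZFSet.{0} => F (Fin.tail (Fin.tail w)) (tn (w 0)) := by
    have h2 := hF.2.comp (Fin.cons 0 (Fin.cons 1 fun i : Fin j => i.succ.succ.succ) :
      Fin (j + 2) → Fin (j + 3))
    refine ⟨fun w hw => hW.nat_mem _, h2⟩
  have e2 : NF W fun w : Fin (j + 2) → ZFSet.{0} => G' (Fin.tail (Fin.tail w)) (tn (w 0)) := by
    have h2 := hG'.2.comp (Fin.cons 0 (Fin.cons 1 fun i : Fin j => i.succ.succ.succ) :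
      Fin (j + 2) → Fin (j + 3))
    refine ⟨fun w hw => hW.nat_mem _, h2⟩
  exact Dfn.imp (Dfn.len h1 h0) (dfn_inS hW (NF.wv hW (NF.const hW k) h0) (NF.Dv hW h0) e1 e2)

end

/-- The slaloms of the stage `γ` capture only a bounded set of functions. -/
def TT (M : Set ZFSet.{0}) (G o : ZFSet.{0}) (f : ZFSet.{0} → ZFSet.{0}) (γ : ZFSet.{0}) :
    Prop :=
  ∀ S : ℕ → ℕ, fnc S ∈ ext M (Gb M yp G γ) → ∀ k : ℕ, ∃ δ ∈ o, ∀ ξ ∈ o, ∀ x : ℕ → ℕ,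
    f ξ = fnc x → Cap k S x → ξ ∈ δ

section

variable {M : Set ZFSet.{0}} (hL : IsLA ∅ M) {κ G : ZFSet.{0}} (hκM : κ ∈ M)
  (hκ : κ.IsOrdinal) (hG : IsGeneric M (PP M yp κ) (LL M yp κ) G) {o : ZFSet.{0}}
  (ho : IsAleph1 M o) {f : ZFSet.{0} → ZFSet.{0}}
  (hf : DfnF M M fun w : Fin 1 → ZFSet.{0} => f (w 0))
  (hfx : ∀ ξ ∈ o, ∃ x : ℕ → ℕ, f ξ = fnc x ∧ ∀ n, x n < Dv n)

include hL hκM hκ hG

theorem cap_Sl {γ : ZFSet.{0}} (hγM : γ ∈ M) (hγ : γ.IsOrdinal) (hγκ : γ ⊆ κ)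
    (hlim : ∀ β ∈ γ, sc β ∈ γ) (hne : ∅ ∈ γ) {C : ZFSet.{0}} (hC : C ⊆ γ)
    (hCc : ∀ β ∈ γ, ∃ δ ∈ C, β ⊆ δ) {s : ZFSet.{0}} (hs : s ∈ Nm M yp γ)
    {k : ℕ} {x : ℕ → ℕ} (hx : fnc x ∈ M) (hc : Cap k (fv M yp G γ s) x) :
    ∃ δ ∈ C, Cap k (Sl M γ s (Gb M yp G γ) δ) x := by
  have hM := hL.zf
  have hπ := pOk_yp hM
  obtain ⟨n₀, h0⟩ := hc
  obtain ⟨p, hp, h1⟩ := exists_force hM hκM hκ hG hγM hγ hγκ hs hx h0
  have hpP := (mem_Gb.1 hp).2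
  have hp' := mem_PP.1 hpP
  obtain ⟨β, hβ, h2⟩ : ∃ β ∈ γ, p ∈ PP M yp β := by
    by_cases h : ∃ z, z ∈ p
    · obtain ⟨β, hβ, h2⟩ := max_blk hM hπ pAx_yp hγ hp'.ats hp'.fin h
      refine ⟨sc β, hlim β hβ, mem_PP.2 ⟨hp'.mem, hp'.fin, fun z hz => ?_, hp'.fn, hp'.seg,
        hp'.vl, hp'.cn, hp'.sz⟩⟩
      obtain ⟨δ, h3, h4⟩ := hp'.atom z hz
      refine ⟨δ, ?_, h4⟩
      rw [← isAt_blk h4]
      rcases h2 z hz with h5 | h5
      · exact ZFSet.mem_insert_iff.2 (Or.inr h5)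
      · exact ZFSet.mem_insert_iff.2 (Or.inl h5)
    · refine ⟨∅, hne, ?_⟩
      have h3 : p = ∅ := (ZFSet.eq_empty _).2 fun z hz => h ⟨z, hz⟩
      rw [h3]
      exact empty_mem_PP hM ∅
  obtain ⟨δ, hδC, hβδ⟩ := hCc β hβ
  have hδγ := hC hδC
  have hδM := hM.trans _ hγM _ hδγ
  have hδ := hγ.mem hδγ
  have hδγ' := hγ.subset_of_mem hδγ
  have hpδ : p ∈ PP M yp δ := PP_mono hβδ h2
  have hδκ : δ ⊆ κ := fun z hz => hγκ (hδγ' hz)
  have hgδ := isGeneric_Gb hM hπ hκM hκ hG hδM hδ hδκ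
  refine ⟨δ, hδC, n₀, fun n hn => ?_⟩
  have h3 : {v | ∃ q ∈ PP M yp γ, rs q δ ∈ Gb M yp G γ ∧
      Db M yp γ s q (nat n) (nat v)}.Nonempty := by
    obtain ⟨q, hq, h4⟩ := fv_spec hM hπ hκM hκ hG hγM hγ hγκ hs n
    refine ⟨_, q, (mem_Gb.1 hq).2, ?_, h4⟩
    have h5 := rs_gen hM hπ hκM hκ hG hδ hδκ (mem_Gb.1 hq).1
    exact mem_Gb.2 ⟨(mem_Gb.1 h5).1, PP_mono hδγ' (mem_Gb.1 h5).2⟩
  obtain ⟨q, hq, h4, h5⟩ := Nat.sInf_mem h3
  have h6 : rs q δ ∈ Gb M yp G δ := mem_Gb.2 ⟨(mem_Gb.1 h4).1, rs_mem hM hδ hq⟩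
  have h7 : p ∈ Gb M yp G δ := mem_Gb.2 ⟨(mem_Gb.1 hp).1, hpδ⟩
  obtain ⟨r, hr, h8, h9⟩ := gen_dir hM hπ hδM hδ hgδ h6 h7
  have hrP := (mem_Gb.1 hr).2
  obtain ⟨h10, h11, h12⟩ := glue (π := yp) hM hγ hδ hδγ' hq hrP h8
  have h13 : Le M yp (q ∪ r) p := by
    have h14 : Le M yp (q ∪ r) (rs (q ∪ r) δ) := le_self_rs _ _
    rw [h12] at h14
    exact le_trans hM hγ _ hpP _ (PP_mono hδγ' hrP) _ h10 h14 h9
  have h15 := Fb.mono hM hγ hpP h10 h13 (h1 n hn)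
  have h16 := Db.mono hM hγ hq h10 h11 h5
  exact pair_mem_Ck.1 (Fb.dec hM hγ hs h10 (nat_mem_omega n) (nat_mem_omega _) h15 h16)

include ho hf hfx

/-- The successor step. -/
theorem TT_succ {β : ZFSet.{0}} (hβκ : β ∈ κ) (h : TT M G o f β) : TT M G o f (sc β) := by
  have hM := hL.zf
  have hπ := pOk_yp hM
  have hg := hL.gc
  have hβM := hM.trans _ hκM _ hβκ
  have hβ := hκ.mem hβκ
  have hβκ' := hκ.subset_of_mem hβκ
  have hscκ : sc β ⊆ κ := by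
    intro z hz
    rcases ZFSet.mem_insert_iff.1 hz with h | h
    · rwa [h]
    · exact hκ.mem_trans h hβκ
  intro S hS k
  obtain ⟨s, hs, rfl⟩ := exists_Nm hM hπ hκM hκ hG (hM.sc_mem hβM) (isOrdinal_sc hβ) hscκ hS
  obtain ⟨δ, hδ, h1⟩ := h (Sst M k β s (Gb M yp G β))
    (Sst_mem hM hκM hκ (zf_Gb hM hπ hg hκM hκ hG hβM hβ hβκ')
      (M_sub_Gb hM hπ hκM hκ hG hβM hβ hβκ') hβM (mem_Nm.1 hs).1
      (Gb_mem_Gb hM hπ hκM hκ hG hβM hβ hβκ') k) (k + 1)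
  refine ⟨δ, hδ, fun ξ hξ x hx hc => h1 ξ hξ x hx ?_⟩
  obtain ⟨x', h2, h3⟩ := hfx ξ hξ
  have h4 : x = x' := fnc_inj (hx.symm.trans h2)
  subst h4
  have h5 : fnc x ∈ M := by
    rw [← hx]
    exact hf.1 (fun _ => ξ) fun _ => hM.trans _ ho.1 _ hξ
  exact cap_Sst hM hκM hκ hG hβκ hs h5 h3 hc

/-- The limit step. -/
theorem TT_lim {γ : ZFSet.{0}} (hγM : γ ∈ M) (hγ : γ.IsOrdinal) (hγκ : γ ⊆ κ)
    (hlim : ∀ β ∈ γ, sc β ∈ γ) (hne : ∅ ∈ γ) (h : ∀ β ∈ γ, TT M G o f β) :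
    TT M G o f γ := by
  classical
  have hM := hL.zf
  have hπ := pOk_yp hM
  have hg := hL.gc
  have hgγ := isGeneric_Gb hM hπ hκM hκ hG hγM hγ hγκ
  have hW := zf_Gb hM hπ hg hκM hκ hG hγM hγ hγκ
  have hMW := M_sub_Gb hM hπ hκM hκ hG hγM hγ hγκ
  have hGW := Gb_mem_Gb hM hπ hκM hκ hG hγM hγ hγκ
  have hωne : ∃ c, c ∈ ZFSet.omega := ⟨_, nat_mem_omega 0⟩
  intro S hS k
  by_cases hb : Bdd M γ ZFSet.omega
  · -- large cofinality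
    obtain ⟨β, hβ, h1⟩ := stage hM hπ (ct_yp hM) hg pAx_yp hγM hγ hgγ hM.infinity hωne hb
      (X := fnc S) (h := fun c => nat (S (tn c))) hS (by
        intro z hz
        obtain ⟨i, rfl⟩ := mem_fnc.1 hz
        exact ZFSet.pair_mem_prod.2 ⟨nat_mem_omega _, nat_mem_omega _⟩)
      (fun c _ => nat_mem_omega _) (by
        intro c hc v hv
        obtain ⟨i, rfl⟩ := mem_omega_iff.1 hc
        obtain ⟨j, rfl⟩ := mem_omega_iff.1 hv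
        rw [pair_mem_fnc, tn_nat]
        exact ⟨fun h => by rw [h], fun h => nat_injective h⟩)
    rw [Gb_Gb (hγ.subset_of_mem hβ)] at h1
    exact h β hβ S h1 k
  · -- countable cofinality
    unfold Bdd at hb
    push Not at hb
    obtain ⟨F, hF, h1, h2⟩ := hb
    set C : ZFSet.{0} := ZFSet.sUnion (im F ZFSet.omega) with hCd
    have hCM : C ∈ M := hM.union _ (hM.im_mem hM.infinity hF)
    have hCc : Ct M C := ct_iUnion hM hg hM.infinity (ct_omega hM) hF fun u hu => (h1 u hu).2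
    have memC : ∀ z, z ∈ C ↔ ∃ c ∈ ZFSet.omega, z ∈ F c := by
      intro z
      rw [hCd, ZFSet.mem_sUnion]
      constructor
      · rintro ⟨y, hy, hz⟩
        obtain ⟨c, hc, rfl⟩ := mem_im.1 hy
        exact ⟨c, hc, hz⟩
      · rintro ⟨c, hc, hz⟩
        exact ⟨_, mem_im.2 ⟨c, hc, rfl⟩, hz⟩
    have hCγ : C ⊆ γ := by
      intro z hz
      obtain ⟨c, hc, h3⟩ := (memC z).1 hz
      exact (h1 c hc).1 h3
    have hCcof : ∀ β ∈ γ, ∃ δ ∈ C, β ⊆ δ := by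
      intro β hβ
      obtain ⟨c, hc, h3⟩ := h2 β hβ
      have h4 : ∃ z ∈ F c, z ∉ β := by
        by_contra h5
        push Not at h5
        exact h3 fun z hz => h5 z hz
      obtain ⟨z, hz, h5⟩ := h4
      have hzC : z ∈ C := (memC z).2 ⟨c, hc, hz⟩
      refine ⟨z, hzC, ?_⟩
      exact ((hγ.mem (hCγ hzC)).notMem_iff_subset (hγ.mem hβ)).1 h5
    obtain ⟨j, hjM, hj⟩ := hCc
    obtain ⟨s, hs, rfl⟩ := exists_Nm hM hπ hκM hκ hG hγM hγ hγκ hS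
    have hsM := (mem_Nm.1 hs).1
    -- the slaloms of the smaller stages
    have hSl : ∀ δ ∈ γ, fnc (Sl M γ s (Gb M yp G γ) δ) ∈ ext M (Gb M yp G δ) := by
      intro δ hδ
      have hδM := hM.trans _ hγM _ hδ
      have hδo := hγ.mem hδ
      have hδκ : δ ⊆ κ := fun z hz => hγκ (hγ.mem_trans hz hδ)
      have h3 : Sl M γ s (Gb M yp G γ) δ = Sl M γ s (Gb M yp G δ) δ := by
        funext n
        unfold Sl
        congr 1
        ext v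
        constructor
        · rintro ⟨q, hq, h4, h5⟩
          exact ⟨q, hq, mem_Gb.2 ⟨(mem_Gb.1 h4).1, rs_mem hM hδo hq⟩, h5⟩
        · rintro ⟨q, hq, h4, h5⟩
          exact ⟨q, hq, mem_Gb.2 ⟨(mem_Gb.1 h4).1,
            PP_mono (hγ.subset_of_mem hδ) (mem_Gb.1 h4).2⟩, h5⟩
      rw [h3]
      have hWδ := zf_Gb hM hπ hg hκM hκ hG hδM hδo hδκ
      have hMWδ := M_sub_Gb hM hπ hκM hκ hG hδM hδo hδκ
      exact fnc_mem hWδ (nf_Sl hM hWδ hMWδ hγM hsM (Gb_mem_Gb hM hπ hκM hκ hG hδM hδo hδκ)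
        (DfnF.const (hMWδ hδM)) (NF.tn hWδ (DfnF.proj 0)))
    -- the family as a set
    have hXM : gr f o ∈ M := by
      refine hM.im_mem ho.1 ?_
      exact hM.base.pair' (DfnF.proj 0) hf
    set R : ZFSet.{0} → ZFSet.{0} → Prop := fun y x => ∀ δ ∈ C, pair δ x ∈ j → ∀ ξ ∈ o,
      Cap k (fun n => Sl M γ s (Gb M yp G γ) δ n) (fun n => tn (ap (ap (gr f o) ξ) (nat n))) →
      ξ ∈ y with hR
    have hRd : Dfn (ext M (Gb M yp G γ)) (ext M (Gb M yp G γ))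
        fun w : Fin 2 → ZFSet.{0} => R (w 0) (w 1) := by
      have hB := hW.base
      refine hB.ball (Q := fun δ w => pair δ (w 1) ∈ j → ∀ ξ ∈ o,
        Cap k (fun n => Sl M γ s (Gb M yp G γ) δ n)
          (fun n => tn (ap (ap (gr f o) ξ) (nat n))) → ξ ∈ w 0) (DfnF.const (hMW hCM)) ?_
      refine Dfn.imp (Dfn.mem (hB.pair' (DfnF.proj 0) (DfnF.proj 2)) (DfnF.const (hMW hjM))) ?_
      refine hB.ball (Q := fun ξ w => Cap k (fun n => Sl M γ s (Gb M yp G γ) (w 0) n)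
          (fun n => tn (ap (ap (gr f o) ξ) (nat n))) → ξ ∈ w 1) (DfnF.const (hMW ho.1)) ?_
      refine Dfn.imp ?_ (Dfn.mem (DfnF.proj 0) (DfnF.proj 2))
      refine dfn_Cap hM hW (F := fun w n => Sl M γ s (Gb M yp G γ) (w 1) n)
        (G' := fun w n => tn (ap (ap (gr f o) (w 0)) (nat n))) ?_ ?_
      · exact nf_Sl hM hW hMW hγM hsM hGW (DfnF.proj 2) (NF.tn hW (DfnF.proj 0))
      · exact NF.ap hW (hW.ap' (DfnF.const (hMW hXM)) (DfnF.proj 1))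
          (NF.tn hW (DfnF.proj 0))
    have hxo : ∀ ξ ∈ o, ∀ x : ℕ → ℕ, f ξ = fnc x →
        (fun n => tn (ap (ap (gr f o) ξ) (nat n))) = x := by
      intro ξ hξ x hx
      funext n
      rw [ap_gr hξ, hx, RF.ap_fnc, tn_nat]
    have h0o : (∅ : ZFSet.{0}) ∈ o := zero_lt hM hg ho
    have hRe : ∀ x, ∃ y ∈ o, R y x := by
      intro x
      by_cases hx : ∃ δ ∈ C, pair δ x ∈ j
      · obtain ⟨δ, hδ, h3⟩ := hx
        obtain ⟨y, hy, h4⟩ := h δ (hCγ hδ) _ (hSl δ (hCγ hδ)) k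
        refine ⟨y, hy, fun δ' hδ' h5 ξ hξ h6 => ?_⟩
        have h7 : δ' = δ := hj.2 _ _ _ h5 h3
        subst h7
        obtain ⟨x', h8, -⟩ := hfx ξ hξ
        rw [hxo ξ hξ x' h8] at h6
        exact h4 ξ hξ x' h8 h6
      · refine ⟨∅, h0o, fun δ hδ h3 => ?_⟩
        exact absurd ⟨δ, hδ, h3⟩ hx
    set H : ZFSet.{0} → ZFSet.{0} := fun x =>
      ZFSet.mem_wf.min {y | y ∈ o ∧ R y x} (hRe x) with hH
    have hHs : ∀ x, H x ∈ o ∧ R (H x) x := fun x =>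
      ZFSet.mem_wf.min_mem {y | y ∈ o ∧ R y x} (hRe x)
    have hHm : ∀ x y, y ∈ o → R y x → y ∉ H x := fun x y hy h3 =>
      ZFSet.mem_wf.not_lt_min {y | y ∈ o ∧ R y x} (x := y) ⟨hy, h3⟩
    have hHd : DfnF (ext M (Gb M yp G γ)) (ext M (Gb M yp G γ))
        fun w : Fin 1 → ZFSet.{0} => H (w 0) := by
      refine DfnF.of_unique (R := fun y w => y ∈ o ∧ R y (w 0) ∧ ∀ z ∈ y, ¬ R z (w 0)) ?_ ?_
      · refine Dfn.and (Dfn.mem (DfnF.proj 0) (DfnF.const (hMW ho.1))) (Dfn.and ?_ ?_)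
        · exact Dfn.comp2 (Q := R) hRd (DfnF.proj 0) (DfnF.proj 1)
        · refine hW.base.ball (Q := fun z w => ¬ R z (w 1)) (DfnF.proj 0) ?_
          exact (Dfn.comp2 (Q := R) hRd (DfnF.proj 0) (DfnF.proj 2)).not
      · intro v hv
        refine ⟨hW.trans _ (hMW ho.1) _ (hHs (v 0)).1, fun y _ => ?_⟩
        constructor
        · rintro ⟨h3, h4, h5⟩
          rcases (ho.2.1.mem h3).mem_trichotomous (ho.2.1.mem (hHs (v 0)).1) with h6 | h6 | h6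
          · exact absurd h6 (hHm _ _ h3 h4)
          · exact h6
          · exact absurd (hHs (v 0)).2 (h5 _ h6)
        · rintro rfl
          refine ⟨(hHs _).1, (hHs _).2, fun z hz h3 => hHm _ _ ?_ h3 hz⟩
          exact ho.2.1.mem_trans hz (hHs _).1
    obtain ⟨δ₀, hδ₀, h3⟩ := reg_aleph1 hM hπ (ct_yp hM) hg pAx_yp hγM hγ hgγ ho hHd
      fun n => (hHs _).1
    refine ⟨δ₀, hδ₀, fun ξ hξ x hx hc => ?_⟩
    have h5 : fnc x ∈ M := by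
      rw [← hx]
      exact hf.1 (fun _ => ξ) fun _ => hM.trans _ ho.1 _ hξ
    obtain ⟨δ, hδ, h6⟩ := cap_Sl hL hκM hκ hG hγM hγ hγκ hlim hne hCγ hCcof hs h5 hc
    obtain ⟨b, hb, h7⟩ := fun_exists hj.1 hδ
    obtain ⟨n, rfl⟩ := mem_omega_iff.1 hb
    have h8 := (hHs (nat n)).2 δ hδ h7 ξ hξ (by
      rw [hxo ξ hξ x hx]
      exact h6)
    exact (ho.2.1.mem hδ₀).mem_trans h8 (h3 n)

end

end Pool.Agent.H635.RG
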