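import Pool.Agent.H635.RG.Pi

/-!
# Conditions of a successor length
-/

set_option autoImplicit false
set_option linter.unreachableTactic false
set_option linter.unusedTactic false
set_option linter.unusedSectionVars false
set_option linter.unusedVariables false

namespace Pool.Agent.H635.RG

open Pool.Agent.W868 Pool.Agent.W868.GM Pool.Agent.Y588
open Pool.Agent.H635.RB (Fi dfn_fi fin_mem nat_mem_iff mem_nat nat_sub)
open ZFSet (pair)
open Pool.Agent.H635.RF (fnc stc cyl)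

/-- The condition with the lower part `r`, the stem `E` of length `n` and the promises `F` in the
block `β`. -/
noncomputable def mkc (β r : ZFSet.{0}) (n : ℕ) (E : ℕ → ℕ) (F : ZFSet.{0}) : ZFSet.{0} :=
  r ∪ (im (fun m => sa β ∅ m (nat (E (tn m)))) (nat n) ∪ im (fun s => pa β ∅ s) F)

theorem mem_mkc {β r F z : ZFSet.{0}} {n : ℕ} {E : ℕ → ℕ} : z ∈ mkc β r n E F ↔
    z ∈ r ∨ (∃ i < n, z = sa β ∅ (nat i) (nat (E i))) ∨ ∃ s ∈ F, z = pa β ∅ s := by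
  rw [mkc, ZFSet.mem_union, ZFSet.mem_union, mem_im, mem_im]
  refine or_congr_right (or_congr_left ?_)
  constructor
  · rintro ⟨m, hm, rfl⟩
    obtain ⟨i, hi, rfl⟩ := mem_nat.1 hm
    exact ⟨i, hi, by rw [tn_nat]⟩
  · rintro ⟨i, hi, rfl⟩
    exact ⟨nat i, nat_mem_iff.2 hi, by rw [tn_nat]⟩

section

variable {M : Set ZFSet.{0}} (hM : IsZF M) {β : ZFSet.{0}} (hβM : β ∈ M) (hβ : β.IsOrdinal)

theorem sa_mem_mkc {r F t m e : ZFSet.{0}} {n : ℕ} {E : ℕ → ℕ} (hr : r ∈ PP M yp β) :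
    sa β t m e ∈ mkc β r n E F ↔ ∃ i < n, t = ∅ ∧ m = nat i ∧ e = nat (E i) := by
  rw [mem_mkc]
  constructor
  · rintro (h | ⟨i, hi, h⟩ | ⟨s, hs, h⟩)
    · exact absurd ((mem_PP.1 hr).ats.sa h).1 (ZFSet.mem_irrefl β)
    · obtain ⟨-, rfl, rfl, rfl⟩ := sa_inj.1 h
      exact ⟨i, hi, rfl, rfl, rfl⟩
    · exact absurd h sa_ne_pa
  · rintro ⟨i, hi, rfl, rfl, rfl⟩
    exact Or.inr (Or.inl ⟨i, hi, rfl⟩)

theorem pa_mem_mkc {r F t s : ZFSet.{0}} {n : ℕ} {E : ℕ → ℕ} (hr : r ∈ PP M yp β) :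
    pa β t s ∈ mkc β r n E F ↔ t = ∅ ∧ s ∈ F := by
  rw [mem_mkc]
  constructor
  · rintro (h | ⟨i, hi, h⟩ | ⟨s', hs, h⟩)
    · exact absurd ((mem_PP.1 hr).ats.pa h).1 (ZFSet.mem_irrefl β)
    · exact absurd h.symm sa_ne_pa
    · obtain ⟨-, rfl, rfl⟩ := pa_inj.1 h
      exact ⟨rfl, hs⟩
  · rintro ⟨rfl, hs⟩
    exact Or.inr (Or.inr ⟨s, hs, rfl⟩)

theorem sa_mem_mkc' {r F γ t m e : ZFSet.{0}} {n : ℕ} {E : ℕ → ℕ} (hγ : γ ≠ β) :
    sa γ t m e ∈ mkc β r n E F ↔ sa γ t m e ∈ r := by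
  rw [mem_mkc]
  constructor
  · rintro (h | ⟨i, hi, h⟩ | ⟨s, hs, h⟩)
    · exact h
    · exact absurd (sa_inj.1 h).1 hγ
    · exact absurd h sa_ne_pa
  · exact Or.inl

theorem pa_mem_mkc' {r F γ t s : ZFSet.{0}} {n : ℕ} {E : ℕ → ℕ} (hγ : γ ≠ β) :
    pa γ t s ∈ mkc β r n E F ↔ pa γ t s ∈ r := by
  rw [mem_mkc]
  constructor
  · rintro (h | ⟨i, hi, h⟩ | ⟨s', hs, h⟩)
    · exact h
    · exact absurd h.symm sa_ne_pa
    · exact absurd (pa_inj.1 h).1 hγ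
  · exact Or.inl

theorem rs_mkc {r F : ZFSet.{0}} {n : ℕ} {E : ℕ → ℕ} (hr : r ∈ PP M yp β) :
    rs (mkc β r n E F) β = r := by
  ext z
  rw [mem_rs, mem_mkc]
  constructor
  · rintro ⟨h | ⟨i, hi, rfl⟩ | ⟨s, hs, rfl⟩, h2⟩
    · exact h
    · rw [blk_sa] at h2
      exact absurd h2 (ZFSet.mem_irrefl β)
    · rw [blk_pa] at h2
      exact absurd h2 (ZFSet.mem_irrefl β)
  · intro h
    exact ⟨Or.inl h, (mem_PP.1 hr).ats.blk h⟩

include hM hβM hβ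

theorem mkc_mem {r F : ZFSet.{0}} {n : ℕ} {E : ℕ → ℕ} (hr : r ∈ PP M yp β)
    (hE : ∀ i < n, (E i).unpair.1 = i) (hF : Fi F) (hFN : ∀ s ∈ F, s ∈ Nm M yp β)
    (hc : {s | s ∈ F}.ncard ≤ n) : mkc β r n E F ∈ PP M yp (sc β) := by
  have hr' := mem_PP.1 hr
  have hββ : β ∉ β := ZFSet.mem_irrefl β
  have hfin : Fi (mkc β r n E F) := by
    refine Set.Finite.subset (Set.Finite.union hr'.fin (Set.Finite.union
      (Set.Finite.image (fun i : ℕ => sa β ∅ (nat i) (nat (E i))) (Set.finite_Iio n))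
      (Set.Finite.image (fun s => pa β ∅ s) hF))) fun z hz => ?_
    rcases mem_mkc.1 hz with h | ⟨i, hi, rfl⟩ | ⟨s, hs, rfl⟩
    · exact Or.inl h
    · exact Or.inr (Or.inl ⟨i, hi, rfl⟩)
    · exact Or.inr (Or.inr ⟨s, hs, rfl⟩)
  have hT := empty_Tb M β
  have hat : Ats M yp (sc β) (mkc β r n E F) := by
    intro z hz
    rcases mem_mkc.1 hz with h | ⟨i, hi, rfl⟩ | ⟨s, hs, rfl⟩
    · obtain ⟨γ, hγ, h1⟩ := hr'.atom z h
      exact ⟨γ, ZFSet.mem_insert_iff.2 (Or.inr hγ), h1⟩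
    · exact ⟨β, ZFSet.mem_insert_iff.2 (Or.inl rfl), Or.inl ⟨∅, hT, nat i, nat_mem_omega _,
        nat (E i), nat_mem_omega _, rfl⟩⟩
    · exact ⟨β, ZFSet.mem_insert_iff.2 (Or.inl rfl), Or.inr ⟨∅, hT, s, hFN s hs, rfl⟩⟩
  refine mk_PP hM (isOrdinal_sc hβ) (fin_mem hM hfin fun z hz => ?_) hfin hat ?_ ?_ ?_ ?_ ?_
  · rcases mem_mkc.1 hz with h | ⟨i, hi, rfl⟩ | ⟨s, hs, rfl⟩
    · exact hM.trans _ hr'.mem _ h
    · exact sa_mem_M hM hβM hM.empty_mem (hM.nat_mem _) (hM.nat_mem _)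
    · exact pa_mem_M hM hβM hM.empty_mem (mem_Nm.1 (hFN s hs)).1
  · intro γ t m e e' h h'
    by_cases hγ : γ = β
    · subst hγ
      obtain ⟨i, hi, rfl, rfl, rfl⟩ := (sa_mem_mkc hr).1 h
      obtain ⟨j, hj, -, h1, rfl⟩ := (sa_mem_mkc hr).1 h'
      rw [nat_injective h1]
    · rw [sa_mem_mkc' hγ] at h h'
      exact hr'.fn _ _ _ _ _ h h'
  · intro γ t m e m' h h'
    by_cases hγ : γ = β
    · subst hγ
      obtain ⟨i, hi, rfl, rfl, rfl⟩ := (sa_mem_mkc hr).1 h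
      obtain ⟨j, hj, rfl⟩ := mem_nat.1 h'
      exact ⟨_, (sa_mem_mkc hr).2 ⟨j, by omega, rfl, rfl, rfl⟩⟩
    · rw [sa_mem_mkc' hγ] at h
      obtain ⟨e', he'⟩ := hr'.seg _ _ _ _ _ h h'
      exact ⟨e', (sa_mem_mkc' hγ).2 he'⟩
  · intro γ t m e h
    by_cases hγ : γ = β
    · subst hγ
      obtain ⟨i, hi, rfl, rfl, rfl⟩ := (sa_mem_mkc hr).1 h
      exact (pair_mem_relc (R := fun n e => e.unpair.1 = n)).2 (hE i hi)
    · rw [sa_mem_mkc' hγ] at h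
      exact hr'.vl _ _ _ _ h
  · intro hc
    exact absurd hc fun h => h
  · intro hz γ t
    by_cases hγ : γ = β
    · subst hγ
      rw [sz_iff' hat]
      by_cases ht : t = ∅
      · subst ht
        have h1 : {s | pa γ ∅ s ∈ mkc γ r n E F} = {s | s ∈ F} := by
          ext s
          rw [Set.mem_ofPred_eq, pa_mem_mkc hr]
          simp
        have h2 : Len (mkc γ r n E F) γ ∅ = n := by
          refine len_of fun m => ?_
          rw [mem_nat]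
          constructor
          · rintro ⟨e, he⟩
            obtain ⟨i, hi, -, rfl, -⟩ := (sa_mem_mkc hr).1 he
            exact ⟨i, hi, rfl⟩
          · rintro ⟨i, hi, rfl⟩
            exact ⟨_, (sa_mem_mkc hr).2 ⟨i, hi, rfl, rfl, rfl⟩⟩
        rw [nF, h1, h2]
        exact hc
      · have h1 : {s | pa γ t s ∈ mkc γ r n E F} = ∅ := by
          refine Set.eq_empty_iff_forall_notMem.2 fun s hs => ht ?_
          exact ((pa_mem_mkc hr).1 hs).1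
        rw [nF, h1, Set.ncard_empty]
        exact Nat.zero_le _
    · rw [sz_iff' hat]
      have h1 : {s | pa γ t s ∈ mkc β r n E F} = {s | pa γ t s ∈ r} := by
        ext s
        rw [Set.mem_ofPred_eq, pa_mem_mkc' hγ]
        rfl
      have h2 : {m | ∃ e, sa γ t m e ∈ mkc β r n E F} = {m | ∃ e, sa γ t m e ∈ r} := by
        ext m
        constructor
        · rintro ⟨e, he⟩
          exact ⟨e, (sa_mem_mkc' hγ).1 he⟩
        · rintro ⟨e, he⟩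
          exact ⟨e, (sa_mem_mkc' hγ).2 he⟩
      rw [nF, Len, h1, h2]
      exact (sz_iff' hr'.ats).1 (hr'.sz trivial γ t)

theorem le_mkc {r r' F F' : ZFSet.{0}} {n n' : ℕ} {E E' : ℕ → ℕ} (hr : r ∈ PP M yp β)
    (hr' : r' ∈ PP M yp β) (h1 : Le M yp r' r) (h2 : n ≤ n') (h3 : ∀ i < n, E' i = E i)
    (h4 : F ⊆ F') (h5 : ∀ s ∈ F, ∀ j, n ≤ j → j < n' →
      Fb M yp β yp.Al r' s (nat j) (nat (E' j))) :
    Le M yp (mkc β r' n' E' F') (mkc β r n E F) := by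
  constructor
  · intro z hz
    rcases mem_mkc.1 hz with h | ⟨i, hi, rfl⟩ | ⟨s, hs, rfl⟩
    · exact mem_mkc.2 (Or.inl (h1.1 h))
    · exact mem_mkc.2 (Or.inr (Or.inl ⟨i, by omega, by rw [h3 i hi]⟩))
    · exact mem_mkc.2 (Or.inr (Or.inr ⟨s, h4 hs, rfl⟩))
  · intro γ t s m e ha hb hc
    by_cases hγ : γ = β
    · subst hγ
      obtain ⟨rfl, hs⟩ := (pa_mem_mkc hr).1 ha
      obtain ⟨i, hi, -, rfl, rfl⟩ := (sa_mem_mkc hr').1 hb
      rw [rs_mkc hr']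
      refine h5 s hs i ?_ hi
      by_contra hlt
      push Not at hlt
      exact hc ((sa_mem_mkc hr).2 ⟨i, hlt, rfl, rfl, by rw [h3 i hlt]⟩)
    · rw [pa_mem_mkc' hγ] at ha
      rw [sa_mem_mkc' hγ] at hb
      have hc' : sa γ t m e ∉ r := fun h => hc ((sa_mem_mkc' hγ).2 h)
      have h6 := h1.2 _ _ _ _ _ ha hb hc'
      have hγβ : γ ∈ β := ((mem_PP.1 hr).ats.pa ha).1
      have h7 : rs (mkc β r' n' E' F') γ = rs r' γ := by
        have h8 : rs (rs (mkc β r' n' E' F') β) γ = rs (mkc β r' n' E' F') γ :=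
          rs_rs (hβ.subset_of_mem hγβ)
        rw [← h8, rs_mkc hr']
      rw [h7]
      exact h6

omit hβM in
/-- Every condition of the length `β + 1` has this form. -/
theorem eq_mkc {p : ZFSet.{0}} (hp : p ∈ PP M yp (sc β)) : ∃ E : ℕ → ℕ,
    (∀ i < Len p β ∅, (E i).unpair.1 = i) ∧
    p = mkc β (rs p β) (Len p β ∅) E (Fs p (pair β ∅)) := by
  have hp' := mem_PP.1 hp
  have h1 : ∀ i : ℕ, ∃ k : ℕ, i < Len p β ∅ → sa β ∅ (nat i) (nat k) ∈ p := by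
    intro i
    by_cases hi : i < Len p β ∅
    · obtain ⟨e, he⟩ := (len_iff hp').2 (nat_mem_iff.2 hi)
      obtain ⟨k, rfl⟩ := mem_omega_iff.1 (hp'.ats.sa he).2.2.2
      exact ⟨k, fun _ => he⟩
    · exact ⟨0, fun h => absurd h hi⟩
  choose E hE using h1
  refine ⟨E, fun i hi => ?_, ?_⟩
  · exact (pair_mem_relc (R := fun n e => e.unpair.1 = n)).1 (hp'.vl _ _ _ _ (hE i hi))
  · ext z
    rw [mem_mkc]
    constructor
    · intro hz
      rcases hp'.ats.cases hz with ⟨γ, t, m, e, hγ, ht, hm, he, rfl⟩ | ⟨γ, t, s, hγ, ht, hs, rfl⟩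
      · rcases ZFSet.mem_insert_iff.1 hγ with h | h
        · subst h
          have h2 := of_mem_Tb ht
          subst h2
          obtain ⟨i, hi, rfl⟩ := mem_nat.1 ((len_iff hp').1 ⟨e, hz⟩)
          refine Or.inr (Or.inl ⟨i, hi, ?_⟩)
          rw [hp'.fn _ _ _ _ _ hz (hE i hi)]
        · exact Or.inl (sa_mem_rs.2 ⟨hz, h⟩)
      · rcases ZFSet.mem_insert_iff.1 hγ with h | h
        · subst h
          have h2 := of_mem_Tb ht
          subst h2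
          exact Or.inr (Or.inr ⟨s, hp'.ats.mem_Fs.2 hz, rfl⟩)
        · exact Or.inl (pa_mem_rs.2 ⟨hz, h⟩)
    · rintro (h | ⟨i, hi, rfl⟩ | ⟨s, hs, rfl⟩)
      · exact rs_sub h
      · exact hE i hi
      · exact hp'.ats.mem_Fs.1 hs

end

end Pool.Agent.H635.RG
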