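import Pool.Agent.H635.RF.Ra

/-!
# Definable functions with values in the natural numbers
-/

set_option autoImplicit false
set_option linter.unreachableTactic false
set_option linter.unusedTactic false
set_option linter.unusedSectionVars false
set_option linter.unusedVariables false

namespace Pool.Agent.H635.RG

open Pool.Agent.W868 Pool.Agent.W868.GM Pool.Agent.Y588
open Pool.Agent.H635.RB (Fi dfn_fi fin_mem nat_mem_iff mem_nat nat_sub)
open ZFSet (pair)
open Pool.Agent.H635.RF (fnc stc ap_fnc fnc_mem_of)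

/-- The natural number coded by a set. -/
noncomputable def tn (x : ZFSet.{0}) : ℕ :=
  open Classical in if h : ∃ n, x = nat n then h.choose else 0

@[simp] theorem tn_nat (n : ℕ) : tn (nat n) = n := by
  have h : ∃ m, nat n = nat m := ⟨n, rfl⟩
  rw [tn, dif_pos h]
  exact (nat_injective h.choose_spec).symm

theorem nat_tn {x : ZFSet.{0}} (hx : x ∈ ZFSet.omega) : nat (tn x) = x := by
  obtain ⟨n, rfl⟩ := mem_omega_iff.1 hx
  rw [tn_nat]

theorem tn_not {x : ZFSet.{0}} (hx : x ∉ ZFSet.omega) : tn x = 0 := by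
  have h : ¬ ∃ n, x = nat n := by
    rintro ⟨n, rfl⟩
    exact hx (nat_mem_omega n)
  rw [tn, dif_neg h]

variable {W : Set ZFSet.{0}}

/-- A definable operation with values in the natural numbers. -/
def NF (W : Set ZFSet.{0}) {k : ℕ} (f : (Fin k → ZFSet.{0}) → ℕ) : Prop :=
  DfnF W W fun v => nat (f v)

section

variable (hW : IsZF W) {k : ℕ} {f g : (Fin k → ZFSet.{0}) → ℕ}

include hW

theorem NF.nat (hf : NF W f) : DfnF W W fun v => Pool.Agent.W868.nat (f v) := hf

theorem NF.tail (hf : NF W f) : NF W fun w : Fin (k + 1) → ZFSet.{0} => f (Fin.tail w) :=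
  DfnF.tail (F := fun v => Pool.Agent.W868.nat (f v)) hf

theorem NF.const (n : ℕ) : NF W fun _ : Fin k → ZFSet.{0} => n := DfnF.const (hW.nat_mem n)

theorem NF.tn {F : (Fin k → ZFSet.{0}) → ZFSet.{0}} (hF : DfnF W W F) :
    NF W fun v => tn (F v) := by
  have ho := hW.infinity
  have h0 := hW.empty_mem
  refine DfnF.of_unique (R := fun y v => (F v ∈ ZFSet.omega ∧ y = F v) ∨
    (¬ F v ∈ ZFSet.omega ∧ y = ∅)) ?_ ?_
  · refine Dfn.or (Dfn.and ?_ ?_) (Dfn.and (Dfn.not ?_) ?_)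
    · exact Dfn.mem hF.tail (DfnF.const ho)
    · exact Dfn.eq (DfnF.proj 0) hF.tail
    · exact Dfn.mem hF.tail (DfnF.const ho)
    · exact Dfn.eq (DfnF.proj 0) (DfnF.const h0)
  · intro v hv
    refine ⟨hW.nat_mem _, fun y _ => ?_⟩
    show _ ↔ y = Pool.Agent.W868.nat (Pool.Agent.H635.RG.tn (F v))
    by_cases h : F v ∈ ZFSet.omega
    · rw [nat_tn h]
      simp [h]
    · rw [tn_not h]
      simp only [h, false_and, not_false_eq_true, true_and, false_or]
      exact Iff.rfl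

theorem Dfn.alln {Q : ℕ → (Fin k → ZFSet.{0}) → Prop}
    (h : Dfn W W fun w : Fin (k + 1) → ZFSet.{0} => Q (Pool.Agent.H635.RG.tn (w 0)) (Fin.tail w)) :
    Dfn W W fun v => ∀ n : ℕ, Q n v := by
  refine (hW.base.ball (Q := fun x v => Q (Pool.Agent.H635.RG.tn x) v) (DfnF.const hW.infinity)
    h).congr fun v _ => ?_
  constructor
  · intro h1 n
    have := h1 (Pool.Agent.W868.nat n) (nat_mem_omega n)
    rwa [tn_nat] at this
  · intro h1 x _
    exact h1 _

theorem Dfn.exn {Q : ℕ → (Fin k → ZFSet.{0}) → Prop}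
    (h : Dfn W W fun w : Fin (k + 1) → ZFSet.{0} => Q (Pool.Agent.H635.RG.tn (w 0)) (Fin.tail w)) :
    Dfn W W fun v => ∃ n : ℕ, Q n v := by
  refine (hW.base.bex (Q := fun x v => Q (Pool.Agent.H635.RG.tn x) v) (DfnF.const hW.infinity)
    h).congr fun v _ => ?_
  constructor
  · rintro ⟨x, _, h1⟩
    exact ⟨_, h1⟩
  · rintro ⟨n, h1⟩
    exact ⟨Pool.Agent.W868.nat n, nat_mem_omega n, by rwa [tn_nat]⟩

omit hW in
theorem Dfn.eqn (hf : NF W f) (hg : NF W g) : Dfn W W fun v => f v = g v :=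
  (Dfn.eq hf hg).congr fun v _ => ⟨fun h => nat_injective h, fun h => by rw [h]⟩

omit hW in
theorem Dfn.ltn (hf : NF W f) (hg : NF W g) : Dfn W W fun v => f v < g v :=
  (Dfn.mem hf hg).congr fun v _ => nat_mem_iff

omit hW in
theorem Dfn.len (hf : NF W f) (hg : NF W g) : Dfn W W fun v => f v ≤ g v :=
  (Dfn.ltn hg hf).not.congr fun v _ => not_lt

theorem NF.of_unique {R : ℕ → (Fin k → ZFSet.{0}) → Prop}
    (hR : Dfn W W fun w : Fin (k + 1) → ZFSet.{0} => R (Pool.Agent.H635.RG.tn (w 0)) (Fin.tail w))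
    (h : ∀ v, (∀ i, v i ∈ W) → ∀ n, R n v ↔ n = f v) : NF W f := by
  refine DfnF.of_unique (R := fun y v => y ∈ ZFSet.omega ∧ R (Pool.Agent.H635.RG.tn y) v) ?_ ?_
  · exact (Dfn.mem (DfnF.proj 0) (DfnF.const hW.infinity)).and hR
  · intro v hv
    refine ⟨hW.nat_mem _, fun y _ => ?_⟩
    constructor
    · rintro ⟨h1, h2⟩
      obtain ⟨n, rfl⟩ := mem_omega_iff.1 h1
      rw [tn_nat, h v hv] at h2
      rw [h2]
    · rintro rfl
      refine ⟨nat_mem_omega _, ?_⟩
      rw [tn_nat, h v hv]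

theorem NF.congr (hf : NF W f) (h : ∀ v, (∀ i, v i ∈ W) → f v = g v) : NF W g :=
  DfnF.congr hf fun v hv => by rw [h v hv]

open Classical in
theorem NF.ite {Q : (Fin k → ZFSet.{0}) → Prop} (hQ : Dfn W W Q) (hf : NF W f) (hg : NF W g) :
    NF W fun v => if Q v then f v else g v := by
  refine DfnF.congr (DfnF.ite hQ hf hg) fun v _ => ?_
  by_cases h : Q v
  · simp only [h, if_true]
  · simp only [h, if_false]

/-- Recursion on the natural numbers, with values in the sets. -/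
theorem dfn_natrec {A : (Fin k → ZFSet.{0}) → ZFSet.{0}}
    {S : ZFSet.{0} → ZFSet.{0} → (Fin k → ZFSet.{0}) → ZFSet.{0}}
    (hA : DfnF W W A)
    (hS : DfnF W W fun w : Fin (k + 2) → ZFSet.{0} => S (w 0) (w 1) (Fin.tail (Fin.tail w)))
    {r : (Fin k → ZFSet.{0}) → ℕ → ZFSet.{0}} (h0 : ∀ v, r v 0 = A v)
    (hs : ∀ v n, r v (n + 1) = S (Pool.Agent.W868.nat n) (r v n) v) (hf : NF W f) :
    DfnF W W fun v => r v (f v) := by
  have hB := hW.base
  have hr : ∀ v, (∀ i, v i ∈ W) → ∀ n, r v n ∈ W := by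
    intro v hv n
    induction n with
    | zero =>
      rw [h0]
      exact hA.1 v hv
    | succ n ih =>
      rw [hs]
      refine hS.1 (Fin.cons (Pool.Agent.W868.nat n) (Fin.cons (r v n) v)) fun i => ?_
      refine Fin.cases ?_ (fun i => Fin.cases ?_ (fun i => ?_) i) i
      · exact hW.nat_mem n
      · exact ih
      · exact hv i
  refine DfnF.of_unique (R := fun y v => ∃ u ∈ W, ap u ∅ = A v ∧
    (∀ m ∈ Pool.Agent.W868.nat (f v), ap u (sc m) = S m (ap u m) v) ∧
    y = ap u (Pool.Agent.W868.nat (f v))) ?_ ?_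
  · refine Dfn.ex (Q := fun u w => ap u ∅ = A (Fin.tail w) ∧
      (∀ m ∈ Pool.Agent.W868.nat (f (Fin.tail w)), ap u (sc m) = S m (ap u m) (Fin.tail w)) ∧
      w 0 = ap u (Pool.Agent.W868.nat (f (Fin.tail w)))) ?_
    refine Dfn.and ?_ (Dfn.and ?_ ?_)
    · exact Dfn.eq (hW.ap' (DfnF.proj 0) (DfnF.const hW.empty_mem)) hA.tail.tail
    · refine hB.ball (Q := fun m w => ap (w 0) (sc m) = S m (ap (w 0) m)
        (Fin.tail (Fin.tail w))) (DfnF.tail (DfnF.tail hf)) ?_
      refine Dfn.eq (hW.ap' (DfnF.proj 1) (RF.dfn_sc hB (DfnF.proj 0))) ?_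
      have h1 : DfnF W W fun w : Fin (k + 3) → ZFSet.{0} => S (w 0) (ap (w 1) (w 0))
          (Fin.tail (Fin.tail (Fin.tail w))) := by
        have h2 : Dfn W W fun w : Fin (k + 5) → ZFSet.{0} => w 0 = S (w 2) (w 1)
            (Fin.tail (Fin.tail (Fin.tail (Fin.tail (Fin.tail w))))) :=
          hS.2.comp (Fin.cons 0 (Fin.cons 2 (Fin.cons 1 fun i : Fin k =>
            i.succ.succ.succ.succ.succ)) : Fin (k + 3) → Fin (k + 5))
        refine ⟨fun w hw => ?_, ?_⟩
        · refine hS.1 (Fin.cons (w 0) (Fin.cons (ap (w 1) (w 0))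
            (Fin.tail (Fin.tail (Fin.tail w))))) fun i => ?_
          refine Fin.cases ?_ (fun i => Fin.cases ?_ (fun i => ?_) i) i
          · exact hw 0
          · exact (hW.ap' (DfnF.proj (0 : Fin 2)) (DfnF.proj 1)).1 ![w 1, w 0] fun i => by
              fin_cases i
              · exact hw 1
              · exact hw 0
          · exact hw _
        · have h3 : Dfn W W fun w : Fin (k + 4) → ZFSet.{0} => w 0 = S (w 1) (ap (w 2) (w 1))
              (Fin.tail (Fin.tail (Fin.tail (Fin.tail w)))) := by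
            refine Dfn.subst (Q := fun a w => w 0 = S (w 1) a
              (Fin.tail (Fin.tail (Fin.tail (Fin.tail w))))) ?_
              (hW.ap' (DfnF.proj 2) (DfnF.proj 1))
            exact hS.2.comp (Fin.cons 1 (Fin.cons 2 (Fin.cons 0 fun i : Fin k =>
              i.succ.succ.succ.succ.succ)) : Fin (k + 3) → Fin (k + 5))
          exact h3
      exact h1
    · exact Dfn.eq (DfnF.proj 1) (hW.ap' (DfnF.proj 0) (DfnF.tail (DfnF.tail hf)))
  · intro v hv
    refine ⟨hr v hv _, fun y _ => ?_⟩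
    constructor
    · rintro ⟨u, hu, h1, h2, rfl⟩
      have h3 : ∀ i ≤ f v, ap u (Pool.Agent.W868.nat i) = r v i := by
        intro i
        induction i with
        | zero => exact fun _ => h1.trans (h0 v).symm
        | succ i ih =>
          intro hi
          rw [hs, ← ih (by omega)]
          exact h2 _ (nat_mem_iff.2 (by omega))
      exact h3 _ le_rfl
    · rintro rfl
      refine ⟨gr (fun x => r v (Pool.Agent.H635.RG.tn x)) (Pool.Agent.W868.nat (f v + 1)), ?_,
        ?_, ?_, ?_⟩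
      · refine fin_mem hW ?_ fun z hz => ?_
        · refine Set.Finite.subset (Set.Finite.image (fun x => pair x
            (r v (Pool.Agent.H635.RG.tn x))) (RF.fi_nat (f v + 1))) ?_
          intro z hz
          obtain ⟨x, hx, rfl⟩ := mem_gr.1 hz
          exact ⟨x, hx, rfl⟩
        · obtain ⟨x, hx, rfl⟩ := mem_gr.1 hz
          obtain ⟨i, _, rfl⟩ := mem_nat.1 hx
          exact hW.pair_mem (hW.nat_mem i) (hr v hv _)
      · have h4 : (∅ : ZFSet.{0}) ∈ Pool.Agent.W868.nat (f v + 1) :=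
          nat_mem_iff (i := 0).2 (by omega)
        rw [ap_gr h4]
        have h5 : Pool.Agent.H635.RG.tn ∅ = 0 := tn_nat 0
        rw [h5, h0]
      · intro m hm
        obtain ⟨i, hi, rfl⟩ := mem_nat.1 hm
        have h4 : sc (Pool.Agent.W868.nat i) = Pool.Agent.W868.nat (i + 1) := rfl
        rw [h4, ap_gr (nat_mem_iff.2 (by omega)), ap_gr (nat_mem_iff.2 (by omega)), tn_nat,
          tn_nat, hs]
      · rw [ap_gr (nat_mem_iff.2 (by omega)), tn_nat]

/-- Recursion on the natural numbers, with values in the natural numbers. -/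
theorem NF.rec {A : (Fin k → ZFSet.{0}) → ℕ}
    {S : ℕ → ℕ → (Fin k → ZFSet.{0}) → ℕ} (hA : NF W A)
    (hS : NF W fun w : Fin (k + 2) → ZFSet.{0} => S (Pool.Agent.H635.RG.tn (w 0))
      (Pool.Agent.H635.RG.tn (w 1)) (Fin.tail (Fin.tail w)))
    {r : (Fin k → ZFSet.{0}) → ℕ → ℕ} (h0 : ∀ v, r v 0 = A v)
    (hs : ∀ v n, r v (n + 1) = S n (r v n) v) (hf : NF W f) :
    NF W fun v => r v (f v) := by
  refine dfn_natrec hW (r := fun v n => Pool.Agent.W868.nat (r v n)) (S := fun x y v =>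
    Pool.Agent.W868.nat (S (Pool.Agent.H635.RG.tn x) (Pool.Agent.H635.RG.tn y) v)) hA hS
    (fun v => by rw [h0]) (fun v n => by rw [hs, tn_nat, tn_nat]) hf

theorem NF.succ (hf : NF W f) : NF W fun v => f v + 1 :=
  RF.dfn_sc hW.base hf

theorem NF.add (hf : NF W f) (hg : NF W g) : NF W fun v => f v + g v :=
  NF.rec hW (A := f) (S := fun _ y _ => y + 1) (r := fun v n => f v + n) hf
    (NF.succ hW (NF.tn hW (DfnF.proj 1))) (fun v => rfl) (fun v n => rfl) hg

theorem NF.mul (hf : NF W f) (hg : NF W g) : NF W fun v => f v * g v :=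
  NF.rec hW (A := fun _ => 0) (S := fun _ y v => y + f v) (r := fun v n => f v * n)
    (NF.const hW 0) (NF.add hW (NF.tn hW (DfnF.proj 1)) (NF.tail hW (NF.tail hW hf)))
    (fun v => rfl) (fun v n => Nat.mul_succ _ _) hg

theorem NF.pow (hf : NF W f) (hg : NF W g) : NF W fun v => f v ^ g v :=
  NF.rec hW (A := fun _ => 1) (S := fun _ y v => y * f v) (r := fun v n => f v ^ n)
    (NF.const hW 1) (NF.mul hW (NF.tn hW (DfnF.proj 1)) (NF.tail hW (NF.tail hW hf)))
    (fun v => rfl) (fun v n => pow_succ _ _) hg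

theorem NF.sub (hf : NF W f) (hg : NF W g) : NF W fun v => f v - g v := by
  refine NF.of_unique hW (R := fun n v => (g v ≤ f v ∧ n + g v = f v) ∨ (f v < g v ∧ n = 0))
    ?_ ?_
  · refine Dfn.or (Dfn.and ?_ ?_) (Dfn.and ?_ ?_)
    · exact Dfn.len (NF.tail hW hg) (NF.tail hW hf)
    · exact Dfn.eqn (NF.add hW (NF.tn hW (DfnF.proj 0)) (NF.tail hW hg)) (NF.tail hW hf)
    · exact Dfn.ltn (NF.tail hW hf) (NF.tail hW hg)
    · exact Dfn.eqn (NF.tn hW (DfnF.proj 0)) (NF.const hW 0)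
  · intro v _ n
    omega

theorem NF.div (hf : NF W f) (hg : NF W g) : NF W fun v => f v / g v := by
  refine NF.of_unique hW (R := fun n v => (g v = 0 ∧ n = 0) ∨ (0 < g v ∧ n * g v ≤ f v ∧
    f v < (n + 1) * g v)) ?_ ?_
  · have h1 := NF.tail hW hf
    have h2 := NF.tail hW hg
    have h3 : NF W fun w : Fin (k + 1) → ZFSet.{0} => Pool.Agent.H635.RG.tn (w 0) :=
      NF.tn hW (DfnF.proj 0)
    refine Dfn.or (Dfn.and ?_ ?_) (Dfn.and ?_ (Dfn.and ?_ ?_))
    · exact Dfn.eqn h2 (NF.const hW 0)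
    · exact Dfn.eqn h3 (NF.const hW 0)
    · exact Dfn.ltn (NF.const hW 0) h2
    · exact Dfn.len (NF.mul hW h3 h2) h1
    · exact Dfn.ltn h1 (NF.mul hW (NF.succ hW h3) h2)
  · intro v _ n
    rcases Nat.eq_zero_or_pos (g v) with h | h
    · rw [h, Nat.div_zero]
      omega
    · constructor
      · rintro (⟨h1, _⟩ | ⟨_, h1, h2⟩)
        · omega
        · exact (Nat.div_eq_of_lt_le h1 h2).symm
      · rintro rfl
        exact Or.inr ⟨h, Nat.div_mul_le_self _ _, by
          have := Nat.lt_mul_div_succ (f v) h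
          rwa [mul_comm] at this⟩

theorem NF.mod (hf : NF W f) (hg : NF W g) : NF W fun v => f v % g v :=
  NF.congr hW (NF.sub hW hf (NF.mul hW hg (NF.div hW hf hg))) fun v _ => by
    have := Nat.div_add_mod (f v) (g v)
    omega

theorem NF.pair (hf : NF W f) (hg : NF W g) : NF W fun v => Nat.pair (f v) (g v) := by
  refine NF.congr hW (NF.ite hW (Dfn.ltn hf hg) (NF.add hW (NF.mul hW hg hg) hf)
    (NF.add hW (NF.add hW (NF.mul hW hf hf) hf) hg)) fun v _ => ?_
  rw [Nat.pair]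
  split_ifs <;> rfl

theorem NF.fst (hf : NF W f) : NF W fun v => (Nat.unpair (f v)).1 := by
  refine NF.of_unique hW (R := fun n v => ∃ m, Nat.pair n m = f v) ?_ ?_
  · refine Dfn.exn hW (Q := fun m w => Nat.pair (Pool.Agent.H635.RG.tn (w 0)) m =
      f (Fin.tail w)) ?_
    exact Dfn.eqn (NF.pair hW (NF.tn hW (DfnF.proj 1)) (NF.tn hW (DfnF.proj 0)))
      (NF.tail hW (NF.tail hW hf))
  · intro v _ n
    constructor
    · rintro ⟨m, h⟩
      rw [← h, Nat.unpair_pair]
    · rintro rfl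
      exact ⟨_, Nat.pair_unpair _⟩

theorem NF.snd (hf : NF W f) : NF W fun v => (Nat.unpair (f v)).2 := by
  refine NF.of_unique hW (R := fun n v => ∃ m, Nat.pair m n = f v) ?_ ?_
  · refine Dfn.exn hW (Q := fun m w => Nat.pair m (Pool.Agent.H635.RG.tn (w 0)) =
      f (Fin.tail w)) ?_
    exact Dfn.eqn (NF.pair hW (NF.tn hW (DfnF.proj 0)) (NF.tn hW (DfnF.proj 1)))
      (NF.tail hW (NF.tail hW hf))
  · intro v _ n
    constructor
    · rintro ⟨m, h⟩
      rw [← h, Nat.unpair_pair]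
    · rintro rfl
      exact ⟨_, Nat.pair_unpair _⟩

/-- The least natural number with a definable property. -/
theorem NF.inf {Q : ℕ → (Fin k → ZFSet.{0}) → Prop}
    (h : Dfn W W fun w : Fin (k + 1) → ZFSet.{0} => Q (Pool.Agent.H635.RG.tn (w 0)) (Fin.tail w)) :
    NF W fun v => sInf {n | Q n v} := by
  refine NF.of_unique hW (R := fun n v => (Q n v ∧ ∀ m, m < n → ¬ Q m v) ∨
    ((∀ m, ¬ Q m v) ∧ n = 0)) ?_ ?_
  · have h1 : Dfn W W fun w : Fin (k + 2) → ZFSet.{0} =>
        Q (Pool.Agent.H635.RG.tn (w 0)) (Fin.tail (Fin.tail w)) :=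
      h.comp (Fin.cons 0 fun i => i.succ.succ)
    refine Dfn.or (Dfn.and h ?_) (Dfn.and ?_ ?_)
    · refine Dfn.alln hW (Q := fun m w => m < Pool.Agent.H635.RG.tn (w 0) →
        ¬ Q m (Fin.tail w)) ?_
      exact (Dfn.ltn (NF.tn hW (DfnF.proj 0)) (NF.tn hW (DfnF.proj 1))).imp h1.not
    · exact Dfn.alln hW (Q := fun m w => ¬ Q m (Fin.tail w)) h1.not
    · exact Dfn.eqn (NF.tn hW (DfnF.proj 0)) (NF.const hW 0)
  · intro v _ n
    by_cases h1 : ∃ m, Q m v
    · have h2 : sInf {n | Q n v} ∈ {n | Q n v} := Nat.sInf_mem h1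
      constructor
      · rintro (⟨h3, h4⟩ | ⟨h3, _⟩)
        · refine le_antisymm ?_ (Nat.sInf_le h3)
          by_contra h5
          exact h4 _ (not_le.1 h5) h2
        · exact absurd h1.choose_spec (h3 _)
      · rintro rfl
        exact Or.inl ⟨h2, fun m hm h3 => absurd (Nat.sInf_le h3) (not_le.2 hm)⟩
    · have h2 : {n | Q n v} = ∅ := Set.eq_empty_iff_forall_notMem.2 fun m hm => h1 ⟨m, hm⟩
      rw [h2, Nat.sInf_empty]
      constructor
      · rintro (⟨h3, h4⟩ | ⟨_, h3⟩)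
        · exact absurd ⟨_, h3⟩ h1
        · exact h3
      · rintro rfl
        exact Or.inr ⟨fun m hm => h1 ⟨m, hm⟩, rfl⟩

/-- The value of a function of the model. -/
theorem NF.app {x : ℕ → ℕ} (hx : fnc x ∈ W) (hf : NF W f) : NF W fun v => x (f v) := by
  refine DfnF.congr (hW.ap' (DfnF.const hx) hf) fun v _ => ?_
  rw [ap_fnc]

/-- The value of a variable function of the model. -/
theorem NF.ap {F : (Fin k → ZFSet.{0}) → ZFSet.{0}} (hF : DfnF W W F) (hf : NF W f) :
    NF W fun v => Pool.Agent.H635.RG.tn (ap (F v) (Pool.Agent.W868.nat (f v))) :=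
  NF.tn hW (hW.ap' hF hf)

theorem fnc_mem {x : ℕ → ℕ}
    (h : NF W fun w : Fin 1 → ZFSet.{0} => x (Pool.Agent.H635.RG.tn (w 0))) : fnc x ∈ W := by
  refine fnc_mem_of hW (Q := fun a b => Pool.Agent.H635.RG.tn b =
    x (Pool.Agent.H635.RG.tn a)) ?_ ?_
  · refine Dfn.eqn (NF.tn hW (DfnF.proj 1)) ?_
    exact (DfnF.comp1 (f := fun a => Pool.Agent.W868.nat (x (Pool.Agent.H635.RG.tn a))) h
      (DfnF.proj 0))
  · intro i j
    rw [tn_nat, tn_nat]

omit hW in
/-- Composition with a definable function of one variable. -/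
theorem NF.comp1 {x : ℕ → ℕ}
    (h : NF W fun w : Fin 1 → ZFSet.{0} => x (Pool.Agent.H635.RG.tn (w 0))) (hf : NF W f) :
    NF W fun v => x (f v) := by
  refine DfnF.congr (DfnF.comp1 (f := fun a => Pool.Agent.W868.nat
    (x (Pool.Agent.H635.RG.tn a))) h hf) fun v _ => ?_
  rw [tn_nat]

omit hW in
/-- Composition with a definable function of two variables. -/
theorem NF.comp2 {x : ℕ → ℕ → ℕ}
    (h : NF W fun w : Fin 2 → ZFSet.{0} => x (Pool.Agent.H635.RG.tn (w 0))
      (Pool.Agent.H635.RG.tn (w 1))) (hf : NF W f) (hg : NF W g) :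
    NF W fun v => x (f v) (g v) := by
  refine DfnF.congr (DfnF.comp2 (f := fun a b => Pool.Agent.W868.nat
    (x (Pool.Agent.H635.RG.tn a) (Pool.Agent.H635.RG.tn b))) h hf hg) fun v _ => ?_
  rw [tn_nat, tn_nat]

omit hW in
theorem Dfn.compn1 {Q : ℕ → Prop}
    (h : Dfn W W fun w : Fin 1 → ZFSet.{0} => Q (Pool.Agent.H635.RG.tn (w 0))) (hf : NF W f) :
    Dfn W W fun v => Q (f v) := by
  refine (Dfn.comp1 (Q := fun a => Q (Pool.Agent.H635.RG.tn a)) h hf).congr fun v _ => ?_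
  rw [tn_nat]

omit hW in
theorem Dfn.compn2 {Q : ℕ → ℕ → Prop}
    (h : Dfn W W fun w : Fin 2 → ZFSet.{0} => Q (Pool.Agent.H635.RG.tn (w 0))
      (Pool.Agent.H635.RG.tn (w 1))) (hf : NF W f) (hg : NF W g) :
    Dfn W W fun v => Q (f v) (g v) := by
  refine (Dfn.comp2 (Q := fun a b => Q (Pool.Agent.H635.RG.tn a)
    (Pool.Agent.H635.RG.tn b)) h hf hg).congr fun v _ => ?_
  rw [tn_nat, tn_nat]

end

end Pool.Agent.H635.RG
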