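import Pool.Agent.H635.RG.In
import Pool.Agent.H635.RG.Def
import Pool.Agent.H635.RF.Ra

/-!
# names for functions between sets of the ground model
-/

set_option autoImplicit false
set_option linter.unreachableTactic false
set_option linter.unusedTactic false
set_option linter.unusedSectionVars false
set_option linter.unusedVariables false

namespace Pool.Agent.H635.RG

open Pool.Agent.W868 Pool.Agent.W868.GM Pool.Agent.Y588
open Pool.Agent.H635.RB (Fi dfn_fi fin_mem nat_mem_iff mem_nat nat_sub)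
open ZFSet (pair)
open Pool.Agent.H635.RF (fnc stc cyl ap_fnc fnc_mem_of mem_stc nat_mem_stc)

/-- The set `s` is a name for a function from `C` to `D`. -/
def NmG (P L C D s : ZFSet.{0}) : Prop :=
  (∀ m ∈ C, ∀ r ∈ P, ∃ r₂ ∈ P, pair r₂ r ∈ L ∧ ∃ v ∈ D, Dc P L s r₂ m v) ∧
  ∀ m ∈ C, ∀ r ∈ P, ∀ v ∈ D, ∀ v' ∈ D, Dc P L s r m v → Dc P L s r m v' → v = v'

/-- The condition `r` forces that the value at `m` is `v`, and no other value in `D`. -/
def GdG (P L D t x r m v : ZFSet.{0}) : Prop := Qmem P L (chk t (pair m v)) x r ∧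
  ∀ v' ∈ D, v' ≠ v → ∀ r' ∈ P, pair r' r ∈ L → ¬ Qmem P L (chk t (pair m v')) x r'

/-- No extension of `r` forces a value in `D` at `m`. -/
def BdG (P L D t x r m : ZFSet.{0}) : Prop :=
  ∀ r' ∈ P, pair r' r ∈ L → ∀ v ∈ D, ¬ GdG P L D t x r' m v

theorem exists_nameG {M : Set ZFSet.{0}} (hM : IsZF M) {P L G : ZFSet.{0}}
    (hP : IsForcing M P L) (hG : IsGeneric M P L G) {C D X : ZFSet.{0}} (hC : C ∈ M)
    (hD : D ∈ M) (h0 : (∅ : ZFSet.{0}) ∈ D) {h : ZFSet.{0} → ZFSet.{0}} (hX : X ∈ ext M G)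
    (hh : ∀ c ∈ C, h c ∈ D) (hXh : ∀ c ∈ C, ∀ v ∈ D, (pair c v ∈ X ↔ v = h c)) :
    ∃ σ ∈ M, σ ⊆ ZFSet.prod (ZFSet.prod C D) P ∧ NmG P L C D σ ∧
      ∀ c ∈ C, ∃ r ∈ G, Dc P L σ r c (h c) := by
  obtain ⟨Y, hYM, hY⟩ := hX
  obtain ⟨t, htG, htP, htM, htop⟩ := top_mem hM hP hG
  have hB := hM.base
  have hPM := hP.mem
  have hLM := hP.le_mem
  -- definability
  have dq : ∀ {n : ℕ} {r m v : (Fin n → ZFSet.{0}) → ZFSet.{0}}, DfnF M M r → DfnF M M m →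
      DfnF M M v → Dfn M M fun w => Qmem P L (chk t (pair (m w) (v w))) Y (r w) := by
    intro n r m v hr hm hv
    exact dfn_qmem hM hPM hLM (DfnF.comp1 (f := chk t) (dfn_chk hM htM) (hB.pair' hm hv))
      (DfnF.const hYM) hr
  have dg : ∀ {n : ℕ} {r m v : (Fin n → ZFSet.{0}) → ZFSet.{0}}, DfnF M M r → DfnF M M m →
      DfnF M M v → Dfn M M fun w => GdG P L D t Y (r w) (m w) (v w) := by
    intro n r m v hr hm hv
    unfold GdG
    refine (dq hr hm hv).and ?_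
    refine hB.ball (Q := fun v' w => v' ≠ v w → ∀ r' ∈ P, pair r' (r w) ∈ L →
      ¬ Qmem P L (chk t (pair (m w) v')) Y r') (DfnF.const hD) ?_
    refine Dfn.imp (Dfn.eq (DfnF.proj 0) hv.tail).not ?_
    refine hB.ball (Q := fun r' w => pair r' (r (Fin.tail w)) ∈ L →
      ¬ Qmem P L (chk t (pair (m (Fin.tail w)) (w 0))) Y r') (DfnF.const hPM) ?_
    exact Dfn.imp (Dfn.mem (hB.pair' (DfnF.proj 0) hr.tail.tail) (DfnF.const hLM))
      (dq (DfnF.proj 0) hm.tail.tail (DfnF.proj 1)).not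
  have db : ∀ {n : ℕ} {r m : (Fin n → ZFSet.{0}) → ZFSet.{0}}, DfnF M M r → DfnF M M m →
      Dfn M M fun w => BdG P L D t Y (r w) (m w) := by
    intro n r m hr hm
    unfold BdG
    refine hB.ball (Q := fun r' w => pair r' (r w) ∈ L → ∀ v ∈ D,
      ¬ GdG P L D t Y r' (m w) v) (DfnF.const hPM) ?_
    refine Dfn.imp (Dfn.mem (hB.pair' (DfnF.proj 0) hr.tail) (DfnF.const hLM)) ?_
    refine hB.ball (Q := fun v w => ¬ GdG P L D t Y (w 0) (m (Fin.tail w)) v)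
      (DfnF.const hD) ?_
    exact (dg (DfnF.proj 1) hm.tail.tail (DfnF.proj 0)).not
  set σ : ZFSet.{0} := ZFSet.sep (fun z => GdG P L D t Y (sn z) (fs (fs z)) (sn (fs z)) ∨
    (BdG P L D t Y (sn z) (fs (fs z)) ∧ sn (fs z) = ∅))
    (ZFSet.prod (ZFSet.prod C D) P) with hσ
  have hσM : σ ∈ M := by
    have h1 : DfnF M M fun w : Fin 1 → ZFSet.{0} => ZFSet.sep (fun z =>
        GdG P L D t Y (sn z) (fs (fs z)) (sn (fs z)) ∨
        (BdG P L D t Y (sn z) (fs (fs z)) ∧ sn (fs z) = ∅)) (w 0) := by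
      refine hM.sep' (Q := fun z _ => GdG P L D t Y (sn z) (fs (fs z)) (sn (fs z)) ∨
        (BdG P L D t Y (sn z) (fs (fs z)) ∧ sn (fs z) = ∅)) (DfnF.proj 0) ?_
      refine (dg (hM.sn' (DfnF.proj 0)) (hM.fs' (hM.fs' (DfnF.proj 0)))
        (hM.sn' (hM.fs' (DfnF.proj 0)))).or ?_
      refine (db (hM.sn' (DfnF.proj 0)) (hM.fs' (hM.fs' (DfnF.proj 0)))).and ?_
      exact Dfn.eq (hM.sn' (hM.fs' (DfnF.proj 0))) (DfnF.const hM.empty_mem)
    exact h1.1 (fun _ => ZFSet.prod (ZFSet.prod C D) P) fun _ =>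
      hM.prod_mem (hM.prod_mem hC hD) hPM
  have memσ : ∀ m v r, pair (pair m v) r ∈ σ ↔ m ∈ C ∧ v ∈ D ∧ r ∈ P ∧
      (GdG P L D t Y r m v ∨ (BdG P L D t Y r m ∧ v = ∅)) := by
    intro m v r
    rw [hσ, ZFSet.mem_sep, ZFSet.pair_mem_prod, ZFSet.pair_mem_prod, sn_pair, fs_pair, fs_pair,
      sn_pair]
    tauto
  have gmono : ∀ r ∈ P, ∀ r' ∈ P, pair r' r ∈ L → ∀ m v, GdG P L D t Y r m v →
      GdG P L D t Y r' m v := by
    intro r hr r' hr' h m v hg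
    exact ⟨Qmem.mono hP hr hg.1 hr' h, fun v' hv' hne r'' hr'' h' =>
      hg.2 v' hv' hne r'' hr'' (hP.trans r hr r' hr' r'' hr'' h' h)⟩
  have bmono : ∀ r ∈ P, ∀ r' ∈ P, pair r' r ∈ L → ∀ m, BdG P L D t Y r m →
      BdG P L D t Y r' m := by
    intro r hr r' hr' h m hb r'' hr'' h' v hv
    exact hb r'' hr'' (hP.trans r hr r' hr' r'' hr'' h' h) v hv
  have dc : ∀ r ∈ P, ∀ m ∈ C, ∀ v ∈ D, (Dc P L σ r m v ↔
      GdG P L D t Y r m v ∨ (BdG P L D t Y r m ∧ v = ∅)) := by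
    intro r hr m hm v hv
    unfold Dc
    constructor
    · rintro ⟨q, hq, h1, h2⟩
      rcases ((memσ _ _ _).1 h1).2.2.2 with h3 | ⟨h3, h4⟩
      · exact Or.inl (gmono q hq r hr h2 _ _ h3)
      · exact Or.inr ⟨bmono q hq r hr h2 _ h3, h4⟩
    · intro h
      exact ⟨r, hr, (memσ _ _ _).2 ⟨hm, hv, hr, h⟩, hP.refl r hr⟩
  refine ⟨σ, hσM, fun z hz => (ZFSet.mem_sep.1 hz).1, ⟨?_, ?_⟩, ?_⟩
  · intro m hm r hr
    by_cases h : ∃ r' ∈ P, pair r' r ∈ L ∧ ∃ v ∈ D, GdG P L D t Y r' m v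
    · obtain ⟨r', h1, h2, v, hv, h3⟩ := h
      exact ⟨r', h1, h2, v, hv, (dc r' h1 m hm v hv).2 (Or.inl h3)⟩
    · refine ⟨r, hr, hP.refl r hr, ∅, h0, (dc r hr m hm ∅ h0).2
        (Or.inr ⟨fun r' hr' h1 v hv h2 => h ⟨r', hr', h1, v, hv, h2⟩, rfl⟩)⟩
  · intro m hm r hr v hv v' hv' h h'
    rw [dc r hr m hm v hv] at h
    rw [dc r hr m hm v' hv'] at h'
    rcases h with h | ⟨h, h2⟩
    · rcases h' with h' | ⟨h', h3⟩
      · by_contra hne
        exact h.2 v' hv' (Ne.symm hne) r hr (hP.refl r hr) h'.1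
      · exact absurd h (h' r hr (hP.refl r hr) v hv)
    · rcases h' with h' | ⟨h', h3⟩
      · exact absurd h' (h r hr (hP.refl r hr) v' hv')
      · rw [h2, h3]
  · intro c hc
    set v := h c with hv
    have hvo : v ∈ D := hh c hc
    have hvM : v ∈ M := hM.trans _ hD _ hvo
    have hnM : c ∈ M := hM.trans _ hC _ hc
    have hd : Dfn M M fun w : Fin 1 → ZFSet.{0} => GdG P L D t Y (w 0) c v ∨
        (∃ v' ∈ D, v' ≠ v ∧ Qmem P L (chk t (pair c v')) Y (w 0)) ∨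
        (∀ r' ∈ P, pair r' (w 0) ∈ L → ¬ Qmem P L (chk t (pair c v)) Y r') := by
      refine (dg (DfnF.proj 0) (DfnF.const hnM) (DfnF.const hvM)).or (Dfn.or ?_ ?_)
      · refine hB.bex (Q := fun v' w => v' ≠ v ∧ Qmem P L (chk t (pair c v')) Y (w 0))
          (DfnF.const hD) ?_
        exact (Dfn.eq (DfnF.proj 0) (DfnF.const hvM)).not.and
          (dq (DfnF.proj 1) (DfnF.const hnM) (DfnF.proj 0))
      · refine hB.ball (Q := fun r' w => pair r' (w 0) ∈ L →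
          ¬ Qmem P L (chk t (pair c v)) Y r') (DfnF.const hPM) ?_
        exact Dfn.imp (Dfn.mem (hB.pair' (DfnF.proj 0) (DfnF.proj 1)) (DfnF.const hLM))
          (dq (DfnF.proj 0) (DfnF.const hnM) (DfnF.const hvM)).not
    obtain ⟨r, hrG, hr⟩ := gen_dense hM hP hG (Q := fun r => GdG P L D t Y r c v ∨
        (∃ v' ∈ D, v' ≠ v ∧ Qmem P L (chk t (pair c v')) Y r) ∨
        (∀ r' ∈ P, pair r' r ∈ L → ¬ Qmem P L (chk t (pair c v)) Y r')) hd (by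
      intro q hq
      by_cases h1 : ∃ r ∈ P, pair r q ∈ L ∧ ∃ v' ∈ D, v' ≠ v ∧
          Qmem P L (chk t (pair c v')) Y r
      · obtain ⟨r, h2, h3, h4⟩ := h1
        exact ⟨r, h2, h3, Or.inr (Or.inl h4)⟩
      · by_cases h2 : ∃ r ∈ P, pair r q ∈ L ∧ Qmem P L (chk t (pair c v)) Y r
        · obtain ⟨r, h3, h4, h5⟩ := h2
          refine ⟨r, h3, h4, Or.inl ⟨h5, fun v' hv' hne r' hr' h6 h7 => h1 ⟨r', hr',
            hP.trans q hq r h3 r' hr' h6 h4, v', hv', hne, h7⟩⟩⟩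
        · exact ⟨q, hq, hP.refl q hq, Or.inr (Or.inr fun r' hr' h3 h4 => h2 ⟨r', hr', h3, h4⟩)⟩)
    have hrP := hG.sub hrG
    refine ⟨r, hrG, (dc r hrP _ hc v hvo).2 ?_⟩
    have hev : ∀ v', ev G (chk t (pair c v')) = pair c v' := fun v' => ev_chk htG _
    rcases hr with h | ⟨v', hv', hne, h⟩ | h
    · exact Or.inl h
    · exfalso
      have hcM : chk t (pair c v') ∈ M := chk_mem hM htM (hM.pair_mem hnM
        (hM.trans _ hD _ hv'))
      have h1 := (ev_mem_iff hM hP hG hcM hYM).2 ⟨r, hrG, h⟩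
      rw [hev, hY] at h1
      exact hne ((hXh c hc v' hv').1 h1)
    · exfalso
      have hcM : chk t (pair c v) ∈ M := chk_mem hM htM (hM.pair_mem hnM hvM)
      have h1 : ev G (chk t (pair c v)) ∈ ev G Y := by
        rw [hev, hY]
        exact (hXh c hc v hvo).2 rfl
      obtain ⟨r', h2, h3⟩ := (ev_mem_iff hM hP hG hcM hYM).1 h1
      obtain ⟨q, h4, h5, h6⟩ := hG.dir r hrG r' h2
      exact h q (hG.sub h4) h5 (Qmem.mono hP (hG.sub h2) h3 (hG.sub h4) h6)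

/-- The first uncountable cardinal of `M` is regular in the extension, for functions on the
natural numbers. -/
theorem reg_aleph1 {M : Set ZFSet.{0}} (hM : IsZF M) {π : Par} (hπ : POk M π)
    (hE : Ct M π.E) {e : ZFSet.{0} → ZFSet.{0}} (hg : GC M e) (hx : PAx π)
    {γ G : ZFSet.{0}} (hγM : γ ∈ M) (hγ : γ.IsOrdinal)
    (hG : IsGeneric M (PP M π γ) (LL M π γ) G) {o : ZFSet.{0}} (ho : IsAleph1 M o)
    {H : ZFSet.{0} → ZFSet.{0}}
    (hH : DfnF (ext M G) (ext M G) fun w : Fin 1 → ZFSet.{0} => H (w 0))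
    (hHo : ∀ n : ℕ, H (nat n) ∈ o) : ∃ δ ∈ o, ∀ n : ℕ, H (nat n) ∈ δ := by
  have hB := hM.base
  have hW := zf_G hM hπ hg hγM hγ hG
  have hPM := PP_mem hM hπ hγM
  have hLM := LL_mem hM hπ hγM
  have hX : gr H ZFSet.omega ∈ ext M G :=
    hW.im_mem hW.infinity (hW.base.pair' (DfnF.proj 0) hH)
  have hHo' : ∀ c ∈ ZFSet.omega, H c ∈ o := by
    intro c hc
    obtain ⟨n, rfl⟩ := mem_omega_iff.1 hc
    exact hHo n
  obtain ⟨σ, hσM, -, ⟨-, huniq⟩, hdec⟩ := exists_nameG hM (isForcing_PP hM hπ hγM hγ) hG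
    (C := ZFSet.omega) (D := o) hM.infinity ho.1 (zero_lt hM hg ho) (h := H) hX hHo' (by
      intro c hc v hv
      rw [pair_mem_gr]
      exact ⟨fun h => h.2, fun h => ⟨hc, h⟩⟩)
  set R : ZFSet.{0} → ZFSet.{0} := fun m => ZFSet.sep (fun v => ∃ r ∈ PP M π γ,
    Dc (PP M π γ) (LL M π γ) σ r m v) o with hR
  have hRdf : DfnF M M fun w : Fin 1 → ZFSet.{0} => R (w 0) := by
    refine hM.sep' (Q := fun v w => ∃ r ∈ PP M π γ, Dc (PP M π γ) (LL M π γ) σ r (w 0) v)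
      (DfnF.const ho.1) ?_
    refine hB.bex (Q := fun r w => Dc (PP M π γ) (LL M π γ) σ r (w 1) (w 0))
      (DfnF.const hPM) ?_
    exact dfn_Dc hM (DfnF.const hPM) (DfnF.const hLM) (DfnF.const hσM) (DfnF.proj 0)
      (DfnF.proj 2) (DfnF.proj 1)
  have hRc : ∀ m ∈ ZFSet.omega, Ct M (R m) := by
    intro m hm
    have hmM := hM.trans _ hM.infinity _ hm
    have hRM : R m ∈ M := hRdf.1 (fun _ => m) fun _ => hmM
    by_contra hc
    set F : ZFSet.{0} → ZFSet.{0} := fun v => chs M e fun r => r ∈ PP M π γ ∧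
      Dc (PP M π γ) (LL M π γ) σ r m v with hF
    have hFs : ∀ v ∈ R m, F v ∈ PP M π γ ∧ Dc (PP M π γ) (LL M π γ) σ (F v) m v := by
      intro v hv
      obtain ⟨r, hr, h1⟩ := (ZFSet.mem_sep.1 hv).2
      exact (chs_spec (C := M) (e := e) (P := fun r => r ∈ PP M π γ ∧
        Dc (PP M π γ) (LL M π γ) σ r m v) ⟨r, hM.trans _ hPM _ hr, hr, h1⟩).2
    have hFd : DfnF M M fun w : Fin 1 → ZFSet.{0} => F (w 0) := by
      refine hM.chs' hg (Q := fun r w => r ∈ PP M π γ ∧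
        Dc (PP M π γ) (LL M π γ) σ r m (w 0)) ?_
      exact (Dfn.mem (DfnF.proj 0) (DfnF.const hPM)).and
        (dfn_Dc hM (DfnF.const hPM) (DfnF.const hLM) (DfnF.const hσM) (DfnF.proj 0)
          (DfnF.const hmM) (DfnF.proj 1))
    obtain ⟨v, hv, v', hv', hne, q, hq, h1, h2⟩ := ccc hM hπ hE hg hx hγM hγ hRM hc hFd
      fun v hv => (hFs v hv).1
    refine hne (huniq m hm q hq v (ZFSet.mem_sep.1 hv).1 v' (ZFSet.mem_sep.1 hv').1 ?_ ?_)
    · exact Db.mono hM hγ (hFs v hv).1 hq h1 (hFs v hv).2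
    · exact Db.mono hM hγ (hFs v' hv').1 hq h2 (hFs v' hv').2
  have hU : ZFSet.sUnion (im R ZFSet.omega) ∈ M := hM.union _ (hM.im_mem hM.infinity hRdf)
  obtain ⟨δ, hδ, h1⟩ := bdd_of_ct hM hg ho hU (by
    intro β hβ
    obtain ⟨y, hy, h1⟩ := ZFSet.mem_sUnion.1 hβ
    obtain ⟨m, hm, rfl⟩ := mem_im.1 hy
    exact (ZFSet.mem_sep.1 h1).1) (ct_iUnion hM hg hM.infinity (ct_omega hM) hRdf hRc)
  refine ⟨δ, hδ, fun n => ?_⟩
  obtain ⟨r, hrG, hr⟩ := hdec (nat n) (nat_mem_omega n)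
  exact h1 (ZFSet.mem_sUnion.2 ⟨_, mem_im.2 ⟨nat n, nat_mem_omega n, rfl⟩,
    ZFSet.mem_sep.2 ⟨hHo n, r, hG.sub hrG, hr⟩⟩)

end Pool.Agent.H635.RG
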