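import Pool.Agent.H635.RG.Bt

/-!
# the union of a family in the ideal of the identity
-/

set_option autoImplicit false
set_option linter.unreachableTactic false
set_option linter.unusedTactic false
set_option linter.unusedSectionVars false
set_option linter.unusedVariables false

namespace Pool.Agent.H635.RG

open Pool.Agent.W868 Pool.Agent.W868.GM Pool.Agent.Y588
open Pool.Agent.H635.RB (Fi dfn_fi fin_mem nat_mem_iff mem_nat nat_sub)
open ZFSet (pair)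
open Pool.Agent.H635.RF (fnc stc cyl ap_fnc fnc_mem_of mem_stc nat_mem_stc)

section

variable {W : Set ZFSet.{0}} (hW : IsZF W) {k : ℕ} {f g : (Fin k → ZFSet.{0}) → ℕ}

include hW

theorem paSqrt (hf : NF W f) : NF W fun v => Nat.sqrt (f v) := by
  have h0 : NF W fun w : Fin (k + 1) → ZFSet.{0} => tn (w 0) := NF.tn hW (DfnF.proj 0)
  refine NF.of_unique hW (R := fun n v => n * n ≤ f v ∧ f v < (n + 1) * (n + 1)) ?_ ?_
  · exact Dfn.and (Dfn.len (NF.mul hW h0 h0) (NF.tail hW hf))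
      (Dfn.ltn (NF.tail hW hf) (NF.mul hW (NF.succ hW h0) (NF.succ hW h0)))
  · intro v _ n
    exact Nat.eq_sqrt.symm

theorem paMin (hf : NF W f) (hg : NF W g) : NF W fun v => min (f v) (g v) := by
  refine NF.congr hW (NF.ite hW (Dfn.len hf hg) hf hg) fun v _ => ?_
  by_cases h : f v ≤ g v
  · rw [if_pos h, min_eq_left h]
  · rw [if_neg h, min_eq_right (not_le.1 h).le]

end

/-- The digit of `bb m` with number `i - m ^ 2`, for `m` the square root of `i`. -/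
def paY (bb : ℕ → ℕ) (i : ℕ) : ℕ :=
  bb (Nat.sqrt i) / b0 (Nat.sqrt i) ^ (i - Nat.sqrt i * Nat.sqrt i) % b0 (Nat.sqrt i)

/-- The length that is coded by the digit. -/
def paL (bb : ℕ → ℕ) (i : ℕ) : ℕ := paY bb i % (Nat.sqrt i ^ Nat.sqrt i + 1)

/-- The string that is coded by the digit. -/
def paU (bb : ℕ → ℕ) (i : ℕ) : ℕ := paY bb i / (Nat.sqrt i ^ Nat.sqrt i + 1)

/-- The condition on the digit. -/
def paQ (h bb : ℕ → ℕ) (i : ℕ) : Prop :=
  i - Nat.sqrt i * Nat.sqrt i < Nat.sqrt i ∧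
    ∀ j : ℕ, j ≤ Nat.sqrt i → h j ≤ Nat.sqrt i → Nat.sqrt i ^ j ≤ paL bb i

open Classical in
/-- The sequence that covers. -/
noncomputable def paT (h bb : ℕ → ℕ) (i : ℕ) : ℕ × Finset ℕ :=
  if paQ h bb i then (paL bb i, bts (paU bb i)) else (i ^ i, ∅)

theorem paT_ll (h bb : ℕ → ℕ) : Ll id (fun m => (paT h bb m).1) := by
  intro k
  refine ⟨(max (h (4 * k)) (max (4 * k) 2)) ^ 2, fun i hi => ?_⟩
  show i ^ k ≤ (paT h bb i).1
  have hm : max (h (4 * k)) (max (4 * k) 2) ≤ Nat.sqrt i := Nat.le_sqrt'.2 hi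
  have h1 : h (4 * k) ≤ Nat.sqrt i := (le_max_left _ _).trans hm
  have h2 : 4 * k ≤ Nat.sqrt i := ((le_max_left _ _).trans (le_max_right _ _)).trans hm
  have h3 : 2 ≤ Nat.sqrt i := ((le_max_right _ _).trans (le_max_right _ _)).trans hm
  have h4 : Nat.sqrt i ≤ i := Nat.sqrt_le_self i
  unfold paT
  split_ifs with hy
  · have h5 := hy.2 (4 * k) h2 h1
    have h6 : i < (Nat.sqrt i + 1) * (Nat.sqrt i + 1) := Nat.lt_succ_sqrt i
    refine le_trans ?_ h5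
    rw [pow_mul]
    refine Nat.pow_le_pow_left (h6.le.trans ?_) k
    generalize Nat.sqrt i = m at h3
    have h7 : m + 1 ≤ m * m := by nlinarith
    calc (m + 1) * (m + 1) ≤ (m * m) * (m * m) := Nat.mul_le_mul h7 h7
      _ = m ^ 4 := by ring
  · exact Nat.pow_le_pow_right (by omega) (by omega)

theorem paT_mem {W : Set ZFSet.{0}} (hW : IsZF W) {h bb : ℕ → ℕ} (hh : fnc h ∈ W)
    (hbb : fnc bb ∈ W) : sgc (paT h bb) ∈ W := by
  rw [sgc_iff hW]
  refine fnc_mem hW ?_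
  have n0 : NF W fun w : Fin 1 → ZFSet.{0} => tn (w 0) := NF.tn hW (DfnF.proj 0)
  have nm : NF W fun w : Fin 1 → ZFSet.{0} => Nat.sqrt (tn (w 0)) := paSqrt hW n0
  have nc : NF W fun w : Fin 1 → ZFSet.{0} => tn (w 0) - Nat.sqrt (tn (w 0)) *
      Nat.sqrt (tn (w 0)) := NF.sub hW n0 (NF.mul hW nm nm)
  have nb : NF W fun w : Fin 1 → ZFSet.{0} => b0 (Nat.sqrt (tn (w 0))) := NF.b0 hW nm
  have ny : NF W fun w : Fin 1 → ZFSet.{0} => paY bb (tn (w 0)) :=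
    NF.mod hW (NF.div hW (NF.app hW hbb nm) (NF.pow hW nb nc)) nb
  have np : NF W fun w : Fin 1 → ZFSet.{0} => Nat.sqrt (tn (w 0)) ^ Nat.sqrt (tn (w 0)) + 1 :=
    NF.succ hW (NF.pow hW nm nm)
  have nl : NF W fun w : Fin 1 → ZFSet.{0} => paL bb (tn (w 0)) := NF.mod hW ny np
  have nu : NF W fun w : Fin 1 → ZFSet.{0} => paU bb (tn (w 0)) := NF.div hW ny np
  have nQ : Dfn W W fun w : Fin 1 → ZFSet.{0} => paQ h bb (tn (w 0)) := by
    refine Dfn.and (Dfn.ltn nc nm) ?_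
    refine Dfn.alln hW (Q := fun j (w : Fin 1 → ZFSet.{0}) => j ≤ Nat.sqrt (tn (w 0)) →
      h j ≤ Nat.sqrt (tn (w 0)) → Nat.sqrt (tn (w 0)) ^ j ≤ paL bb (tn (w 0))) ?_
    have j0 : NF W fun w : Fin 2 → ZFSet.{0} => tn (w 0) := NF.tn hW (DfnF.proj 0)
    have nm' := NF.tail hW nm
    exact Dfn.imp (Dfn.len j0 nm') (Dfn.imp (Dfn.len (NF.app hW hh j0) nm')
      (Dfn.len (NF.pow hW nm' j0) (NF.tail hW nl)))
  refine NF.congr hW (NF.ite hW nQ (NF.pair hW nl nu)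
    (NF.pair hW (NF.pow hW n0 n0) (NF.const hW 0))) fun w _ => ?_
  unfold cs paT
  by_cases hq : paQ h bb (tn (w 0))
  · simp only [hq, if_true, bc_bts]
  · simp only [hq, if_false]
    rfl

theorem paC {L L' : ℕ} {t : Finset ℕ} (hL : L' ≤ L) {z : Set ℕ} (hz : z ∈ cyl (L, t)) :
    z ∈ cyl (L', bts (bc t % 2 ^ L')) := by
  intro j hj
  have hj' : j < L' := hj
  have h1 : j ∈ z ↔ j ∈ t := hz j (hj'.trans_le hL)
  rw [h1]
  show j ∈ t ↔ j ∈ bts (bc t % 2 ^ L')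
  have h2 : j ∈ t ↔ j ∈ bts (bc t) := by rw [bts_bc]
  rw [h2, mem_bts, mem_bts]
  have h3 : (bc t % 2 ^ L').testBit j = (bc t).testBit j := by
    rw [Nat.testBit_mod_two_pow]
    simp [hj']
  rw [Nat.testBit_eq_decide_div_mod_eq, Nat.testBit_eq_decide_div_mod_eq] at h3
  exact (decide_eq_decide.1 h3).symm

theorem partA {W W' : Set ZFSet.{0}} (hW : IsZF W) (hW' : IsZF W') {e : ℕ → ℕ}
    (he : fnc e ∈ W) (hV : ∀ n, (e n).unpair.1 = n)
    (hA : ∀ v : ℕ → ℕ, fnc v ∈ W' → ∃ n₀, ∀ n ≥ n₀, AlR (e n) (v n)) :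
    ∃ τ : ℕ → ℕ × Finset ℕ, sgc τ ∈ W ∧ Ll id (fun m => (τ m).1) ∧
      ∀ σ : ℕ → ℕ × Finset ℕ, fnc (cs σ) ∈ W' → Ll id (fun m => (σ m).1) →
        lims σ ⊆ lims τ := by
  obtain ⟨h, hh⟩ : ∃ h : ℕ → ℕ, ∀ n, h n = (e n).unpair.2.unpair.1 := ⟨_, fun _ => rfl⟩
  obtain ⟨bb, hbb⟩ : ∃ bb : ℕ → ℕ, ∀ n, bb n = (e n).unpair.2.unpair.2 := ⟨_, fun _ => rfl⟩
  have mh : fnc h ∈ W := by
    refine fnc_mem hW (NF.congr hW (NF.fst hW (NF.snd hW (NF.app hW he
      (NF.tn hW (DfnF.proj 0))))) fun w _ => ?_)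
    rw [hh]
  have mb : fnc bb ∈ W := by
    refine fnc_mem hW (NF.congr hW (NF.snd hW (NF.snd hW (NF.app hW he
      (NF.tn hW (DfnF.proj 0))))) fun w _ => ?_)
    rw [hbb]
  refine ⟨paT h bb, paT_mem hW mh mb, paT_ll h bb, ?_⟩
  intro σ hσ hl
  -- the code of the truncated strings
  obtain ⟨l, hl'⟩ : ∃ l : ℕ → ℕ, ∀ m, l m = min (σ m).1 (m ^ m) := ⟨_, fun _ => rfl⟩
  obtain ⟨u, hu'⟩ : ∃ u : ℕ → ℕ, ∀ m, u m = bc (σ m).2 % 2 ^ l m := ⟨_, fun _ => rfl⟩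
  obtain ⟨x, hx⟩ : ∃ x : ℕ → ℕ, ∀ m, x m = l m + (m ^ m + 1) * u m := ⟨_, fun _ => rfl⟩
  have n0 : NF W' fun w : Fin 1 → ZFSet.{0} => tn (w 0) := NF.tn hW' (DfnF.proj 0)
  have nσ1 : NF W' fun w : Fin 1 → ZFSet.{0} => (σ (tn (w 0))).1 := by
    refine NF.congr hW' (NF.fst hW' (NF.app hW' hσ n0)) fun w _ => ?_
    unfold cs
    rw [Nat.unpair_pair]
  have nσ2 : NF W' fun w : Fin 1 → ZFSet.{0} => bc (σ (tn (w 0))).2 := by
    refine NF.congr hW' (NF.snd hW' (NF.app hW' hσ n0)) fun w _ => ?_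
    unfold cs
    rw [Nat.unpair_pair]
  have nl : NF W' fun w : Fin 1 → ZFSet.{0} => l (tn (w 0)) := by
    refine NF.congr hW' (paMin hW' nσ1 (NF.pow hW' n0 n0)) fun w _ => ?_
    rw [hl']
  have nu : NF W' fun w : Fin 1 → ZFSet.{0} => u (tn (w 0)) := by
    refine NF.congr hW' (NF.mod hW' nσ2 (NF.pow hW' (NF.const hW' 2) nl)) fun w _ => ?_
    rw [hu']
  have nx : NF W' fun w : Fin 1 → ZFSet.{0} => x (tn (w 0)) := by
    refine NF.congr hW' (NF.add hW' nl (NF.mul hW' (NF.succ hW' (NF.pow hW' n0 n0)) nu))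
      fun w _ => ?_
    rw [hx]
  have hlm : ∀ m, l m < m ^ m + 1 := fun m => by
    rw [hl']
    exact Nat.lt_succ_of_le (min_le_right _ _)
  have hxb : ∀ m, x m < b0 m := by
    intro m
    have h1 : u m < 2 ^ l m := by
      rw [hu']
      exact Nat.mod_lt _ (by positivity)
    have h2 : (2 : ℕ) ^ l m ≤ 2 ^ (m ^ m) :=
      Nat.pow_le_pow_right (by norm_num) (Nat.lt_succ_iff.1 (hlm m))
    have h3 := hlm m
    rw [hx]
    unfold b0
    have h4 : u m + 1 ≤ 2 ^ (m ^ m) := by omega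
    calc l m + (m ^ m + 1) * u m < (m ^ m + 1) + (m ^ m + 1) * u m := by omega
      _ = (m ^ m + 1) * (u m + 1) := by ring
      _ ≤ (m ^ m + 1) * 2 ^ (m ^ m) := Nat.mul_le_mul_left _ h4
  -- the slalom
  obtain ⟨n₁, hn₁⟩ := hA (fun n => 2 * x n + 1) (fnc_mem hW' (NF.succ hW'
    (NF.mul hW' (NF.const hW' 2) nx)))
  have k1 : ∀ n ≥ n₁, inS n (b0 n) (bb n) (x n) := by
    intro n hn
    have h1 := (hn₁ n hn).2 (by omega)
    have h2 : (2 * x n + 1) / 2 = x n := by omega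
    rw [h2, hV, ← hbb] at h1
    exact h1 (hxb n)
  -- the bound
  obtain ⟨g, hg⟩ : ∃ g : ℕ → ℕ, ∀ j, g j = sInf {m | ∀ i, m ≤ i → i ^ j ≤ (σ i).1} :=
    ⟨_, fun _ => rfl⟩
  have hg1 : ∀ j i, g j ≤ i → i ^ j ≤ (σ i).1 := by
    intro j
    have h1 : g j ∈ {m | ∀ i, m ≤ i → i ^ j ≤ (σ i).1} := by
      rw [hg]
      refine Nat.sInf_mem ?_
      obtain ⟨m, hm⟩ := hl j
      exact ⟨m, fun i hi => hm i hi⟩
    exact h1
  have ng : NF W' fun w : Fin 1 → ZFSet.{0} => g (tn (w 0)) := by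
    have h1 : NF W' fun w : Fin 1 → ZFSet.{0} => sInf {m | ∀ i, m ≤ i →
        i ^ tn (w 0) ≤ (σ i).1} := by
      refine NF.inf hW' (Q := fun m w => ∀ i, m ≤ i → i ^ tn (w 0) ≤ (σ i).1) ?_
      refine Dfn.alln hW' (Q := fun i (w : Fin 2 → ZFSet.{0}) => tn (w 0) ≤ i →
        i ^ tn (Fin.tail w 0) ≤ (σ i).1) ?_
      have j0 : NF W' fun w : Fin 3 → ZFSet.{0} => tn (w 0) := NF.tn hW' (DfnF.proj 0)
      have j1 : NF W' fun w : Fin 3 → ZFSet.{0} => tn (w 1) := NF.tn hW' (DfnF.proj 1)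
      have j2 : NF W' fun w : Fin 3 → ZFSet.{0} => tn (w 2) := NF.tn hW' (DfnF.proj 2)
      exact Dfn.imp (Dfn.len j1 j0) (Dfn.len (NF.pow hW' j0 j2)
        (NF.comp1 (x := fun i => (σ i).1) nσ1 j0))
    refine NF.congr hW' h1 fun w _ => ?_
    rw [hg]
  obtain ⟨n₂, hn₂⟩ := hA (fun n => 2 * g n) (fnc_mem hW' (NF.mul hW' (NF.const hW' 2) ng))
  have k2 : ∀ n ≥ n₂, g n ≤ h n := by
    intro n hn
    have h1 := (hn₂ n hn).1 (by omega)
    have h2 : (2 * g n) / 2 = g n := by omega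
    rw [h2, ← hh] at h1
    exact h1
  -- the covering
  intro z hz m₀
  obtain ⟨m, hm, hzm⟩ := hz (max (max m₀ 1) (max n₁ ((Finset.range n₂).sup g)))
  have a1 : m₀ ≤ m := ((le_max_left _ _).trans (le_max_left _ _)).trans hm
  have a2 : 1 ≤ m := ((le_max_right _ _).trans (le_max_left _ _)).trans hm
  have a3 : n₁ ≤ m := ((le_max_left _ _).trans (le_max_right _ _)).trans hm
  have a4 : (Finset.range n₂).sup g ≤ m := ((le_max_right _ _).trans (le_max_right _ _)).trans hm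
  obtain ⟨c, hc, hcx⟩ := k1 m a3
  have hs : Nat.sqrt (m * m + c) = m := Nat.sqrt_add_eq m (by omega)
  refine ⟨m * m + c, ?_, ?_⟩
  · have : m ≤ m * m := Nat.le_mul_self m
    omega
  · have b1 : paY bb (m * m + c) = x m := by
      unfold paY
      rw [hs, Nat.add_sub_cancel_left]
      exact hcx
    have b2 : paL bb (m * m + c) = l m := by
      unfold paL
      rw [b1, hs, hx, Nat.add_mul_mod_self_left]
      exact Nat.mod_eq_of_lt (hlm m)
    have b3 : paU bb (m * m + c) = u m := by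
      unfold paU
      rw [b1, hs, hx, Nat.add_mul_div_left _ _ (Nat.succ_pos _), Nat.div_eq_of_lt (hlm m),
        Nat.zero_add]
    have b4 : paQ h bb (m * m + c) := by
      unfold paQ
      rw [hs, b2, Nat.add_sub_cancel_left]
      refine ⟨hc, fun j hj hhj => ?_⟩
      rw [hl']
      refine le_min (hg1 j m ?_) (Nat.pow_le_pow_right a2 hj)
      rcases lt_or_ge j n₂ with h5 | h5
      · exact (Finset.le_sup (Finset.mem_range.2 h5)).trans a4
      · exact (k2 j h5).trans hhj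
    have b5 : paT h bb (m * m + c) = (l m, bts (u m)) := by
      unfold paT
      rw [if_pos b4, b2, b3]
    rw [b5, hu']
    refine paC (L := (σ m).1) ?_ hzm
    rw [hl']
    exact min_le_left _ _

end Pool.Agent.H635.RG
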