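import Pool.Agent.H635.RG.Fm

/-!
# the union of the family is not in the ideal
-/

set_option autoImplicit false
set_option linter.unreachableTactic false
set_option linter.unusedTactic false
set_option linter.unusedSectionVars false
set_option linter.unusedVariables false

namespace Pool.Agent.H635.RG

open Pool.Agent.W868 Pool.Agent.W868.GM Pool.Agent.Y588
open Pool.Agent.H635.RB (Fi dfn_fi fin_mem nat_mem_iff mem_nat nat_sub)
open ZFSet (pair)
open Pool.Agent.H635.RF (fnc stc cyl ap_fnc fnc_mem_of mem_stc nat_mem_stc)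

namespace PB

/-- The number with the digits `y 0, y 1, ...`, `M` digits in base `D`. -/
def num (D : ℕ) (y : ℕ → ℕ) : ℕ → ℕ
  | 0 => 0
  | c + 1 => num D y c + y c * D ^ c

theorem num_lt {D : ℕ} {y : ℕ → ℕ} (hy : ∀ c, y c < D) (M : ℕ) : num D y M < D ^ M := by
  induction M with
  | zero => exact Nat.one_pos
  | succ M ih =>
    have h1 : (y M + 1) * D ^ M ≤ D * D ^ M := Nat.mul_le_mul_right _ (hy M)
    have h2 : D ^ (M + 1) = D * D ^ M := by rw [pow_succ, mul_comm]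
    have h3 : (y M + 1) * D ^ M = y M * D ^ M + D ^ M := by ring
    rw [h2]
    change num D y M + y M * D ^ M < D * D ^ M
    omega

theorem num_split (D : ℕ) (y : ℕ → ℕ) (c k : ℕ) :
    ∃ q, num D y (c + 1 + k) = num D y c + D ^ c * (y c + D * q) := by
  induction k with
  | zero =>
    refine ⟨0, ?_⟩
    change num D y c + y c * D ^ c = _
    ring
  | succ k ih =>
    obtain ⟨q, hq⟩ := ih
    refine ⟨q + y (c + 1 + k) * D ^ k, ?_⟩
    change num D y (c + 1 + k) + y (c + 1 + k) * D ^ (c + 1 + k) = _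
    rw [hq, pow_add, pow_succ]
    ring

theorem digit {D : ℕ} {y : ℕ → ℕ} (hy : ∀ c, y c < D) {c M : ℕ} (hc : c < M) :
    num D y M / D ^ c % D = y c := by
  obtain ⟨k, rfl⟩ : ∃ k, M = c + 1 + k := ⟨M - (c + 1), by omega⟩
  obtain ⟨q, hq⟩ := num_split D y c k
  have hD : 0 < D := lt_of_le_of_lt (Nat.zero_le _) (hy 0)
  rw [hq, Nat.add_mul_div_left _ _ (pow_pos hD c), Nat.div_eq_of_lt (num_lt hy c), zero_add,
    Nat.add_mul_mod_self_left, Nat.mod_eq_of_lt (hy c)]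

/-- The block `n` of the number `u`. -/
def blk (n u : ℕ) : ℕ := u / 2 ^ av n % 2 ^ dv n

theorem blk_lt (n u : ℕ) : blk n u < Dv n := Nat.mod_lt _ (pow_pos (by norm_num) _)

/-- The slalom. -/
noncomputable def SS (τ : ℕ → ℕ × Finset ℕ) (n : ℕ) : ℕ :=
  num (Dv n) (fun c => blk n (bc (τ c).2)) (Mv n)

theorem SS_mem {W : Set ZFSet.{0}} (hW : IsZF W) {τ : ℕ → ℕ × Finset ℕ} (hτ : sgc τ ∈ W) :
    fnc (SS τ) ∈ W := by
  have hcs : fnc (cs τ) ∈ W := (sgc_iff hW τ).1 hτ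
  refine fnc_mem hW ?_
  have h0 : NF W fun w : Fin 1 → ZFSet.{0} => tn (w 0) := NF.tn hW (DfnF.proj 0)
  refine NF.rec hW (A := fun _ => 0)
    (S := fun c y v => y + blk (tn (v 0)) (bc (τ c).2) * Dv (tn (v 0)) ^ c)
    (r := fun v M => num (Dv (tn (v 0))) (fun c => blk (tn (v 0)) (bc (τ c).2)) M)
    (NF.const hW 0) ?_ (fun v => rfl) (fun v n => rfl) (NF.Mv hW h0)
  have h1 : NF W fun w : Fin 3 → ZFSet.{0} => tn (w 0) := NF.tn hW (DfnF.proj 0)
  have h2 : NF W fun w : Fin 3 → ZFSet.{0} => tn (w 1) := NF.tn hW (DfnF.proj 1)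
  have h3 : NF W fun w : Fin 3 → ZFSet.{0} => tn (w 2) := NF.tn hW (DfnF.proj 2)
  have h4 : NF W fun w : Fin 3 → ZFSet.{0} => bc (τ (tn (w 0))).2 := by
    refine NF.congr hW (NF.snd hW (NF.app hW hcs h1)) fun v _ => ?_
    change (Nat.unpair (Nat.pair (τ (tn (v 0))).1 (bc (τ (tn (v 0))).2))).2 = _
    rw [Nat.unpair_pair]
  have h5 : NF W fun w : Fin 3 → ZFSet.{0} => blk (tn (w 2)) (bc (τ (tn (w 0))).2) :=
    NF.mod hW (NF.div hW h4 (NF.pow hW (NF.const hW 2) (NF.av hW h3)))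
      (NF.pow hW (NF.const hW 2) (NF.dv hW h3))
  exact NF.add hW h2 (NF.mul hW h5 (NF.pow hW (NF.Dv hW h3) h1))

/-- Some number is not a digit. -/
theorem exists_not (n s : ℕ) : ∃ y < Dv n, ¬ inS (Mv n) (Dv n) s y := by
  by_contra hcon
  push Not at hcon
  have h1 := card_digits (w := Mv n) (D := Dv n) (s := s) (Finset.range (Dv n))
    (fun y hy => hcon y (Finset.mem_range.1 hy))
  rw [Finset.card_range] at h1
  exact absurd (Mv_lt_Dv n) (not_lt.2 h1)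

open Classical in
/-- The function that is not captured. -/
noncomputable def zz (S x : ℕ → ℕ) (n : ℕ) : ℕ :=
  if inS (Mv n) (Dv n) (S n) (x n) then sInf {y | ¬ inS (Mv n) (Dv n) (S n) y} else x n

theorem zz_not (S x : ℕ → ℕ) (n : ℕ) : ¬ inS (Mv n) (Dv n) (S n) (zz S x n) := by
  unfold zz
  split_ifs with h
  · obtain ⟨y, _, hy⟩ := exists_not n (S n)
    have h1 : sInf {y | ¬ inS (Mv n) (Dv n) (S n) y} ∈ {y | ¬ inS (Mv n) (Dv n) (S n) y} :=
      Nat.sInf_mem ⟨y, hy⟩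
    exact h1
  · exact h

theorem zz_lt {S x : ℕ → ℕ} (hx : ∀ n, x n < Dv n) (n : ℕ) : zz S x n < Dv n := by
  unfold zz
  split_ifs with h
  · obtain ⟨y, hy1, hy⟩ := exists_not n (S n)
    have h1 : sInf {y | ¬ inS (Mv n) (Dv n) (S n) y} ≤ y := Nat.sInf_le hy
    exact lt_of_le_of_lt h1 hy1
  · exact hx n

theorem zz_mem {W : Set ZFSet.{0}} (hW : IsZF W) {S x : ℕ → ℕ} (hS : fnc S ∈ W)
    (hx : fnc x ∈ W) : fnc (zz S x) ∈ W := by
  refine fnc_mem hW ?_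
  have h0 : NF W fun w : Fin 1 → ZFSet.{0} => tn (w 0) := NF.tn hW (DfnF.proj 0)
  have h1 : NF W fun w : Fin 2 → ZFSet.{0} => tn (w 0) := NF.tn hW (DfnF.proj 0)
  have h2 : NF W fun w : Fin 2 → ZFSet.{0} => tn (w 1) := NF.tn hW (DfnF.proj 1)
  refine NF.ite hW (Q := fun w : Fin 1 → ZFSet.{0} => inS (Mv (tn (w 0))) (Dv (tn (w 0)))
    (S (tn (w 0))) (x (tn (w 0)))) ?_ ?_ (NF.app hW hx h0)
  · exact dfn_inS hW (NF.Mv hW h0) (NF.Dv hW h0) (NF.app hW hS h0) (NF.app hW hx h0)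
  · refine NF.inf hW (Q := fun y w => ¬ inS (Mv (tn (w 0))) (Dv (tn (w 0))) (S (tn (w 0))) y) ?_
    exact (dfn_inS hW (NF.Mv hW h2) (NF.Dv hW h2) (NF.app hW hS h2) h1).not

/-- The block `n` of the point of `z` is `z n`. -/
theorem mem_ptx {z : ℕ → ℕ} (hz : ∀ n, z n < Dv n) {n j : ℕ} (hj : j < dv n) :
    av n + j ∈ ptx z ↔ z n / 2 ^ j % 2 = 1 := by
  have key : ∀ m, av n + j ∈ bts (2 ^ av m * z m) → m = n →  z n / 2 ^ j % 2 = 1 := by
    rintro m h rfl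
    rw [mem_bts, pow_add, Nat.mul_div_mul_left _ _ (pow_pos (by norm_num) _)] at h
    exact h
  constructor
  · rintro ⟨m, h1, h2, h3⟩
    refine key m h3 ?_
    rcases lt_trichotomy m n with h | h | h
    · exfalso
      have h4 := av_lt m
      have h5 := av_mono (show m + 1 ≤ n from h)
      omega
    · exact h
    · exfalso
      have h4 := av_lt n
      have h5 := av_mono (show n + 1 ≤ m from h)
      omega
  · intro h
    refine ⟨n, Nat.le_add_right _ _, by omega, ?_⟩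
    rw [mem_bts, pow_add, Nat.mul_div_mul_left _ _ (pow_pos (by norm_num) _)]
    exact h

theorem eq_blk {z : ℕ → ℕ} (hz : ∀ n, z n < Dv n) {n : ℕ} {t : Finset ℕ}
    (h : ∀ i < av n + dv n, (i ∈ ptx z ↔ i ∈ t)) : z n = blk n (bc t) := by
  refine Nat.eq_of_testBit_eq fun j => ?_
  rcases lt_or_ge j (dv n) with hj | hj
  · have h1 := h (av n + j) (by omega)
    rw [mem_ptx hz hj] at h1
    have h2 : av n + j ∈ t ↔ bc t / 2 ^ (av n + j) % 2 = 1 := by
      rw [← mem_bts, bts_bc]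
    rw [h2, pow_add, ← Nat.div_div_eq_div_mul] at h1
    unfold blk
    rw [Nat.testBit_mod_two_pow, Nat.testBit_eq_decide_div_mod_eq,
      Nat.testBit_eq_decide_div_mod_eq]
    have h3 : decide (z n / 2 ^ j % 2 = 1) = decide (bc t / 2 ^ av n / 2 ^ j % 2 = 1) :=
      decide_eq_decide.2 h1
    rw [h3]
    simp [hj]
  · have h1 : (2 : ℕ) ^ dv n ≤ 2 ^ j := Nat.pow_le_pow_right (by norm_num) hj
    have h2 : z n < 2 ^ dv n := hz n
    have h3 : blk n (bc t) < 2 ^ dv n := blk_lt n _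
    rw [Nat.testBit_eq_false_of_lt (by omega), Nat.testBit_eq_false_of_lt (by omega)]

end PB

theorem partB {W : Set ZFSet.{0}} (hW : IsZF W) {τ : ℕ → ℕ × Finset ℕ} (hτ : sgc τ ∈ W)
    (hlen : Ll ff fun m => (τ m).1) :
    ∃ S : ℕ → ℕ, fnc S ∈ W ∧ ∀ x : ℕ → ℕ, fnc x ∈ W → (∀ n, x n < Dv n) →
      (∀ z : Set ℕ, stc z ∈ W → z ∈ lims (sgx x) → z ∈ lims τ) → Cap 0 S x := by
  refine ⟨PB.SS τ, PB.SS_mem hW hτ, ?_⟩
  intro x hx hxD hlim
  by_contra hcap
  have hinf : ∀ n₀, ∃ n ≥ n₀, ¬ inS (Mv n) (Dv n) (PB.SS τ n) (x n) := by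
    intro n₀
    by_contra hcon
    push Not at hcon
    exact hcap ⟨n₀, hcon⟩
  have hz1 := PB.zz_mem hW (PB.SS_mem hW hτ) hx
  have hz2 : ∀ n, PB.zz (PB.SS τ) x n < Dv n := PB.zz_lt hxD
  have hz3 : ∀ n₀, ∃ n ≥ n₀, PB.zz (PB.SS τ) x n = x n := by
    intro n₀
    obtain ⟨n, hn, h⟩ := hinf n₀
    refine ⟨n, hn, ?_⟩
    unfold PB.zz
    rw [if_neg h]
  have h1 := hlim _ (stc_ptx hW hz1) (ptx_mem hxD hz2 hz3)
  obtain ⟨m1, hm1⟩ := hlen 1
  obtain ⟨m, hm, hcyl⟩ := h1 m1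
  have h2 := hm1 m hm
  rw [pow_one] at h2
  have h3 : av (ix m) + dv (ix m) ≤ (τ m).1 := by
    refine le_trans ?_ h2
    unfold ff
    omega
  have h4 : PB.zz (PB.SS τ) x (ix m) = PB.blk (ix m) (bc (τ m).2) :=
    PB.eq_blk hz2 fun i hi => hcyl i (lt_of_lt_of_le hi h3)
  refine PB.zz_not (PB.SS τ) x (ix m) ⟨m, ix_spec m, ?_⟩
  rw [h4]
  exact PB.digit (y := fun c => PB.blk (ix m) (bc (τ c).2)) (fun c => PB.blk_lt _ _) (ix_spec m)

end Pool.Agent.H635.RG
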