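import Pool.Agent.H635.RG.Ar
import Pool.Agent.H635.RG.In

/-!
# The forcing: dominating functions and slaloms
-/

set_option autoImplicit false
set_option linter.unreachableTactic false
set_option linter.unusedTactic false
set_option linter.unusedSectionVars false
set_option linter.unusedVariables false

namespace Pool.Agent.H635.RG

open Pool.Agent.W868 Pool.Agent.W868.GM Pool.Agent.Y588
open Pool.Agent.H635.RB (Fi dfn_fi fin_mem nat_mem_iff mem_nat nat_sub)
open ZFSet (pair)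
open Pool.Agent.H635.RF (fnc stc cyl)

/-- A relation between natural numbers as a set. -/
noncomputable def relc (R : ℕ → ℕ → Prop) : ZFSet.{0} :=
  ZFSet.sep (fun z => R (tn (fs z)) (tn (sn z))) (ZFSet.prod ZFSet.omega ZFSet.omega)

theorem pair_mem_relc {R : ℕ → ℕ → Prop} {a b : ℕ} :
    pair (nat a) (nat b) ∈ relc R ↔ R a b := by
  rw [relc, ZFSet.mem_sep, fs_pair, sn_pair, tn_nat, tn_nat]
  exact ⟨fun h => h.2, fun h => ⟨ZFSet.pair_mem_prod.2 ⟨nat_mem_omega _, nat_mem_omega _⟩, h⟩⟩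

theorem mem_relc {R : ℕ → ℕ → Prop} {x y : ZFSet.{0}} (h : pair x y ∈ relc R) :
    ∃ a b : ℕ, x = nat a ∧ y = nat b ∧ R a b := by
  have h1 := (ZFSet.mem_sep.1 h).1
  obtain ⟨h2, h3⟩ := ZFSet.pair_mem_prod.1 h1
  obtain ⟨a, rfl⟩ := mem_omega_iff.1 h2
  obtain ⟨b, rfl⟩ := mem_omega_iff.1 h3
  exact ⟨a, b, rfl, rfl, pair_mem_relc.1 h⟩

theorem relc_mem {W : Set ZFSet.{0}} (hW : IsZF W) {R : ℕ → ℕ → Prop}
    (hR : Dfn W W fun w : Fin 2 → ZFSet.{0} => R (tn (w 0)) (tn (w 1))) : relc R ∈ W := by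
  refine hW.sep_mem (Q := fun z => R (tn (fs z)) (tn (sn z))) ?_
    (hW.prod_mem hW.infinity hW.infinity)
  exact Dfn.comp2 (Q := fun a b => R (tn a) (tn b)) hR (hW.fs' (DfnF.proj 0))
    (hW.sn' (DfnF.proj 0))

/-- The parameters of the iteration. -/
noncomputable def yp : Par where
  E := ZFSet.omega
  Vl := relc fun n e => e.unpair.1 = n
  Cn := relc fun _ _ => True
  Al := relc AlR
  c := False
  z := True

theorem pOk_yp {M : Set ZFSet.{0}} (hM : IsZF M) : POk M yp where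
  E := hM.infinity
  Vl := by
    refine relc_mem (R := fun n e => e.unpair.1 = n) hM ?_
    exact Dfn.eqn (NF.fst hM (NF.tn hM (DfnF.proj 1))) (NF.tn hM (DfnF.proj 0))
  Cn := relc_mem (R := fun _ _ => True) hM (Dfn.prop _)
  Al := by
    refine relc_mem (R := AlR) hM ?_
    exact dfn_AlR hM (NF.tn hM (DfnF.proj 0)) (NF.tn hM (DfnF.proj 1))

theorem ct_yp {M : Set ZFSet.{0}} (hM : IsZF M) : Ct M yp.E := ct_omega hM

/-- There is an entry that allows finitely many values. -/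
theorem exists_entry (n : ℕ) {V : Finset ℕ} (hV : ((V.filter fun v => v % 2 = 1 ∧
    v / 2 < b0 n).image fun v => v / 2).card ≤ n) :
    ∃ e : ℕ, e.unpair.1 = n ∧ ∀ v ∈ V, AlR e v := by
  classical
  obtain ⟨s, hs⟩ := exists_digits (D := b0 n) _ (by
    intro y hy
    obtain ⟨v, hv, rfl⟩ := Finset.mem_image.1 hy
    exact (Finset.mem_filter.1 hv).2.2) hV
  refine ⟨Nat.pair n (Nat.pair (∑ v ∈ V, v) s), by rw [Nat.unpair_pair], fun v hv => ⟨?_, ?_⟩⟩
  · intro _
    rw [Nat.unpair_pair, Nat.unpair_pair]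
    exact (Nat.div_le_self _ _).trans (Finset.single_le_sum (f := fun v => v)
      (fun _ _ => Nat.zero_le _) hv)
  · intro h1 h2
    rw [Nat.unpair_pair] at h2 ⊢
    rw [Nat.unpair_pair]
    exact hs _ (Finset.mem_image.2 ⟨v, Finset.mem_filter.2 ⟨hv, h1, h2⟩, rfl⟩)

theorem pAx_yp : PAx yp where
  ent n b V hV := by
    have hc := hV trivial
    obtain ⟨e, h1, h2⟩ := exists_entry n (V := V)
      ((Finset.card_image_le.trans (Finset.card_filter_le _ _)).trans hc)
    exact ⟨nat e, nat_mem_omega _, (pair_mem_relc (R := fun n e => e.unpair.1 = n)).2 h1,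
      (pair_mem_relc (R := fun _ _ => True)).2 trivial,
      fun v hv => (pair_mem_relc (R := AlR)).2 (h2 v hv)⟩

theorem empty_Tb (M : Set ZFSet.{0}) (β : ZFSet.{0}) : (∅ : ZFSet.{0}) ∈ Tb M yp β := by
  unfold Tb Lb
  exact ZFSet.mem_union.2 (Or.inr (ZFSet.mem_sep.2 ⟨ZFSet.mem_singleton.2 rfl, fun h => h⟩))

theorem of_mem_Tb {M : Set ZFSet.{0}} {β t : ZFSet.{0}} (h : t ∈ Tb M yp β) : t = ∅ := by
  unfold Tb Lb at h
  rcases ZFSet.mem_union.1 h with h | h
  · exact absurd (ZFSet.mem_sep.1 h).2 fun h => h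
  · exact ZFSet.mem_singleton.1 (ZFSet.mem_sep.1 h).1

end Pool.Agent.H635.RG
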