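import Pool.Agent.H635.RG.Nf
import Pool.Agent.H635.RG.Def

/-!
# The parameters of the construction
-/

set_option autoImplicit false
set_option linter.unreachableTactic false
set_option linter.unusedTactic false
set_option linter.unusedSectionVars false
set_option linter.unusedVariables false

namespace Pool.Agent.H635.RG

open Pool.Agent.W868 Pool.Agent.W868.GM Pool.Agent.Y588
open ZFSet (pair)
open Pool.Agent.H635.RF (fnc stc cyl)

/-- The bound of the localized functions. -/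
def b0 (m : ℕ) : ℕ := (m ^ m + 1) * 2 ^ (m ^ m)

/-- The sums of the bounds. -/
def sb : ℕ → ℕ
  | 0 => 0
  | n + 1 => sb n + b0 n

/-- The next width. -/
def stp (n w : ℕ) : ℕ := w * ((n + 1) ^ n * 2 ^ sb ((w + 1) * n)) + w

/-- The number of strings. -/
def Mf (a n : ℕ) : ℕ := 2 ^ ((a + 1) * n) + 1

/-- The widths at `n`, starting with `m`. -/
def wq (m n : ℕ) : ℕ → ℕ
  | 0 => m
  | k + 1 => stp n (wq m n k)

/-- The length of the block. -/
def df (a n : ℕ) : ℕ := n * wq (Mf a n) n n + Mf a n + 1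

/-- The levels. -/
def av : ℕ → ℕ
  | 0 => 0
  | n + 1 => av n + df (av n) n + Mf (av n) n

/-- The length of the block `n`. -/
def dv (n : ℕ) : ℕ := df (av n) n

/-- The number of strings for the block `n`. -/
def Mv (n : ℕ) : ℕ := Mf (av n) n

/-- The width number `k` at `n`. -/
def wv (k n : ℕ) : ℕ := wq (Mv n) n k

/-- The number of the values in the block `n`. -/
def Dv (n : ℕ) : ℕ := 2 ^ dv n

/-- The block of the string number `m`. -/
noncomputable def ix (m : ℕ) : ℕ := sInf {n | m < Mv n}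

/-- The function with a small additivity. -/
noncomputable def ff (m : ℕ) : ℕ := m + av (ix m) + dv (ix m)

/-- `y` is one of the first `w` digits of `s` in base `D`. -/
def inS (w D s y : ℕ) : Prop := ∃ c < w, s / D ^ c % D = y

/-- The slalom `S` of width number `k` captures `x`. -/
def Cap (k : ℕ) (S x : ℕ → ℕ) : Prop := ∃ n₀ : ℕ, ∀ n ≥ n₀, inS (wv k n) (Dv n) (S n) (x n)

/-- The sum of the powers of two with exponents in `t`. -/
def bc (t : Finset ℕ) : ℕ := ∑ i ∈ t, 2 ^ i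

/-- The sequence `σ` as a function with natural numbers as values. -/
def cs (σ : ℕ → ℕ × Finset ℕ) (m : ℕ) : ℕ := Nat.pair (σ m).1 (bc (σ m).2)

/-- The entry `e` allows the value `v`. An entry is the pair of its place and of the pair of the
bound and the number whose digits are the allowed values. -/
def AlR (e v : ℕ) : Prop :=
  (v % 2 = 0 → v / 2 ≤ e.unpair.2.unpair.1) ∧
  (v % 2 = 1 → v / 2 < b0 e.unpair.1 →
    inS e.unpair.1 (b0 e.unpair.1) e.unpair.2.unpair.2 (v / 2))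

variable {W : Set ZFSet.{0}} (hW : IsZF W) {k : ℕ} {f g h l : (Fin k → ZFSet.{0}) → ℕ}

include hW

theorem NF.b0 (hf : NF W f) : NF W fun v => b0 (f v) :=
  NF.mul hW (NF.succ hW (NF.pow hW hf hf)) (NF.pow hW (NF.const hW 2) (NF.pow hW hf hf))

theorem NF.sb (hf : NF W f) : NF W fun v => sb (f v) :=
  NF.rec hW (A := fun _ => 0) (S := fun n y _ => y + Pool.Agent.H635.RG.b0 n)
    (r := fun v n => Pool.Agent.H635.RG.sb n) (NF.const hW 0)
    (NF.add hW (NF.tn hW (DfnF.proj 1)) (NF.b0 hW (NF.tn hW (DfnF.proj 0))))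
    (fun v => rfl) (fun v n => rfl) hf

theorem NF.stp (hf : NF W f) (hg : NF W g) : NF W fun v => stp (f v) (g v) :=
  NF.add hW (NF.mul hW hg (NF.mul hW (NF.pow hW (NF.succ hW hf) hf)
    (NF.pow hW (NF.const hW 2) (NF.sb hW (NF.mul hW (NF.succ hW hg) hf))))) hg

theorem NF.Mf (hf : NF W f) (hg : NF W g) : NF W fun v => Mf (f v) (g v) :=
  NF.succ hW (NF.pow hW (NF.const hW 2) (NF.mul hW (NF.succ hW hf) hg))

theorem NF.wq (hf : NF W f) (hg : NF W g) (hh : NF W h) : NF W fun v => wq (f v) (g v) (h v) :=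
  NF.rec hW (A := f) (S := fun _ y v => Pool.Agent.H635.RG.stp (g v) y)
    (r := fun v n => Pool.Agent.H635.RG.wq (f v) (g v) n) hf
    (NF.stp hW (NF.tail hW (NF.tail hW hg)) (NF.tn hW (DfnF.proj 1)))
    (fun v => rfl) (fun v n => rfl) hh

theorem NF.df (hf : NF W f) (hg : NF W g) : NF W fun v => df (f v) (g v) :=
  NF.succ hW (NF.add hW (NF.mul hW hg (NF.wq hW (NF.Mf hW hf hg) hg hg)) (NF.Mf hW hf hg))

theorem NF.av (hf : NF W f) : NF W fun v => av (f v) :=
  NF.rec hW (A := fun _ => 0) (S := fun n y _ => y + Pool.Agent.H635.RG.df y n +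
    Pool.Agent.H635.RG.Mf y n)
    (r := fun v n => Pool.Agent.H635.RG.av n) (NF.const hW 0)
    (NF.add hW (NF.add hW (NF.tn hW (DfnF.proj 1)) (NF.df hW (NF.tn hW (DfnF.proj 1))
      (NF.tn hW (DfnF.proj 0)))) (NF.Mf hW (NF.tn hW (DfnF.proj 1)) (NF.tn hW (DfnF.proj 0))))
    (fun v => rfl) (fun v n => rfl) hf

theorem NF.dv (hf : NF W f) : NF W fun v => dv (f v) := NF.df hW (NF.av hW hf) hf

theorem NF.Mv (hf : NF W f) : NF W fun v => Mv (f v) := NF.Mf hW (NF.av hW hf) hf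

theorem NF.wv (hf : NF W f) (hg : NF W g) : NF W fun v => wv (f v) (g v) :=
  NF.wq hW (NF.Mv hW hg) hg hf

theorem NF.Dv (hf : NF W f) : NF W fun v => Dv (f v) :=
  NF.pow hW (NF.const hW 2) (NF.dv hW hf)

theorem NF.ix (hf : NF W f) : NF W fun v => ix (f v) := by
  refine NF.inf hW (Q := fun n v => f v < Pool.Agent.H635.RG.Mv n) ?_
  exact Dfn.ltn (NF.tail hW hf) (NF.Mv hW (NF.tn hW (DfnF.proj 0)))

theorem NF.ff (hf : NF W f) : NF W fun v => ff (f v) :=
  NF.add hW (NF.add hW hf (NF.av hW (NF.ix hW hf))) (NF.dv hW (NF.ix hW hf))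

theorem dfn_inS (hf : NF W f) (hg : NF W g) (hh : NF W h) (hl : NF W l) :
    Dfn W W fun v => inS (f v) (g v) (h v) (l v) := by
  refine Dfn.exn hW (Q := fun c v => c < f v ∧ h v / g v ^ c % g v = l v) ?_
  have hc : NF W fun w : Fin (k + 1) → ZFSet.{0} => tn (w 0) := NF.tn hW (DfnF.proj 0)
  refine Dfn.and (Dfn.ltn hc (NF.tail hW hf)) (Dfn.eqn ?_ (NF.tail hW hl))
  exact NF.mod hW (NF.div hW (NF.tail hW hh) (NF.pow hW (NF.tail hW hg) hc)) (NF.tail hW hg)

theorem dfn_AlR (hf : NF W f) (hg : NF W g) : Dfn W W fun v => AlR (f v) (g v) := by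
  have h1 : NF W fun v => (Nat.unpair (f v)).1 := NF.fst hW hf
  have h2 : NF W fun v => (Nat.unpair (Nat.unpair (f v)).2).1 := NF.fst hW (NF.snd hW hf)
  have h3 : NF W fun v => (Nat.unpair (Nat.unpair (f v)).2).2 := NF.snd hW (NF.snd hW hf)
  have h4 : NF W fun v => g v / 2 := NF.div hW hg (NF.const hW 2)
  have h5 : NF W fun v => g v % 2 := NF.mod hW hg (NF.const hW 2)
  refine Dfn.and (Dfn.imp (Dfn.eqn h5 (NF.const hW 0)) (Dfn.len h4 h2))
    (Dfn.imp (Dfn.eqn h5 (NF.const hW 1)) (Dfn.imp (Dfn.ltn h4 (NF.b0 hW h1)) ?_))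
  exact dfn_inS hW h1 (NF.b0 hW h1) h3 h4

end Pool.Agent.H635.RG
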