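import Pool.Agent.H635.RG.Su

/-!
# The successor step
-/

set_option autoImplicit false
set_option linter.unreachableTactic false
set_option linter.unusedTactic false
set_option linter.unusedSectionVars false
set_option linter.unusedVariables false

namespace Pool.Agent.H635.RG

open Pool.Agent.W868 Pool.Agent.W868.GM Pool.Agent.Y588
open Pool.Agent.H635.RB (Fi dfn_fi fin_mem nat_mem_iff mem_nat nat_sub)
open ZFSet (pair)
open Pool.Agent.H635.RF (fnc stc cyl)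

/-- The relation that holds if the value of the slalom contains the number. -/
noncomputable def Ck (k : ℕ) : ZFSet.{0} :=
  relc fun e v => inS (wv k e.unpair.1) (Dv e.unpair.1) v e.unpair.2

theorem pair_mem_Ck {k n y v : ℕ} : pair (nat (Nat.pair n y)) (nat v) ∈ Ck k ↔
    inS (wv k n) (Dv n) v y := by
  rw [Ck, pair_mem_relc (R := fun e v => inS (wv k e.unpair.1) (Dv e.unpair.1) v e.unpair.2),
    Nat.unpair_pair]

theorem Ck_mem {W : Set ZFSet.{0}} (hW : IsZF W) (k : ℕ) : Ck k ∈ W := by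
  refine relc_mem (R := fun e v => inS (wv k e.unpair.1) (Dv e.unpair.1) v e.unpair.2) hW ?_
  have h0 : NF W fun w : Fin 2 → ZFSet.{0} => (Nat.unpair (tn (w 0))).1 :=
    NF.fst hW (NF.tn hW (DfnF.proj 0))
  exact dfn_inS hW (NF.wv hW (NF.const hW k) h0) (NF.Dv hW h0) (NF.tn hW (DfnF.proj 1))
    (NF.snd hW (NF.tn hW (DfnF.proj 0)))

section

variable {M : Set ZFSet.{0}} (hM : IsZF M) {κ G : ZFSet.{0}} (hκM : κ ∈ M) (hκ : κ.IsOrdinal)
  (hG : IsGeneric M (PP M yp κ) (LL M yp κ) G)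

include hM hκM hκ hG

/-- If the slalom captures the function, then this is forced. -/
theorem exists_force {γ : ZFSet.{0}} (hγM : γ ∈ M) (hγ : γ.IsOrdinal) (hγκ : γ ⊆ κ)
    {s : ZFSet.{0}} (hs : s ∈ Nm M yp γ) {x : ℕ → ℕ} (hx : fnc x ∈ M) {k n₀ : ℕ}
    (hc : ∀ n ≥ n₀, inS (wv k n) (Dv n) (fv M yp G γ s n) (x n)) :
    ∃ p ∈ Gb M yp G γ, ∀ n ≥ n₀, Fb M yp γ (Ck k) p s (nat n) (nat (Nat.pair n (x n))) := by
  have hπ := pOk_yp hM
  have hgb := isGeneric_Gb hM hπ hκM hκ hG hγM hγ hγκ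
  have hPM := PP_mem hM hπ hγM
  have hLM := LL_mem hM hπ hγM
  have hsM := (mem_Nm.1 hs).1
  obtain ⟨p, hp, h1⟩ := dense_gen hM hπ hγM hγ hgb (Q := fun p =>
    (∀ n : ℕ, n₀ ≤ n → Fb M yp γ (Ck k) p s (nat n) (nat (Nat.pair n (x n)))) ∨
    ∃ n : ℕ, n₀ ≤ n ∧ ∃ v : ℕ, Db M yp γ s p (nat n) (nat v) ∧
      ¬ inS (wv k n) (Dv n) v (x n)) (by
    refine Dfn.or ?_ ?_
    · refine Dfn.alln hM (Q := fun n w => n₀ ≤ n → Fb M yp γ (Ck k) (w 0) s (nat n)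
        (nat (Nat.pair n (x n)))) ?_
      have hn : NF M fun w : Fin 2 → ZFSet.{0} => tn (w 0) := NF.tn hM (DfnF.proj 0)
      refine Dfn.imp (Dfn.len (NF.const hM n₀) hn) ?_
      exact dfn_Fo hM (DfnF.const hPM) (DfnF.const hLM) (DfnF.const (Ck_mem hM k))
        (DfnF.proj 1) (DfnF.const hsM) hn (NF.pair hM hn (NF.app hM hx hn))
    · refine Dfn.exn hM (Q := fun n w => n₀ ≤ n ∧ ∃ v : ℕ, Db M yp γ s (w 0) (nat n) (nat v) ∧
        ¬ inS (wv k n) (Dv n) v (x n)) ?_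
      have hn : NF M fun w : Fin 2 → ZFSet.{0} => tn (w 0) := NF.tn hM (DfnF.proj 0)
      refine Dfn.and (Dfn.len (NF.const hM n₀) hn) ?_
      refine Dfn.exn hM (Q := fun v w => Db M yp γ s (w 1) (nat (tn (w 0))) (nat v) ∧
        ¬ inS (wv k (tn (w 0))) (Dv (tn (w 0))) v (x (tn (w 0)))) ?_
      have hn' : NF M fun w : Fin 3 → ZFSet.{0} => tn (w 1) := NF.tn hM (DfnF.proj 1)
      have hv' : NF M fun w : Fin 3 → ZFSet.{0} => tn (w 0) := NF.tn hM (DfnF.proj 0)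
      refine Dfn.and ?_ (Dfn.not ?_)
      · exact dfn_Dc hM (DfnF.const hPM) (DfnF.const hLM) (DfnF.const hsM) (DfnF.proj 2)
          hn' hv'
      · exact dfn_inS hM (NF.wv hM (NF.const hM k) hn') (NF.Dv hM hn') hv'
          (NF.app hM hx hn')) (by
    intro q hq
    by_cases h : ∀ n : ℕ, n₀ ≤ n → Fb M yp γ (Ck k) q s (nat n) (nat (Nat.pair n (x n)))
    · exact ⟨q, hq, le_refl _, Or.inl h⟩
    · push Not at h
      obtain ⟨n, hn, h2⟩ := h
      rw [Fb_iff hq] at h2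
      push Not at h2
      obtain ⟨r₁, hr₁, h3, h4⟩ := h2
      obtain ⟨r₂, hr₂, h5, v, hv, h6⟩ := exists_dec hs hr₁ (nat_mem_omega n)
      obtain ⟨j, rfl⟩ := mem_omega_iff.1 hv
      refine ⟨r₂, hr₂, le_trans hM hγ _ hq _ hr₁ _ hr₂ h5 h3, Or.inr ⟨n, hn, j, h6, fun h7 => ?_⟩⟩
      exact h4 r₂ hr₂ h5 _ hv (pair_mem_Ck.2 h7) h6)
  refine ⟨p, hp, ?_⟩
  rcases h1 with h1 | ⟨n, hn, v, h2, h3⟩
  · exact h1
  · exfalso
    have h4 := fv_eq hM hπ hκM hκ hG hγM hγ hγκ hs hp h2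
    have h5 := hc n hn
    rw [h4] at h5
    exact h3 h5

/-- The number `y` is forced into the slalom by a condition with a small stem. -/
def Cnd (M : Set ZFSet.{0}) (k : ℕ) (β s g : ZFSet.{0}) (n y : ℕ) : Prop :=
  y < Dv n ∧ ∃ p ∈ PP M yp (sc β), rs p β ∈ g ∧ Sm β p n ∧
    Fb M yp (sc β) (Ck k) p s (nat n) (nat (Nat.pair n y))

theorem card_Cnd {β : ZFSet.{0}} (hβκ : β ∈ κ) {s : ZFSet.{0}} (hs : s ∈ Nm M yp (sc β))
    {k n : ℕ} (V : Finset ℕ) (hV : ∀ y ∈ V, Cnd M k β s (Gb M yp G β) n y) :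
    V.card ≤ wv (k + 1) n := by
  classical
  have hβM := hM.trans _ hκM _ hβκ
  have hβ := hκ.mem hβκ
  have hsc := isOrdinal_sc hβ
  by_contra hlt
  push Not at hlt
  rw [wv_succ] at hlt
  set w := wv k n with hw
  choose! p hp using fun y hy => (hV y hy).2
  obtain ⟨t, ht, hfib⟩ := Finset.exists_lt_card_fiber_of_mul_lt_card_of_maps_to
    (s := V) (t := (Finset.univ : Finset (Fin n → Fin (n + 1))) ×ˢ
      (Finset.range (sb ((w + 1) * n))).powerset)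
    (f := fun y => (sty β (p y) n, pty M G β (p y) ((w + 1) * n))) (n := w) (by
      intro y _
      refine Finset.mem_product.2 ⟨Finset.mem_univ _, Finset.mem_powerset.2 ?_⟩
      exact Finset.filter_subset _ _) (by
      rw [Finset.card_product, Finset.card_univ, Fintype.card_fun, Fintype.card_fin,
        Fintype.card_fin, Finset.card_powerset, Finset.card_range, mul_comm]
      omega)
  obtain ⟨U, hU, hUc⟩ := Finset.exists_subset_card_eq (s := V.filter fun y =>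
    (sty β (p y) n, pty M G β (p y) ((w + 1) * n)) = t) (n := w + 1) hfib
  have hUV : ∀ y ∈ U, y ∈ V := fun y hy => (Finset.mem_filter.1 (hU hy)).1
  have hUt : ∀ y ∈ U, (sty β (p y) n, pty M G β (p y) ((w + 1) * n)) = t := fun y hy =>
    (Finset.mem_filter.1 (hU hy)).2
  obtain ⟨q, hq, hq'⟩ := fiber hM hκM hκ hG hβκ (n := n) U (Finset.card_pos.1 (by omega))
    (p := p) (fun y hy => (hp y (hUV y hy)).1) (fun y hy => (hp y (hUV y hy)).2.1)
    (fun y hy => (hp y (hUV y hy)).2.2.1) (fun y hy y' hy' => by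
      have h1 := (hUt y hy).trans (hUt y' hy').symm
      exact (Prod.mk.inj h1).1) (L := (w + 1) * n) (by rw [hUc]) (fun y hy y' hy' => by
      have h1 := (hUt y hy).trans (hUt y' hy').symm
      exact (Prod.mk.inj h1).2)
  obtain ⟨r, hr, h1, v, hv, h2⟩ := exists_dec hs hq (nat_mem_omega n)
  obtain ⟨j, rfl⟩ := mem_omega_iff.1 hv
  have h3 : U.card ≤ w := by
    refine card_digits (w := w) (D := Dv n) (s := j) U fun y hy => ?_
    have h4 := hp y (hUV y hy)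
    have h5 := Fb.mono hM hsc h4.1 hr
      (le_trans hM hsc _ h4.1 _ hq _ hr h1 (hq' y hy)) h4.2.2.2
    exact pair_mem_Ck.1 (Fb.dec hM hsc hs hr (nat_mem_omega n) hv h5 h2)
  omega

omit hG in
theorem dfn_Cnd {W : Set ZFSet.{0}} (hW : IsZF W) (hMW : M ⊆ W) {β : ZFSet.{0}} (hβM : β ∈ M)
    {s g : ZFSet.{0}} (hs : s ∈ M) (hg : g ∈ W) {k j : ℕ} {f h : (Fin j → ZFSet.{0}) → ℕ}
    (hf : NF W f) (hh : NF W h) : Dfn W W fun v => Cnd M k β s g (f v) (h v) := by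
  have hπ := pOk_yp hM
  have hB := hW.base
  have hscM : sc β ∈ M := hM.sc_mem hβM
  have hPM := hMW (PP_mem hM hπ hscM)
  have hLM := hMW (LL_mem hM hπ hscM)
  have hsaW : ∀ {i : ℕ} {F G' : (Fin i → ZFSet.{0}) → ZFSet.{0}}, DfnF W W F → DfnF W W G' →
      DfnF W W fun w => sa β ∅ (F w) (G' w) := by
    intro i F G' hF hG'
    exact hB.pair' (DfnF.const (hW.pair_mem (hMW hβM) hW.empty_mem))
      (hB.pair' (DfnF.const hW.empty_mem) (hB.pair' hF hG'))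
  refine Dfn.and (Dfn.ltn hh (NF.Dv hW hf)) ?_
  refine hB.bex (Q := fun p v => rs p β ∈ g ∧ Sm β p (f v) ∧
    Fb M yp (sc β) (Ck k) p s (nat (f v)) (nat (Nat.pair (f v) (h v)))) (DfnF.const hPM) ?_
  have hf1 := NF.tail hW hf
  have hh1 := NF.tail hW hh
  refine Dfn.and (Dfn.mem (dfn_rs hW (DfnF.proj 0) (DfnF.const (hMW hβM))) (DfnF.const hg))
    (Dfn.and ?_ ?_)
  · refine hB.ball (Q := fun m w => ∀ e ∈ ZFSet.omega, sa β ∅ m e ∈ w 0 →
      m ∈ nat (f (Fin.tail w)) ∧ e ∈ nat (f (Fin.tail w))) (DfnF.const hW.infinity) ?_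
    refine hB.ball (Q := fun e w => sa β ∅ (w 0) e ∈ w 1 →
      w 0 ∈ nat (f (Fin.tail (Fin.tail w))) ∧ e ∈ nat (f (Fin.tail (Fin.tail w))))
      (DfnF.const hW.infinity) ?_
    have hf3 := NF.tail hW (NF.tail hW hf1)
    refine Dfn.imp (Dfn.mem (hsaW (DfnF.proj 1) (DfnF.proj 0)) (DfnF.proj 2))
      (Dfn.and (Dfn.mem (DfnF.proj 1) hf3) (Dfn.mem (DfnF.proj 0) hf3))
  · exact dfn_Fo hW (DfnF.const hPM) (DfnF.const hLM) (DfnF.const (Ck_mem hW k))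
      (DfnF.proj 0) (DfnF.const (hMW hs)) hf1 (NF.pair hW hf1 hh1)

/-- The projection of a slalom. -/
noncomputable def Sst (M : Set ZFSet.{0}) (k : ℕ) (β s g : ZFSet.{0}) (n : ℕ) : ℕ :=
  sInf {c | ∀ y : ℕ, Cnd M k β s g n y → inS (wv (k + 1) n) (Dv n) c y}

theorem Sst_spec {β : ZFSet.{0}} (hβκ : β ∈ κ) {s : ZFSet.{0}} (hs : s ∈ Nm M yp (sc β))
    {k n y : ℕ} (hy : Cnd M k β s (Gb M yp G β) n y) :
    inS (wv (k + 1) n) (Dv n) (Sst M k β s (Gb M yp G β) n) y := by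
  classical
  have h1 : {c | ∀ y : ℕ, Cnd M k β s (Gb M yp G β) n y →
      inS (wv (k + 1) n) (Dv n) c y}.Nonempty := by
    obtain ⟨c, hc⟩ := exists_digits (w := wv (k + 1) n) (D := Dv n)
      ((Finset.range (Dv n)).filter fun y => Cnd M k β s (Gb M yp G β) n y)
      (fun y hy => Finset.mem_range.1 (Finset.mem_filter.1 hy).1)
      (card_Cnd hM hκM hκ hG hβκ hs _ fun y hy => (Finset.mem_filter.1 hy).2)
    exact ⟨c, fun y hy => hc y (Finset.mem_filter.2 ⟨Finset.mem_range.2 hy.1, hy⟩)⟩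
  exact Nat.sInf_mem h1 y hy

omit hG in
theorem Sst_mem {W : Set ZFSet.{0}} (hW : IsZF W) (hMW : M ⊆ W) {β : ZFSet.{0}} (hβM : β ∈ M)
    {s g : ZFSet.{0}} (hs : s ∈ M) (hg : g ∈ W) (k : ℕ) : fnc (Sst M k β s g) ∈ W := by
  refine fnc_mem hW ?_
  refine NF.inf hW (Q := fun c w => ∀ y : ℕ, Cnd M k β s g (tn (w 0)) y →
    inS (wv (k + 1) (tn (w 0))) (Dv (tn (w 0))) c y) ?_
  refine Dfn.alln hW (Q := fun y w => Cnd M k β s g (tn (w 1)) y →
    inS (wv (k + 1) (tn (w 1))) (Dv (tn (w 1))) (tn (w 0)) y) ?_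
  have h0 : NF W fun w : Fin 3 → ZFSet.{0} => tn (w 0) := NF.tn hW (DfnF.proj 0)
  have h1 : NF W fun w : Fin 3 → ZFSet.{0} => tn (w 1) := NF.tn hW (DfnF.proj 1)
  have h2 : NF W fun w : Fin 3 → ZFSet.{0} => tn (w 2) := NF.tn hW (DfnF.proj 2)
  exact Dfn.imp (dfn_Cnd hM hκM hκ hW hMW hβM hs hg h2 h0)
    (dfn_inS hW (NF.wv hW (NF.const hW (k + 1)) h2) (NF.Dv hW h2) h1 h0)

/-- A captured function is captured by the projection. -/
theorem cap_Sst {β : ZFSet.{0}} (hβκ : β ∈ κ) {s : ZFSet.{0}} (hs : s ∈ Nm M yp (sc β))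
    {k : ℕ} {x : ℕ → ℕ} (hx : fnc x ∈ M) (hxD : ∀ n, x n < Dv n)
    (hc : Cap k (fv M yp G (sc β) s) x) : Cap (k + 1) (Sst M k β s (Gb M yp G β)) x := by
  have hπ := pOk_yp hM
  have hβM := hM.trans _ hκM _ hβκ
  have hβ := hκ.mem hβκ
  have hscκ : sc β ⊆ κ := by
    intro z hz
    rcases ZFSet.mem_insert_iff.1 hz with h | h
    · rwa [h]
    · exact hκ.mem_trans h hβκ
  obtain ⟨n₀, h0⟩ := hc
  obtain ⟨p, hp, h1⟩ := exists_force hM hκM hκ hG (hM.sc_mem hβM) (isOrdinal_sc hβ) hscκ hs hx h0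
  have hpP := (mem_Gb.1 hp).2
  have hp' := mem_PP.1 hpP
  obtain ⟨n₁, h2⟩ : ∃ n₁, ∀ n ≥ n₁, Sm β p n := by
    obtain ⟨b, hb⟩ := (Set.Finite.image (fun z => tn (fs (sn (sn z))) + tn (sn (sn (sn z))))
      hp'.fin).bddAbove
    refine ⟨b + 1, fun n hn m hm e he hz => ?_⟩
    obtain ⟨i, rfl⟩ := mem_omega_iff.1 hm
    obtain ⟨j, rfl⟩ := mem_omega_iff.1 he
    have h3 := hb ⟨_, hz, rfl⟩
    simp only [snn_sa, fs_pair, sn_pair, tn_nat] at h3
    rw [nat_mem_iff, nat_mem_iff]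
    omega
  refine ⟨max n₀ n₁, fun n hn => ?_⟩
  refine Sst_spec hM hκM hκ hG hβκ hs ⟨hxD n, p, hpP, ?_, h2 n ?_, h1 n ?_⟩
  · exact rs_gen hM hπ hκM hκ hG hβ (hκ.subset_of_mem hβκ) (mem_Gb.1 hp).1
  · exact (le_max_right _ _).trans hn
  · exact (le_max_left _ _).trans hn

end

end Pool.Agent.H635.RG
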