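import Pool.Agent.H635.RG.Mk

/-!
# Conditions of the same type are compatible
-/

set_option autoImplicit false
set_option linter.unreachableTactic false
set_option linter.unusedTactic false
set_option linter.unusedSectionVars false
set_option linter.unusedVariables false

namespace Pool.Agent.H635.RG

open Pool.Agent.W868 Pool.Agent.W868.GM Pool.Agent.Y588
open Pool.Agent.H635.RB (Fi dfn_fi fin_mem nat_mem_iff mem_nat nat_sub)
open ZFSet (pair)
open Pool.Agent.H635.RF (fnc stc cyl)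

theorem sb_mono {i j : ℕ} (h : i ≤ j) : sb i ≤ sb j := by
  induction j, h using Nat.le_induction with
  | base => exact le_rfl
  | succ j _ ih => exact ih.trans (by rw [sb]; omega)

theorem sb_lt {j x L : ℕ} (hj : j < L) (hx : x < b0 j) : sb j + x < sb L := by
  have h1 : sb (j + 1) ≤ sb L := sb_mono hj
  rw [sb] at h1
  omega

theorem sb_inj {i j x y : ℕ} (hx : x < b0 i) (hy : y < b0 j) (h : sb i + x = sb j + y) :
    i = j ∧ x = y := by
  rcases lt_trichotomy i j with h1 | h1 | h1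
  · have := sb_lt h1 hx
    omega
  · subst h1
    exact ⟨rfl, by omega⟩
  · have := sb_lt h1 hy
    omega

theorem ncard_biUnion {α : Type*} (U : Finset ℕ) (S : ℕ → Set α) (c : ℕ)
    (h : ∀ y ∈ U, (S y).Finite ∧ (S y).ncard ≤ c) :
    (⋃ y ∈ U, S y).Finite ∧ (⋃ y ∈ U, S y).ncard ≤ U.card * c := by
  classical
  induction U using Finset.induction_on with
  | empty => simp
  | insert a U ha ih =>
    obtain ⟨h1, h2⟩ := ih fun y hy => h y (Finset.mem_insert_of_mem hy)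
    obtain ⟨h3, h4⟩ := h a (Finset.mem_insert_self _ _)
    rw [Finset.set_biUnion_insert, Finset.card_insert_of_notMem ha]
    refine ⟨h3.union h1, (Set.ncard_union_le _ _).trans ?_⟩
    rw [add_mul, one_mul]
    omega

/-- The stem of `p` in the block `β` is small. -/
def Sm (β p : ZFSet.{0}) (n : ℕ) : Prop :=
  ∀ m ∈ ZFSet.omega, ∀ e ∈ ZFSet.omega, sa β ∅ m e ∈ p → m ∈ nat n ∧ e ∈ nat n

open Classical in
/-- The type of the stem. -/
noncomputable def sty (β p : ZFSet.{0}) (n : ℕ) (i : Fin n) : Fin (n + 1) :=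
  if h : ∃ k : ℕ, sa β ∅ (nat i) (nat k) ∈ p ∧ k < n then ⟨h.choose, by
    have := h.choose_spec.2
    omega⟩ else ⟨n, by omega⟩

open Classical in
/-- The type of the promises. -/
noncomputable def pty (M : Set ZFSet.{0}) (G β p : ZFSet.{0}) (L : ℕ) : Finset ℕ :=
  (Finset.range (sb L)).filter fun c => ∃ j < L, ∃ x < b0 j, c = sb j + x ∧
    ∃ s, pa β ∅ s ∈ p ∧ fv M yp G β s j = 2 * x + 1

theorem sty_eq {M : Set ZFSet.{0}} {β p q : ZFSet.{0}} (hp : p ∈ PP M yp (sc β))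
    (hq : q ∈ PP M yp (sc β)) {n : ℕ} (hpn : Sm β p n) (h : sty β p n = sty β q n) {i k : ℕ}
    (hi : sa β ∅ (nat i) (nat k) ∈ p) : sa β ∅ (nat i) (nat k) ∈ q := by
  obtain ⟨h1, h2⟩ := hpn _ (nat_mem_omega _) _ (nat_mem_omega _) hi
  rw [nat_mem_iff] at h1 h2
  have h3 := congrFun h ⟨i, h1⟩
  have hpe : ∃ k : ℕ, sa β ∅ (nat i) (nat k) ∈ p ∧ k < n := ⟨k, hi, h2⟩
  have h4 : (sty β p n ⟨i, h1⟩ : ℕ) = hpe.choose := by
    rw [sty, dif_pos hpe]
  have h5 : hpe.choose = k :=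
    nat_injective ((mem_PP.1 hp).fn _ _ _ _ _ hpe.choose_spec.1 hi)
  by_cases hqe : ∃ k : ℕ, sa β ∅ (nat i) (nat k) ∈ q ∧ k < n
  · have h6 : (sty β q n ⟨i, h1⟩ : ℕ) = hqe.choose := by
      rw [sty, dif_pos hqe]
    have h7 := hqe.choose_spec.1
    rw [← h3, h4, h5] at h6
    rwa [← h6] at h7
  · have h6 : (sty β q n ⟨i, h1⟩ : ℕ) = n := by
      rw [sty, dif_neg hqe]
    rw [← h3, h4, h5] at h6
    omega

section

variable {M : Set ZFSet.{0}} (hM : IsZF M) {κ G : ZFSet.{0}} (hκM : κ ∈ M) (hκ : κ.IsOrdinal)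
  (hG : IsGeneric M (PP M yp κ) (LL M yp κ) G) {β : ZFSet.{0}} (hβκ : β ∈ κ)

include hM hκM hκ hG hβκ

/-- Finitely many conditions of the generic filter have a common extension in it. -/
theorem gen_dirs {S : Set ZFSet.{0}} (hS : S.Finite) (h : ∀ p ∈ S, p ∈ Gb M yp G β) :
    ∃ r ∈ Gb M yp G β, ∀ p ∈ S, Le M yp r p := by
  have hβM := hM.trans _ hκM _ hβκ
  have hβ := hκ.mem hβκ
  have hgb := isGeneric_Gb hM (pOk_yp hM) hκM hκ hG hβM hβ (hκ.subset_of_mem hβκ)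
  induction S, hS using Set.Finite.induction_on with
  | empty => exact ⟨∅, empty_gen hM (pOk_yp hM) hβM hβ hgb, fun p hp => absurd hp id⟩
  | @insert a S _ _ ih =>
    obtain ⟨r, h1, h2⟩ := ih fun p hp => h p (Set.mem_insert_of_mem _ hp)
    have ha := h a (Set.mem_insert _ _)
    obtain ⟨r', h3, h4, h5⟩ := gen_dir hM (pOk_yp hM) hβM hβ hgb h1 ha
    refine ⟨r', h3, ?_⟩
    rintro p (rfl | hp)
    · exact h5
    · exact le_trans hM hβ _ (mem_Gb.1 (h p (Set.mem_insert_of_mem _ hp))).2 _ (mem_Gb.1 h1).2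
        _ (mem_Gb.1 h3).2 h4 (h2 p hp)

/-- Finitely many values are decided. -/
theorem gen_decs {S : Set ZFSet.{0}} (hS : S.Finite) (h : ∀ s ∈ S, s ∈ Nm M yp β) (L : ℕ)
    {r₀ : ZFSet.{0}} (hr₀ : r₀ ∈ Gb M yp G β) : ∃ r ∈ Gb M yp G β, Le M yp r r₀ ∧
      ∀ s ∈ S, ∀ j < L, Db M yp β s r (nat j) (nat (fv M yp G β s j)) := by
  have hβM := hM.trans _ hκM _ hβκ
  have hβ := hκ.mem hβκ
  have hβκ' := hκ.subset_of_mem hβκ
  have hπ := pOk_yp hM
  set D : ZFSet.{0} × ℕ → ZFSet.{0} := fun u =>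
    open Classical in if hu : u.1 ∈ Nm M yp β then
      (fv_spec hM hπ hκM hκ hG hβM hβ hβκ' hu u.2).choose else r₀ with hD
  have hDs : ∀ u : ZFSet.{0} × ℕ, u.1 ∈ Nm M yp β → D u ∈ Gb M yp G β ∧
      Db M yp β u.1 (D u) (nat u.2) (nat (fv M yp G β u.1 u.2)) := by
    intro u hu
    have h1 : D u = (fv_spec hM hπ hκM hκ hG hβM hβ hβκ' hu u.2).choose := by
      rw [hD]
      simp only [hu, dif_pos]
    rw [h1]
    exact (fv_spec hM hπ hκM hκ hG hβM hβ hβκ' hu u.2).choose_spec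
  obtain ⟨r, h1, h2⟩ := gen_dirs hM hκM hκ hG hβκ
    (S := insert r₀ (D '' (S ×ˢ (Set.Iio L)))) (by
      exact Set.Finite.insert _ (Set.Finite.image _ (Set.Finite.prod hS (Set.finite_Iio L)))) (by
      rintro p (rfl | ⟨u, hu, rfl⟩)
      · exact hr₀
      · exact (hDs u (h _ hu.1)).1)
  refine ⟨r, h1, h2 _ (Set.mem_insert _ _), fun s hs j hj => ?_⟩
  have h3 := hDs (s, j) (h s hs)
  exact Db.mono hM hβ (mem_Gb.1 h3.1).2 (mem_Gb.1 h1).2
    (h2 _ (Set.mem_insert_of_mem _ ⟨(s, j), ⟨hs, hj⟩, rfl⟩)) h3.2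

/-- Conditions of the same type are compatible. -/
theorem fiber {n : ℕ} (U : Finset ℕ) (hU : U.Nonempty) {p : ℕ → ZFSet.{0}}
    (hp : ∀ y ∈ U, p y ∈ PP M yp (sc β)) (hpG : ∀ y ∈ U, rs (p y) β ∈ Gb M yp G β)
    (hSm : ∀ y ∈ U, Sm β (p y) n) (hst : ∀ y ∈ U, ∀ y' ∈ U, sty β (p y) n = sty β (p y') n)
    {L : ℕ} (hL : U.card * n ≤ L)
    (hnv : ∀ y ∈ U, ∀ y' ∈ U, pty M G β (p y) L = pty M G β (p y') L) :
    ∃ q ∈ PP M yp (sc β), ∀ y ∈ U, Le M yp q (p y) := by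
  classical
  have hβM := hM.trans _ hκM _ hβκ
  have hβ := hκ.mem hβκ
  have hβκ' := hκ.subset_of_mem hβκ
  have hπ := pOk_yp hM
  obtain ⟨y₀, hy₀⟩ := hU
  have hp₀ := mem_PP.1 (hp y₀ hy₀)
  set l := Len (p y₀) β ∅ with hl
  -- the stems
  have hsame : ∀ y ∈ U, ∀ i k : ℕ, sa β ∅ (nat i) (nat k) ∈ p y ↔
      sa β ∅ (nat i) (nat k) ∈ p y₀ := fun y hy i k =>
    ⟨sty_eq (hp y hy) (hp y₀ hy₀) (hSm y hy) (hst y hy y₀ hy₀),
      sty_eq (hp y₀ hy₀) (hp y hy) (hSm y₀ hy₀) (hst y₀ hy₀ y hy)⟩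
  have hlen : ∀ y ∈ U, Len (p y) β ∅ = l := by
    intro y hy
    have hpy := mem_PP.1 (hp y hy)
    have h1 : {m | ∃ e, sa β ∅ m e ∈ p y} = {m | ∃ e, sa β ∅ m e ∈ p y₀} := by
      ext m
      constructor
      · rintro ⟨e, he⟩
        obtain ⟨-, -, hm, hee⟩ := hpy.ats.sa he
        obtain ⟨i, rfl⟩ := mem_omega_iff.1 hm
        obtain ⟨k, rfl⟩ := mem_omega_iff.1 hee
        exact ⟨_, (hsame y hy i k).1 he⟩
      · rintro ⟨e, he⟩
        obtain ⟨-, -, hm, hee⟩ := hp₀.ats.sa he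
        obtain ⟨i, rfl⟩ := mem_omega_iff.1 hm
        obtain ⟨k, rfl⟩ := mem_omega_iff.1 hee
        exact ⟨_, (hsame y hy i k).2 he⟩
    rw [hl, Len, Len, h1]
  have hln : l ≤ n := by
    by_contra hlt
    push Not at hlt
    obtain ⟨e, he⟩ := (len_iff hp₀).2 (nat_mem_iff.2 hlt)
    obtain ⟨-, -, -, hee⟩ := hp₀.ats.sa he
    exact mem_nat_self n (hSm y₀ hy₀ _ (nat_mem_omega _) _ hee he).1
  have hcard : 1 ≤ U.card := Finset.card_pos.2 ⟨y₀, hy₀⟩
  have hlL : l ≤ L := by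
    have : 1 * n ≤ U.card * n := Nat.mul_le_mul_right _ hcard
    omega
  obtain ⟨E₀, hE₀, hq₀⟩ := eq_mkc hM hβ (hp y₀ hy₀)
  rw [← hl] at hE₀ hq₀
  -- the promises
  have hFb : ∀ y ∈ U, ({s | pa β ∅ s ∈ p y} : Set ZFSet.{0}).Finite ∧
      ({s | pa β ∅ s ∈ p y} : Set ZFSet.{0}).ncard ≤ n := by
    intro y hy
    have hpy := mem_PP.1 (hp y hy)
    refine ⟨fin_prom hpy.fin β ∅, ?_⟩
    have h1 := (sz_iff' hpy.ats).1 (hpy.sz trivial β ∅)
    rw [hlen y hy] at h1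
    exact h1.trans hln
  obtain ⟨hFf, hFc⟩ := ncard_biUnion U _ n hFb
  set F : ZFSet.{0} := ZFSet.sep (fun s => ∃ y ∈ U, pa β ∅ s ∈ p y) (Nm M yp β) with hF
  have hFs : {s | s ∈ F} = ⋃ y ∈ U, {s | pa β ∅ s ∈ p y} := by
    ext s
    simp only [Set.mem_iUnion, Set.mem_ofPred_eq, exists_prop]
    rw [hF, ZFSet.mem_sep]
    constructor
    · exact fun h => h.2
    · rintro ⟨y, hy, h⟩
      exact ⟨((mem_PP.1 (hp y hy)).ats.pa h).2.2, y, hy, h⟩
  have hFfin : Fi F := by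
    unfold Fi
    rw [hFs]
    exact hFf
  have hFfin' : ({s | s ∈ F} : Set ZFSet.{0}).Finite := hFfin
  have hFN : ∀ s ∈ F, s ∈ Nm M yp β := fun s hs => (ZFSet.mem_sep.1 hs).1
  have hFL : {s | s ∈ F}.ncard ≤ L := by
    rw [hFs]
    exact hFc.trans hL
  -- the lower part
  obtain ⟨r₀, hr₀, hr₀'⟩ := gen_dirs hM hκM hκ hG hβκ
    (S := (fun y => rs (p y) β) '' {y | y ∈ U}) (Set.Finite.image _ U.finite_toSet) (by
      rintro _ ⟨y, hy, rfl⟩
      exact hpG y hy)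
  obtain ⟨r, hr, hrr₀, hrd⟩ := gen_decs hM hκM hκ hG hβκ (S := {s | s ∈ F}) hFfin hFN L hr₀
  have hrP := (mem_Gb.1 hr).2
  -- the entries
  have hent : ∀ j : ℕ, ∃ e : ℕ, l ≤ j → j < L → e.unpair.1 = j ∧
      ∀ s ∈ F, AlR e (fv M yp G β s j) := by
    intro j
    by_cases hj : l ≤ j ∧ j < L
    · obtain ⟨hlj, hjL⟩ := hj
      obtain ⟨e, h1, h2⟩ := exists_entry j (V := hFfin'.toFinset.image fun s =>
        fv M yp G β s j) (by
        have hT := (fin_prom hp₀.fin β ∅)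
        refine (Finset.card_le_card (t := hT.toFinset.image fun s => fv M yp G β s j / 2)
          ?_).trans (Finset.card_image_le.trans ?_)
        · intro x hx
          obtain ⟨v, hv, rfl⟩ := Finset.mem_image.1 hx
          obtain ⟨hv1, hv2, hv3⟩ := Finset.mem_filter.1 hv
          obtain ⟨s, hs, rfl⟩ := Finset.mem_image.1 hv1
          have hs : s ∈ F := (Set.Finite.mem_toFinset _).1 hs
          obtain ⟨-, y, hy, hsy⟩ := ZFSet.mem_sep.1 hs
          have h3 : sb j + fv M yp G β s j / 2 ∈ pty M G β (p y) L := by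
            refine Finset.mem_filter.2 ⟨Finset.mem_range.2 (sb_lt hjL hv3), j, hjL, _, hv3, rfl,
              s, hsy, ?_⟩
            omega
          rw [hnv y hy y₀ hy₀] at h3
          obtain ⟨-, j', hj', x', hx', h4, s', hs', h5⟩ := Finset.mem_filter.1 h3
          obtain ⟨rfl, h6⟩ := sb_inj hv3 hx' h4
          refine Finset.mem_image.2 ⟨s', ?_, ?_⟩
          · rw [Set.Finite.mem_toFinset]
            exact hs'
          · omega
        · have h1 := (sz_iff' hp₀.ats).1 (hp₀.sz trivial β ∅)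
          have h2 : hT.toFinset.card = nF (p y₀) β ∅ := by
            rw [nF, Set.ncard_eq_toFinset_card _ hT]
          rw [h2]
          exact h1.trans hlj)
      exact ⟨e, fun _ _ => ⟨h1, fun s hs => h2 _ (Finset.mem_image.2
        ⟨s, (Set.Finite.mem_toFinset _).2 hs, rfl⟩)⟩⟩
    · exact ⟨0, fun h1 h2 => absurd ⟨h1, h2⟩ hj⟩
  choose E₁ hE₁ using hent
  set E : ℕ → ℕ := fun j => if j < l then E₀ j else E₁ j with hE
  have hEv : ∀ i < L, (E i).unpair.1 = i := by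
    intro i hi
    by_cases h : i < l
    · simp only [hE, h, if_true]
      exact hE₀ i h
    · simp only [hE, h, if_false]
      exact (hE₁ i (not_lt.1 h) hi).1
  refine ⟨mkc β r L E F, mkc_mem hM hβM hβ hrP hEv hFfin hFN hFL, fun y hy => ?_⟩
  obtain ⟨Ey, hEy, hqy⟩ := eq_mkc hM hβ (hp y hy)
  rw [hlen y hy] at hEy hqy
  have hry : rs (p y) β ∈ PP M yp β := (mem_Gb.1 (hpG y hy)).2
  rw [hqy]
  refine le_mkc hM hβM hβ hry hrP ?_ hlL ?_ ?_ ?_
  · exact le_trans hM hβ _ hry _ (mem_Gb.1 hr₀).2 _ hrP hrr₀ (hr₀' _ ⟨y, hy, rfl⟩)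
  · intro i hi
    have h1 : E i = E₀ i := by simp only [hE, hi, if_true]
    rw [h1]
    have h2 : sa β ∅ (nat i) (nat (E₀ i)) ∈ p y₀ := by
      rw [hq₀]
      exact mem_mkc.2 (Or.inr (Or.inl ⟨i, hi, rfl⟩))
    have h3 : sa β ∅ (nat i) (nat (Ey i)) ∈ p y := by
      rw [hqy]
      exact mem_mkc.2 (Or.inr (Or.inl ⟨i, hi, rfl⟩))
    exact nat_injective (hp₀.fn _ _ _ _ _ h2 ((hsame y hy _ _).1 h3))
  · intro s hs
    have h1 := (mem_PP.1 (hp y hy)).ats.mem_Fs.1 hs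
    exact ZFSet.mem_sep.2 ⟨((mem_PP.1 (hp y hy)).ats.pa h1).2.2, y, hy, h1⟩
  · intro s hs j h1 h2
    have h3 := (mem_PP.1 (hp y hy)).ats.mem_Fs.1 hs
    have h4 : s ∈ F := ZFSet.mem_sep.2 ⟨((mem_PP.1 (hp y hy)).ats.pa h3).2.2, y, hy, h3⟩
    refine Fb_of_Db hM hβ hrP (hrd s h4 j h2) (nat_mem_omega _) ?_
    refine (pair_mem_relc (R := AlR)).2 ?_
    have h5 : E j = E₁ j := by simp only [hE, not_lt.2 h1, if_false]
    rw [h5]
    exact (hE₁ j h1 h2).2 s h4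

end

end Pool.Agent.H635.RG
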