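import Pool.Agent.H635.RG.Pm

/-!
# The codes of the sets of the family
-/

set_option autoImplicit false

namespace Pool.Agent.H635.RG

open Pool.Agent.W868 Pool.Agent.W868.GM Pool.Agent.Y588
open ZFSet (pair)
open Pool.Agent.H635.RF (fnc stc cyl)

/-- The finite set with the binary code `c`. -/
def bts (c : ℕ) : Finset ℕ := (Finset.range c).filter fun j => c / 2 ^ j % 2 = 1

/-- The least `n` with `i < 2 ^ (a_n + 1)`. -/
noncomputable def iy (i : ℕ) : ℕ := sInf {n | i < 2 ^ (av n + 1)}

/-- The sequence of strings of the function `x`: for every `n` and every string `u` of length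
`a_n`, the string that continues `u` with the value of `x` at `n` up to the level `a_(n+1)`; the
other terms are long strings. -/
noncomputable def sgx (x : ℕ → ℕ) (i : ℕ) : ℕ × Finset ℕ :=
  if 2 ^ av (iy i) ≤ i then
    (av (iy i + 1), bts (i - 2 ^ av (iy i) + 2 ^ av (iy i) * x (iy i)))
  else (ff (i ^ i), ∅)

end Pool.Agent.H635.RG
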