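import Pool.Agent.H635.RG.Li
import Pool.Agent.H635.RG.Pb
import Pool.Agent.H635.RG.Pa
import Pool.Agent.H635.RG.Fc
import Pool.Agent.H635.RF.Fin

/-!
# The model
-/

set_option autoImplicit false
set_option linter.unreachableTactic false
set_option linter.unusedTactic false
set_option linter.unusedSectionVars false
set_option linter.unusedVariables false

namespace Pool.Agent.H635.RG

open Pool.Agent.W868 Pool.Agent.W868.GM Pool.Agent.Y588
open Pool.Agent.H635.RB (Fi dfn_fi fin_mem nat_mem_iff mem_nat nat_sub)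
open ZFSet (pair)
open Pool.Agent.H635.RF (fnc stc cyl)

section

variable {M : Set ZFSet.{0}} (hL : IsLA ∅ M) {κ G : ZFSet.{0}} (hκM : κ ∈ M)
  (hκ : κ.IsOrdinal) (hG : IsGeneric M (PP M yp κ) (LL M yp κ) G) {o : ZFSet.{0}}
  (ho : IsAleph1 M o)

include hL hκM hκ hG

theorem ext_zero : ext M (Gb M yp G ∅) ⊆ M := by
  have hM := hL.zf
  have hπ := pOk_yp hM
  refine ext_sub hM (fun _ h => h) ?_
  have h1 : Gb M yp G ∅ = {∅} := by
    ext p
    rw [mem_Gb, ZFSet.mem_singleton]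
    constructor
    · rintro ⟨-, h2⟩
      refine (ZFSet.eq_empty _).2 fun z hz => ?_
      obtain ⟨β, hβ, -⟩ := (mem_PP.1 h2).atom z hz
      exact ZFSet.notMem_empty _ hβ
    · rintro rfl
      exact ⟨empty_gen hM hπ hκM hκ hG, empty_mem_PP hM ∅⟩
  rw [h1]
  exact hM.single_mem hM.empty_mem

include ho

theorem TT_all {f : ZFSet.{0} → ZFSet.{0}}
    (hf : DfnF M M fun w : Fin 1 → ZFSet.{0} => f (w 0))
    (hfx : ∀ ξ ∈ o, ∃ x : ℕ → ℕ, f ξ = fnc x ∧ ∀ n, x n < Dv n)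
    (hf0 : ∀ S : ℕ → ℕ, fnc S ∈ M → ∀ k : ℕ, ∃ δ ∈ o, ∀ ξ ∈ o, ∀ x : ℕ → ℕ, f ξ = fnc x →
      Cap k S x → ξ ∈ δ) (γ : ZFSet.{0}) : γ.IsOrdinal → γ ⊆ κ → TT M G o f γ := by
  have hM := hL.zf
  induction γ using ZFSet.inductionOn with
  | _ γ ih =>
    intro hγ hγκ
    have hγM : γ ∈ M := by
      rcases hγ.mem_trichotomous hκ with h | h | h
      · exact hM.trans _ hκM _ h
      · rwa [h]
      · exact absurd (hγκ h) (ZFSet.mem_irrefl _)
    have ih' : ∀ β ∈ γ, TT M G o f β := fun β hβ => ih β hβ (hγ.mem hβ)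
      fun z hz => hγκ (hγ.mem_trans hz hβ)
    by_cases h0 : γ = ∅
    · subst h0
      intro S hS k
      exact hf0 S (ext_zero hL hκM hκ hG hS) k
    by_cases h1 : ∃ β ∈ γ, sc β = γ
    · obtain ⟨β, hβ, rfl⟩ := h1
      exact TT_succ hL hκM hκ hG ho hf hfx (hγκ hβ) (ih' β hβ)
    · have hlim : ∀ β ∈ γ, sc β ∈ γ := by
        intro β hβ
        rcases (isOrdinal_sc (hγ.mem hβ)).mem_trichotomous hγ with h | h | h
        · exact h
        · exact absurd ⟨β, hβ, h⟩ h1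
        · exfalso
          rcases ZFSet.mem_insert_iff.1 h with h2 | h2
          · rw [h2] at hβ
            exact ZFSet.mem_irrefl _ hβ
          · exact ZFSet.mem_asymm hβ h2
      have hne : (∅ : ZFSet.{0}) ∈ γ := by
        rcases ZFSet.isOrdinal_empty.mem_trichotomous hγ with h | h | h
        · exact h
        · exact absurd h.symm h0
        · exact absurd h (ZFSet.notMem_empty _)
      exact TT_lim hL hκM hκ hG ho hf hfx hγM hγ hγκ hlim hne ih'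

/-- The additivity of the ideal of the function `ff` is at most `o`. -/
theorem addLe_ff : AddLe (ext M G) ff o := by
  classical
  have hM := hL.zf
  have hπ := pOk_yp hM
  have hg := hL.gc
  have hN := zf_G hM hπ hg hκM hκ hG
  have hMN := M_sub_G hM hπ hκM hκ hG
  obtain ⟨f, hf, hfx, hf0⟩ := exists_luzin hL ho
  have hT := TT_all hL hκM hκ hG ho hf hfx hf0 κ hκ fun _ h => h
  have hself := Gb_self hM hπ hκM hκ hG
  have hXM : gr f o ∈ M := hM.im_mem ho.1 (hM.base.pair' (DfnF.proj 0) hf)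
  set x : ZFSet.{0} → ℕ → ℕ := fun ξ n => tn (ap (ap (gr f o) ξ) (nat n)) with hx
  have hxo : ∀ ξ ∈ o, f ξ = fnc (x ξ) ∧ ∀ n, x ξ n < Dv n := by
    intro ξ hξ
    obtain ⟨y, h1, h2⟩ := hfx ξ hξ
    have h3 : x ξ = y := by
      funext n
      rw [hx]
      simp only
      rw [ap_gr hξ, h1, RF.ap_fnc, tn_nat]
    rw [h3]
    exact ⟨h1, h2⟩
  have hxN : ∀ ξ ∈ o, fnc (x ξ) ∈ ext M G := by
    intro ξ hξ
    rw [← (hxo ξ hξ).1]
    exact hMN (hf.1 (fun _ => ξ) fun _ => hM.trans _ ho.1 _ hξ)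
  have hpw : pwM (ext M G) ZFSet.omega ∈ ext M G := (pwM' hN (DfnF.proj (0 : Fin 1))).1
    (fun _ => ZFSet.omega) fun _ => hN.infinity
  set F : ZFSet.{0} := ZFSet.sep (fun z => {i | nat i ∈ sn z} ∈ lims (sgx (x (fs z))))
    (ZFSet.prod o (pwM (ext M G) ZFSet.omega)) with hF
  have hFN : F ∈ ext M G := by
    refine hN.sep_mem (Q := fun z => {i | nat i ∈ sn z} ∈ lims (sgx (x (fs z)))) ?_
      (hN.prod_mem (hMN ho.1) hpw)
    exact dfn_lims hN (F := fun w => ap (gr f o) (fs (w 0))) (U := fun w => sn (w 0))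
      (hN.ap' (DfnF.const (hMN hXM)) (hN.fs' (DfnF.proj 0))) (hN.sn' (DfnF.proj 0))
  have memF : ∀ ξ (z : Set ℕ), pair ξ (stc z) ∈ F ↔ ξ ∈ o ∧ stc z ∈ ext M G ∧
      z ∈ lims (sgx (x ξ)) := by
    intro ξ z
    have h1 : {i | nat i ∈ stc z} = z := by
      ext i
      exact RF.nat_mem_stc
    rw [hF, ZFSet.mem_sep, ZFSet.pair_mem_prod, fs_pair, sn_pair, h1, mem_pwM]
    constructor
    · rintro ⟨⟨h2, h3, -⟩, h4⟩
      exact ⟨h2, h3, h4⟩
    · rintro ⟨h2, h3, h4⟩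
      exact ⟨⟨h2, h3, RF.stc_sub⟩, h4⟩
  refine ⟨F, hFN, fun ξ hξ => ?_, ?_⟩
  · exact ⟨sgx (x ξ), sgx_mem hN (hxN ξ hξ), Ll_sgx _, fun z hz => ((memF ξ z).1 hz).2.2⟩
  · rintro ⟨τ, h1, h2, h3⟩
    obtain ⟨S, h4, h5⟩ := partB hN h1 h2
    obtain ⟨δ, hδ, h6⟩ := hT S (by rwa [hself]) 0
    have h7 : δ ∈ δ := by
      refine h6 δ hδ (x δ) (hxo δ hδ).1 (h5 _ (hxN δ hδ) (hxo δ hδ).2 fun z hz hz' => ?_)
      exact h3 (Set.mem_biUnion (x := δ) hδ ((memF δ z).2 ⟨hδ, hz, hz'⟩))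
    exact ZFSet.mem_irrefl _ h7

/-- The additivity of the ideal of the identity is larger than `o`. -/
theorem not_addLe_id (hb : Bdd M κ (ZFSet.prod o ZFSet.omega)) :
    ¬ AddLe (ext M G) id o := by
  classical
  have hM := hL.zf
  have hπ := pOk_yp hM
  have hx := pAx_yp
  have hg := hL.gc
  have hP := isForcing_PP hM hπ hκM hκ
  have hN := zf_G hM hπ hg hκM hκ hG
  have hMN := M_sub_G hM hπ hκM hκ hG
  have hGN := G_mem_G hM hπ hκM hκ hG
  have hid : fnc id ∈ ext M G := by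
    refine fnc_mem hN ?_
    exact NF.tn hN (DfnF.proj 0)
  rintro ⟨F, hF, h1, h2⟩
  refine h2 ?_
  obtain ⟨X, hX, σ, h3, h4, h5⟩ := exists_codes (zfc_ext hL hP hG) hid (hMN ho.1) hF h1
  have hoc : ZFSet.prod o ZFSet.omega ∈ M := hM.prod_mem ho.1 hM.infinity
  obtain ⟨γ, hγκ, hXγ⟩ := stage hM hπ (ct_yp hM) hg hx hκM hκ hG hoc
    ⟨_, ZFSet.pair_mem_prod.2 ⟨zero_lt hM hg ho, nat_mem_omega 0⟩⟩ hb
    (X := X) (h := fun c => nat (cs (σ (fs c)) (tn (sn c)))) hX h4 (fun _ _ => nat_mem_omega _)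
    (by
      intro c hc v hv
      obtain ⟨k, hk, i, hi, rfl⟩ := ZFSet.mem_prod.1 hc
      obtain ⟨i, rfl⟩ := mem_omega_iff.1 hi
      obtain ⟨v, rfl⟩ := mem_omega_iff.1 hv
      rw [h5 k hk i v, fs_pair, sn_pair, tn_nat]
      exact ⟨fun h => by rw [h], fun h => nat_injective h⟩)
  have hγM := hM.trans _ hκM _ hγκ
  have hγ := hκ.mem hγκ
  have hγκ' := hκ.subset_of_mem hγκ
  have hW := zf_Gb hM hπ hg hκM hκ hG hγM hγ hγκ'
  have hMW := M_sub_Gb hM hπ hκM hκ hG hγM hγ hγκ'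
  have hT := empty_Tb M γ
  have hgeo : ∀ n, ge G γ ∅ n ∈ ZFSet.omega := fun n => ge_E hM hπ hκM hκ hG hx hγκ hT n
  set e : ℕ → ℕ := fun n => tn (ge G γ ∅ n) with he
  have hne : ∀ n, nat (e n) = ge G γ ∅ n := fun n => nat_tn (hgeo n)
  have heN : fnc e ∈ ext M G := by
    refine RF.fnc_mem_of hN (Q := fun a b => ∃ p ∈ G, sa γ ∅ a b ∈ p) ?_ fun i j => ?_
    · refine hN.base.bex (Q := fun p w => sa γ ∅ (w 0) (w 1) ∈ p) (DfnF.const hGN) ?_
      refine Dfn.mem ?_ (DfnF.proj 0)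
      exact hN.base.pair' (DfnF.const (hN.pair_mem (hMN hγM) hN.empty_mem))
        (hN.base.pair' (DfnF.const hN.empty_mem) (hN.base.pair' (DfnF.proj 1) (DfnF.proj 2)))
    · constructor
      · rintro ⟨p, hp, h6⟩
        have h7 := ge_eq hM hπ hκM hκ hG hx hγκ hT hp h6
        rw [← hne] at h7
        exact (nat_injective h7).symm
      · rintro rfl
        obtain ⟨p, hp, h6⟩ := ge_spec hM hπ hκM hκ hG hx hγκ hT i
        exact ⟨p, hp, by rwa [hne]⟩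
  obtain ⟨τ, h6, h7, h8⟩ := partA hN hW heN (by
    intro n
    have h9 := ge_Vl hM hπ hκM hκ hG hx hγκ hT n
    rw [← hne] at h9
    exact (pair_mem_relc (R := fun n e => e.unpair.1 = n)).1 h9) (by
    intro v hv
    obtain ⟨s, hs, h9⟩ := exists_Nm hM hπ hκM hκ hG hγM hγ hγκ' hv
    obtain ⟨n₀, h10⟩ := ge_Al hM hπ hκM hκ hG hx hγκ hT hs
    refine ⟨n₀, fun n hn => ?_⟩
    have h11 := h10 n hn
    rw [← hne, h9] at h11
    exact (pair_mem_relc (R := AlR)).1 h11)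
  refine ⟨τ, h6, h7, Set.iUnion₂_subset fun k hk => ?_⟩
  obtain ⟨h9, h10⟩ := h3 k hk
  refine h10.trans (h8 (σ k) ?_ h9)
  refine RF.fnc_mem_of hW (Q := fun a b => pair (pair k a) b ∈ X) ?_ fun i j => h5 k hk i j
  refine Dfn.mem ?_ (DfnF.const hXγ)
  exact hW.base.pair' (hW.base.pair' (DfnF.const (hMW (hM.trans _ ho.1 _ hk))) (DfnF.proj 0))
    (DfnF.proj 1)

end

theorem exists_model : ∃ N : Set ZFSet.{0}, N.Countable ∧ IsZFC N ∧ ∃ K ∈ N,
    (∃ f : ℕ → ℕ, StrictMono f ∧ fnc f ∈ N ∧ AddLe N f K) ∧ ¬ AddLe N id K := by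
  obtain ⟨M, hc, hL⟩ := Pool.Agent.R597.exists_ctm_L
  have hM := hL.zf
  have hg := hL.gc
  obtain ⟨o, ho⟩ := RF.exists_aleph1 hM
  have ho' : IsAleph1 M o := ho
  obtain ⟨κ, hκM, hκ, hb⟩ := exists_aleph2 hM hg ho'
  have hπ := pOk_yp hM
  have hP := isForcing_PP hM hπ hκM hκ
  obtain ⟨G, hG, -⟩ := exists_gen hc hP (empty_mem_PP hM κ)
  have hN := zf_G hM hπ hg hκM hκ hG
  have hMN := M_sub_G hM hπ hκM hκ hG
  refine ⟨ext M G, hc.image _, zfc_ext hL hP hG, o, hMN ho.1, ⟨ff, strictMono_ff, ?_,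
    addLe_ff hL hκM hκ hG ho'⟩, not_addLe_id hL hκM hκ hG ho' hb⟩
  exact fnc_mem hN (NF.ff hN (NF.tn hN (DfnF.proj 0)))

end Pool.Agent.H635.RG
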