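import Pool.Agent.H635.RG.Po

/-!
# The iteration: gluing, amalgamation and extension of stems
-/

set_option autoImplicit false
set_option linter.unreachableTactic false
set_option linter.unusedTactic false
set_option linter.unusedSectionVars false
set_option linter.unusedVariables false

namespace Pool.Agent.H635.RG

open Pool.Agent.W868 Pool.Agent.W868.GM Pool.Agent.Y588
open Pool.Agent.H635.RB (Fi dfn_fi fin_mem nat_mem_iff mem_nat)
open ZFSet (pair)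

variable {M : Set ZFSet.{0}} {π : Par}

/-- The length of the stem. -/
noncomputable def Len (p β t : ZFSet.{0}) : ℕ := {m | ∃ e, sa β t m e ∈ p}.ncard

/-- The number of the promises. -/
noncomputable def nF (p β t : ZFSet.{0}) : ℕ := {s | pa β t s ∈ p}.ncard

theorem ncard_nat (n : ℕ) : {x | x ∈ nat n}.ncard = n := by
  have h : {x | x ∈ nat n} = nat '' (Finset.range n : Set ℕ) := by
    ext x
    simp only [Set.mem_ofPred_eq, Set.mem_image, Finset.coe_range, Set.mem_Iio]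
    rw [mem_nat]
    constructor
    · rintro ⟨i, h1, rfl⟩
      exact ⟨i, h1, rfl⟩
    · rintro ⟨i, h1, rfl⟩
      exact ⟨i, h1, rfl⟩
  rw [h, Set.ncard_image_of_injective _ nat_injective, Set.ncard_coe_finset, Finset.card_range]

theorem fin_stem {p : ZFSet.{0}} (fp : Fi p) (β t : ZFSet.{0}) :
    {m | ∃ e, sa β t m e ∈ p}.Finite := by
  refine Set.Finite.subset (Set.Finite.image (fun z => fs (sn (sn z))) fp) ?_
  rintro m ⟨e, he⟩
  refine ⟨_, he, ?_⟩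
  simp only [snn_sa, fs_pair]

theorem fin_prom {p : ZFSet.{0}} (fp : Fi p) (β t : ZFSet.{0}) :
    {s | pa β t s ∈ p}.Finite := by
  refine Set.Finite.subset (Set.Finite.image (fun z => sn (sn z)) fp) ?_
  intro s hs
  exact ⟨_, hs, snn_pa _ _ _⟩

theorem exists_len {α p : ZFSet.{0}} (hp : IsCond M π α p) (β t : ZFSet.{0}) :
    ∃ n : ℕ, {m | ∃ e, sa β t m e ∈ p} = {x | x ∈ nat n} := by
  classical
  have hfin := fin_stem hp.fin β t
  have hex : ∃ n : ℕ, ¬ ∃ e, sa β t (nat n) e ∈ p := by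
    by_contra hc
    push Not at hc
    have : (Set.range nat) ⊆ {m | ∃ e, sa β t m e ∈ p} := by
      rintro _ ⟨n, rfl⟩
      exact hc n
    exact (Set.infinite_range_of_injective nat_injective) (hfin.subset this)
  obtain ⟨n, hn1, hn2⟩ : ∃ n : ℕ, (¬ ∃ e, sa β t (nat n) e ∈ p) ∧
      ∀ k < n, ∃ e, sa β t (nat k) e ∈ p :=
    ⟨Nat.find hex, Nat.find_spec hex, fun k hk => not_not.1 (Nat.find_min hex hk)⟩
  refine ⟨n, ?_⟩
  ext x
  simp only [Set.mem_ofPred_eq]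
  rw [mem_nat]
  constructor
  · rintro ⟨e, he⟩
    obtain ⟨i, rfl⟩ := mem_omega_iff.1 (hp.ats.sa he).2.2.1
    refine ⟨i, ?_, rfl⟩
    by_contra hle
    push Not at hle
    rcases hle.lt_or_eq with h | h
    · exact hn1 (hp.seg _ _ _ _ _ he (nat_mem_iff.2 h))
    · rw [h] at hn1
      exact hn1 ⟨e, he⟩
  · rintro ⟨i, hi, rfl⟩
    exact hn2 i hi

theorem len_iff {α p : ZFSet.{0}} (hp : IsCond M π α p) {β t m : ZFSet.{0}} :
    (∃ e, sa β t m e ∈ p) ↔ m ∈ nat (Len p β t) := by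
  obtain ⟨n, hn⟩ := exists_len hp β t
  have h : Len p β t = n := by
    rw [Len, hn, ncard_nat]
  rw [h]
  exact Set.ext_iff.1 hn m

theorem len_of {p β t : ZFSet.{0}} {n : ℕ} (h : ∀ m, (∃ e, sa β t m e ∈ p) ↔ m ∈ nat n) :
    Len p β t = n := by
  have : {m | ∃ e, sa β t m e ∈ p} = {x | x ∈ nat n} := Set.ext h
  rw [Len, this, ncard_nat]

theorem sz_iff' {α p : ZFSet.{0}} (hp : Ats M π α p) {β t : ZFSet.{0}} :
    Sz (Fs p (pair β t)) (Ls p (pair β t)) ↔ nF p β t ≤ Len p β t := by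
  have h1 : {x | x ∈ Fs p (pair β t)} = {s | pa β t s ∈ p} := Set.ext fun s => hp.mem_Fs
  have h2 : {x | x ∈ Ls p (pair β t)} = {m | ∃ e, sa β t m e ∈ p} := Set.ext fun s => hp.mem_Ls
  rw [Sz, h1, h2, nF, Len]

theorem mem_Nm {β s : ZFSet.{0}} : s ∈ Nm M π β ↔ s ∈ M ∧
    s ⊆ ZFSet.prod (ZFSet.prod ZFSet.omega ZFSet.omega) (PP M π β) ∧
    Nmp (PP M π β) (LL M π β) s := by
  rw [Nm, Nms, ZFSet.mem_sep, mem_pwM, and_assoc]

theorem exists_dec {β s r m : ZFSet.{0}} (hs : s ∈ Nm M π β) (hr : r ∈ PP M π β)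
    (hm : m ∈ ZFSet.omega) : ∃ r₂ ∈ PP M π β, Le M π r₂ r ∧ ∃ v ∈ ZFSet.omega,
      Db M π β s r₂ m v := by
  obtain ⟨r₂, h1, h2, h3⟩ := (mem_Nm.1 hs).2.2.1 m hm r hr
  exact ⟨r₂, h1, (mem_LL.1 h2).2.2, h3⟩

theorem Db.uniq {β s r m v v' : ZFSet.{0}} (hs : s ∈ Nm M π β) (hr : r ∈ PP M π β)
    (hm : m ∈ ZFSet.omega) (hv : v ∈ ZFSet.omega) (hv' : v' ∈ ZFSet.omega)
    (h : Db M π β s r m v) (h' : Db M π β s r m v') : v = v' :=
  (mem_Nm.1 hs).2.2.2 m hm r hr v hv v' hv' h h'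

/-- A forced relation at a decided value. -/
theorem Fb.dec {β C s r m e v : ZFSet.{0}} (hM : IsZF M) (hβ : β.IsOrdinal)
    (hs : s ∈ Nm M π β) (hr : r ∈ PP M π β) (hm : m ∈ ZFSet.omega) (hv : v ∈ ZFSet.omega)
    (h : Fb M π β C r s m e) (h' : Db M π β s r m v) : pair e v ∈ C := by
  obtain ⟨r₂, h1, h2, w, hw, h3, h4⟩ := (Fb_iff hr).1 h r hr (le_refl r)
  have := Db.uniq hs h1 hm hv hw (Db.mono hM hβ hr h1 h2 h') h4
  rwa [this]

section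

variable (hM : IsZF M)

include hM

theorem exists_decs {β m : ZFSet.{0}} (hβ : β.IsOrdinal) (hm : m ∈ ZFSet.omega)
    {S : Set ZFSet.{0}} (hS : S.Finite) (hSN : ∀ s ∈ S, s ∈ Nm M π β) :
    ∀ r ∈ PP M π β, ∃ r₂ ∈ PP M π β, Le M π r₂ r ∧ ∀ s ∈ S, ∃ v ∈ ZFSet.omega,
      Db M π β s r₂ m v := by
  induction S, hS using Set.Finite.induction_on with
  | empty => exact fun r hr => ⟨r, hr, le_refl r, fun s hs => absurd hs (Set.notMem_empty _)⟩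
  | @insert a S' ha hS' ih =>
    intro r hr
    obtain ⟨r₁, h1, h2, h3⟩ := ih (fun s hs => hSN s (Set.mem_insert_of_mem _ hs)) r hr
    obtain ⟨r₂, h4, h5, v, hv, h6⟩ := exists_dec (hSN a (Set.mem_insert _ _)) h1 hm
    refine ⟨r₂, h4, le_trans hM hβ _ hr _ h1 _ h4 h5 h2, fun s hs => ?_⟩
    rcases hs with rfl | hs
    · exact ⟨v, hv, h6⟩
    · obtain ⟨w, hw, h7⟩ := h3 s hs
      exact ⟨w, hw, Db.mono hM hβ h1 h4 h5 h7⟩

theorem union_in {p q : ZFSet.{0}} (hp : p ∈ M) (hq : q ∈ M) : p ∪ q ∈ M :=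
  hM.union_mem hp hq

/-- Gluing. -/
theorem glue {α β p r : ZFSet.{0}} (hα : α.IsOrdinal) (hβ : β.IsOrdinal) (hβα : β ⊆ α)
    (hp : p ∈ PP M π α) (hr : r ∈ PP M π β) (hle : Le M π r (rs p β)) :
    p ∪ r ∈ PP M π α ∧ Le M π (p ∪ r) p ∧ rs (p ∪ r) β = r := by
  have hp' := mem_PP.1 hp
  have hr' := mem_PP.1 hr
  have hrs : rs (p ∪ r) β = r := by
    rw [rs_union, hr'.ats.rs_eq]
    ext z
    rw [ZFSet.mem_union]
    exact ⟨fun h => h.elim (fun h => hle.1 h) id, Or.inr⟩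
  have hlow : ∀ γ t m e, sa γ t m e ∈ p ∪ r → γ ∈ β → sa γ t m e ∈ r := by
    intro γ t m e h1 h2
    have : sa γ t m e ∈ rs (p ∪ r) β := sa_mem_rs.2 ⟨h1, h2⟩
    rwa [hrs] at this
  have hlow' : ∀ γ t s, pa γ t s ∈ p ∪ r → γ ∈ β → pa γ t s ∈ r := by
    intro γ t s h1 h2
    have : pa γ t s ∈ rs (p ∪ r) β := pa_mem_rs.2 ⟨h1, h2⟩
    rwa [hrs] at this
  have hup : ∀ γ t m e, sa γ t m e ∈ p ∪ r → γ ∉ β → sa γ t m e ∈ p := by
    intro γ t m e h1 h2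
    rcases ZFSet.mem_union.1 h1 with h3 | h3
    · exact h3
    · exact absurd (hr'.ats.sa h3).1 h2
  have hup' : ∀ γ t s, pa γ t s ∈ p ∪ r → γ ∉ β → pa γ t s ∈ p := by
    intro γ t s h1 h2
    rcases ZFSet.mem_union.1 h1 with h3 | h3
    · exact h3
    · exact absurd (hr'.ats.pa h3).1 h2
  have hL : Le M π (p ∪ r) p := by
    refine ⟨fun z hz => ZFSet.mem_union.2 (Or.inl hz), fun γ t s m e h1 h2 h3 => ?_⟩
    by_cases hγ : γ ∈ β
    · have h4 := hlow _ _ _ _ h2 hγ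
      have h5 : rs (p ∪ r) γ = rs r γ := by
        rw [← rs_rs (hβ.subset_of_mem hγ), hrs]
      rw [h5]
      exact hle.2 _ _ _ _ _ (pa_mem_rs.2 ⟨h1, hγ⟩) h4 fun h6 => h3 (rs_sub h6)
    · exact absurd (hup _ _ _ _ h2 hγ) h3
  refine ⟨?_, hL, hrs⟩
  have hat : Ats M π α (p ∪ r) := hp'.ats.union (hr'.ats.mono hβα)
  refine mk_PP hM hα (union_in hM hp'.mem hr'.mem) (Fi.union hp'.fin hr'.fin) hat ?_ ?_ ?_ ?_ ?_
  · intro γ t m e e' h1 h2
    by_cases hγ : γ ∈ β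
    · exact hr'.fn _ _ _ _ _ (hlow _ _ _ _ h1 hγ) (hlow _ _ _ _ h2 hγ)
    · exact hp'.fn _ _ _ _ _ (hup _ _ _ _ h1 hγ) (hup _ _ _ _ h2 hγ)
  · intro γ t m e m' h1 h2
    by_cases hγ : γ ∈ β
    · obtain ⟨e', he'⟩ := hr'.seg _ _ _ _ _ (hlow _ _ _ _ h1 hγ) h2
      exact ⟨e', ZFSet.mem_union.2 (Or.inr he')⟩
    · obtain ⟨e', he'⟩ := hp'.seg _ _ _ _ _ (hup _ _ _ _ h1 hγ) h2
      exact ⟨e', ZFSet.mem_union.2 (Or.inl he')⟩
  · intro γ t m e h1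
    rcases ZFSet.mem_union.1 h1 with h3 | h3
    · exact hp'.vl _ _ _ _ h3
    · exact hr'.vl _ _ _ _ h3
  · intro hc γ t m e h1 h2
    by_cases hγ : γ ∈ β
    · have h5 : rs (p ∪ r) γ = rs r γ := by
        rw [← rs_rs (hβ.subset_of_mem hγ), hrs]
      rw [h5]
      exact hr'.cn hc _ _ _ _ (hlow _ _ _ _ h1 hγ)
    · have h3 := hup _ _ _ _ h1 hγ
      have hγo : γ.IsOrdinal := hα.mem (hp'.ats.sa h3).1
      exact Fb.mono hM hγo (rs_mem hM hγo hp) h2 (le_rs hγo hL) (hp'.cn hc _ _ _ _ h3)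
  · intro hc γ t
    rw [sz_iff' hat]
    by_cases hγ : γ ∈ β
    · have h6 := hr'.sz hc γ t
      rw [sz_iff' hr'.ats] at h6
      have h7 : nF (p ∪ r) γ t = nF r γ t := by
        have : {s | pa γ t s ∈ p ∪ r} = {s | pa γ t s ∈ r} := Set.ext fun s =>
          ⟨fun h => hlow' _ _ _ h hγ, fun h => ZFSet.mem_union.2 (Or.inr h)⟩
        rw [nF, this, nF]
      have h8 : Len (p ∪ r) γ t = Len r γ t := by
        have : {m | ∃ e, sa γ t m e ∈ p ∪ r} = {m | ∃ e, sa γ t m e ∈ r} := Set.ext fun m =>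
          ⟨fun ⟨e, h⟩ => ⟨e, hlow _ _ _ _ h hγ⟩, fun ⟨e, h⟩ => ⟨e, ZFSet.mem_union.2 (Or.inr h)⟩⟩
        rw [Len, this, Len]
      rw [h7, h8]
      exact h6
    · have h6 := hp'.sz hc γ t
      rw [sz_iff' hp'.ats] at h6
      have h7 : nF (p ∪ r) γ t = nF p γ t := by
        have : {s | pa γ t s ∈ p ∪ r} = {s | pa γ t s ∈ p} := Set.ext fun s =>
          ⟨fun h => hup' _ _ _ h hγ, fun h => ZFSet.mem_union.2 (Or.inl h)⟩
        rw [nF, this, nF]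
      have h8 : Len (p ∪ r) γ t = Len p γ t := by
        have : {m | ∃ e, sa γ t m e ∈ p ∪ r} = {m | ∃ e, sa γ t m e ∈ p} := Set.ext fun m =>
          ⟨fun ⟨e, h⟩ => ⟨e, hup _ _ _ _ h hγ⟩, fun ⟨e, h⟩ => ⟨e, ZFSet.mem_union.2 (Or.inl h)⟩⟩
        rw [Len, this, Len]
      rw [h7, h8]
      exact h6

/-- Amalgamation. -/
theorem amal {α p q : ZFSet.{0}} (hα : α.IsOrdinal) (hp : p ∈ PP M π α) (hq : q ∈ PP M π α)
    (hfn : ∀ β t m e e', sa β t m e ∈ p → sa β t m e' ∈ q → e = e')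
    (hsz : π.z → ∀ β t, nF (p ∪ q) β t ≤ Len (p ∪ q) β t)
    (h1 : ∀ β t s m e, pa β t s ∈ p → sa β t m e ∈ q → sa β t m e ∉ p →
      rs (p ∪ q) β ∈ PP M π β → Fb M π β π.Al (rs (p ∪ q) β) s m e)
    (h2 : ∀ β t s m e, pa β t s ∈ q → sa β t m e ∈ p → sa β t m e ∉ q →
      rs (p ∪ q) β ∈ PP M π β → Fb M π β π.Al (rs (p ∪ q) β) s m e) :
    p ∪ q ∈ PP M π α ∧ Le M π (p ∪ q) p ∧ Le M π (p ∪ q) q := by
  have hp' := mem_PP.1 hp
  have hq' := mem_PP.1 hq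
  have hat : Ats M π α (p ∪ q) := hp'.ats.union hq'.ats
  have hlp : ∀ β : ZFSet.{0}, β.IsOrdinal → rs (p ∪ q) β ∈ PP M π β →
      Le M π (rs (p ∪ q) β) (rs p β) := by
    intro β hβ hr
    refine ⟨fun z hz => ?_, fun γ t s m e h3 h4 h5 => ?_⟩
    · obtain ⟨h6, h7⟩ := mem_rs.1 hz
      exact mem_rs.2 ⟨ZFSet.mem_union.2 (Or.inl h6), h7⟩
    · obtain ⟨h6, h7⟩ := pa_mem_rs.1 h3
      obtain ⟨h8, -⟩ := sa_mem_rs.1 h4
      have h9 : sa γ t m e ∉ p := fun h => h5 (sa_mem_rs.2 ⟨h, h7⟩)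
      have h10 : sa γ t m e ∈ q := (ZFSet.mem_union.1 h8).resolve_left h9
      have h11 := rs_mem (π := π) hM (hβ.mem h7) hr
      rw [rs_rs (hβ.subset_of_mem h7)] at h11 ⊢
      exact h1 _ _ _ _ _ h6 h10 h9 h11
  have hlq : ∀ β : ZFSet.{0}, β.IsOrdinal → rs (p ∪ q) β ∈ PP M π β →
      Le M π (rs (p ∪ q) β) (rs q β) := by
    intro β hβ hr
    refine ⟨fun z hz => ?_, fun γ t s m e h3 h4 h5 => ?_⟩
    · obtain ⟨h6, h7⟩ := mem_rs.1 hz
      exact mem_rs.2 ⟨ZFSet.mem_union.2 (Or.inr h6), h7⟩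
    · obtain ⟨h6, h7⟩ := pa_mem_rs.1 h3
      obtain ⟨h8, -⟩ := sa_mem_rs.1 h4
      have h9 : sa γ t m e ∉ q := fun h => h5 (sa_mem_rs.2 ⟨h, h7⟩)
      have h10 : sa γ t m e ∈ p := (ZFSet.mem_union.1 h8).resolve_right h9
      have h11 := rs_mem (π := π) hM (hβ.mem h7) hr
      rw [rs_rs (hβ.subset_of_mem h7)] at h11 ⊢
      exact h2 _ _ _ _ _ h6 h10 h9 h11
  have hmem : p ∪ q ∈ PP M π α := by
    refine mk_PP hM hα (union_in hM hp'.mem hq'.mem) (Fi.union hp'.fin hq'.fin) hat ?_ ?_ ?_ ?_ ?_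
    · intro γ t m e e' h3 h4
      rcases ZFSet.mem_union.1 h3 with h3 | h3
      · rcases ZFSet.mem_union.1 h4 with h4 | h4
        · exact hp'.fn _ _ _ _ _ h3 h4
        · exact hfn _ _ _ _ _ h3 h4
      · rcases ZFSet.mem_union.1 h4 with h4 | h4
        · exact (hfn _ _ _ _ _ h4 h3).symm
        · exact hq'.fn _ _ _ _ _ h3 h4
    · intro γ t m e m' h3 h4
      rcases ZFSet.mem_union.1 h3 with h3 | h3
      · obtain ⟨e', he'⟩ := hp'.seg _ _ _ _ _ h3 h4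
        exact ⟨e', ZFSet.mem_union.2 (Or.inl he')⟩
      · obtain ⟨e', he'⟩ := hq'.seg _ _ _ _ _ h3 h4
        exact ⟨e', ZFSet.mem_union.2 (Or.inr he')⟩
    · intro γ t m e h3
      rcases ZFSet.mem_union.1 h3 with h3 | h3
      · exact hp'.vl _ _ _ _ h3
      · exact hq'.vl _ _ _ _ h3
    · intro hc γ t m e h3 h4
      rcases ZFSet.mem_union.1 h3 with h3 | h3
      · have hγo : γ.IsOrdinal := hα.mem (hp'.ats.sa h3).1
        exact Fb.mono hM hγo (rs_mem hM hγo hp) h4 (hlp γ hγo h4) (hp'.cn hc _ _ _ _ h3)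
      · have hγo : γ.IsOrdinal := hα.mem (hq'.ats.sa h3).1
        exact Fb.mono hM hγo (rs_mem hM hγo hq) h4 (hlq γ hγo h4) (hq'.cn hc _ _ _ _ h3)
    · intro hc γ t
      rw [sz_iff' hat]
      exact hsz hc γ t
  refine ⟨hmem, ?_, ?_⟩
  · have := hlp α hα (by rwa [hat.rs_eq])
    rwa [hat.rs_eq, hp'.ats.rs_eq] at this
  · have := hlq α hα (by rwa [hat.rs_eq])
    rwa [hat.rs_eq, hq'.ats.rs_eq] at this

end

end Pool.Agent.H635.RG
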